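import Mathlib
import Pool.Agent.Work.MP_0532f7_lc.TD.Defs

/-!
Complete objects for NP ∩ coNP, for TFNP and for disjoint coNP-pairs, relative to an oracle.
-/

set_option autoImplicit false

namespace Pool.Agent.Work.MP_0532f7_lc.TP

/-- `L` is a complete set for NP ∩ coNP relative to the oracle `X`: it is in NP and in coNP relative
to `X`, and every set in NP and coNP relative to `X` is many-one reducible to `L` by a function
computable in polynomial time relative to `X`. -/
def CompleteNPcoNP (X : List Bool → Bool) (L : Set (List Bool)) : Prop :=
  (NPRel X L ∧ CoNPRel X L) ∧ ∀ L' : Set (List Bool), NPRel X L' → CoNPRel X L' →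
    ∃ r : List Bool → List Bool, PolyTimeRel X r ∧ ∀ x, x ∈ L' ↔ r x ∈ L

/-- `R` is a TFNP problem relative to the oracle `X` (`R x` is the set of the solutions of the
instance `x`): solutions are of polynomial length and recognized in polynomial time relative to
`X`, and every instance has a solution. -/
def TFNPRel (X : List Bool → Bool) (R : List Bool → Set (List Bool)) : Prop :=
  (∃ V : List Bool → List Bool, PolyTimeRel X V ∧ ∃ p : Polynomial ℕ, ∀ x y,
    y ∈ R x ↔ y.length ≤ p.eval x.length ∧ V (pr x y) = [true]) ∧ ∀ x, (R x).Nonempty

/-- `R` is a complete TFNP problem relative to the oracle `X`: for every TFNP problem `R'` relative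
to `X` there are functions `r`, `s` computable in polynomial time relative to `X` such that `s`
turns every solution of the instance `r x` of `R` into a solution of the instance `x` of `R'`. -/
def CompleteTFNP (X : List Bool → Bool) (R : List Bool → Set (List Bool)) : Prop :=
  TFNPRel X R ∧ ∀ R' : List Bool → Set (List Bool), TFNPRel X R' →
    ∃ r s : List Bool → List Bool, PolyTimeRel X r ∧ PolyTimeRel X s ∧
      ∀ x, ∀ y ∈ R (r x), s (pr x y) ∈ R' x

/-- `C`, `D` is a complete disjoint coNP-pair relative to the oracle `X`: `C` and `D` are disjoint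
sets in coNP relative to `X`, and for all disjoint sets `C'`, `D'` in coNP relative to `X` some
function computable in polynomial time relative to `X` maps `C'` into `C` and `D'` into `D`. -/
def CompleteDisjCoNP (X : List Bool → Bool) (C D : Set (List Bool)) : Prop :=
  (CoNPRel X C ∧ CoNPRel X D ∧ Disjoint C D) ∧ ∀ C' D' : Set (List Bool),
    CoNPRel X C' → CoNPRel X D' → Disjoint C' D' →
      ∃ r : List Bool → List Bool, PolyTimeRel X r ∧ (∀ x ∈ C', r x ∈ C) ∧ ∀ x ∈ D', r x ∈ D

end Pool.Agent.Work.MP_0532f7_lc.TP
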