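import Mathlib
import Pool.Agent.Work.MP_0532f7_lc.SlClo
import Pool.Agent.Work.MP_0532f7_lc.SlUp
import Pool.Agent.Work.MP_0532f7_lc.TD.Pos
import Pool.Agent.Work.MP_0532f7_lc.TP.Defs

/-!
# TP.Impl (size M): a complete TFNP problem gives a complete disjoint coNP-pair

Let `R` be complete with verifier `V` and bound `p`.  For a word `w = pr x' (pr c (pr x t))` and `y ∈ R x'` let
`β w y` be the statement `run X (pr c (pr (pr x y) t)) = [true]` and put

`C = {w | ∀ y ∈ R x', β w y}`, `D = {w | ∀ y ∈ R x', ¬ β w y}`   (`x' = fs w`, `c = fs (sn w)`, `x = fs (sn (sn w))`, `t = sn (sn (sn w))`).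

* coNP: the verifier on `pr w y` gives `[true]` if `y ∉ R x'` (test `|y| ≤ p (|x'|)` by `FP.clock`, `V (pr x' y)`), else tests `β w y`
  (`PolyTimeRel.run`, `PolyTimeRel.pre`); bound `p` (`|x'| ≤ |w|`, `pmono`).
* Disjoint: `R x'` is nonempty.
* Complete: `C'`, `D'` disjoint, in coNP with verifiers `V0`, `V1` and bounds `p0`, `p1`.  `R' x` = the words `true :: y` with
  `|y| ≤ p0 (|x|)`, `V0 (pr x y) ≠ [true]` and the words `false :: y` with `|y| ≤ p1 (|x|)`, `V1 (pr x y) ≠ [true]`.  It is a TFNP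
  problem: total since `x ∉ C'` or `x ∉ D'`.  Let `r`, `s` be given for `R'`.  Let `G (pr x y) = [true]` if the first bit of `s (pr x y)` is
  `false`, else `[false]`; `run_code` (SlClo) gives `c` and `P0`.  For `y ∈ R (r x)`: `|y| ≤ p (Pr (|x|))` (`PolyTimeRel.length` for `r`), so
  with `t = un (P0 (2 |x| + 1 + p (Pr |x|)))` we get `β w y ↔ G (pr x y) = [true]` for `w = ρ x = pr (r x) (pr c (pr x t))`.
  If `x ∈ C'` then every solution `s (pr x y)` begins with `false`, so `ρ x ∈ C`; if `x ∈ D'` it begins with `true`, so `ρ x ∈ D`.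
-/

set_option autoImplicit false

namespace Pool.Agent.Work.MP_0532f7_lc.TP

open Polynomial Pool.Agent.Work.MP_0532f7_lc.TD

/-- the condition on all the solutions of the instance `fs w` -/
private theorem im_coNP {X : List Bool → Bool} {R : List Bool → Set (List Bool)}
    {V W : List Bool → List Bool} (hV : PolyTimeRel X V) {p : Polynomial ℕ}
    (hVp : ∀ x y, y ∈ R x ↔ y.length ≤ p.eval x.length ∧ V (pr x y) = [true])
    (hW : PolyTimeRel X W) : CoNPRel X {w | ∀ y ∈ R (fs w), W (pr w y) = [true]} := by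
  obtain ⟨k, hk, hk'⟩ := FP.clock p
  have h1 : PolyTimeRel X (fun v => V (pr (fs (fs v)) (sn v))) :=
    hV.pre (FP.fsI.fst.pair FP.snI)
  have h2 : FPb (fun v => !decide ((k (fs (fs v))).length < (sn v).length)) :=
    (FPb.ltI (hk.comp FP.fsI.fst) FP.snI).not
  refine ⟨fun v => if (!decide ((k (fs (fs v))).length < (sn v).length)) = true then
    (if V (pr (fs (fs v)) (sn v)) = [true] then W v else [true]) else [true],
    (PolyTimeRel.of_fp h2 X).iteb (h1.ite hW (PolyTimeRel.of_fp (FP.const [true]) X))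
      (PolyTimeRel.of_fp (FP.const [true]) X), p, fun w => ?_⟩
  simp only [fs_pr, sn_pr, Bool.not_eq_true', decide_eq_false_iff_not, not_lt, hk',
    Set.mem_ofPred_eq]
  constructor
  · intro h y _
    split_ifs with h3 h4
    · exact h y ((hVp _ _).2 ⟨h3, h4⟩)
    · rfl
    · rfl
  · intro h y hy
    obtain ⟨h3, h4⟩ := (hVp _ _).1 hy
    have h5 := h y (h3.trans (pmono p (fs_length w)))
    rw [if_pos h3, if_pos h4] at h5
    exact h5

/-- the test of a counterexample -/
private theorem im_test {X : List Bool → Bool} {V : List Bool → List Bool}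
    (hV : PolyTimeRel X V) (p : Polynomial ℕ) : ∃ U : List Bool → List Bool, PolyTimeRel X U ∧
      ∀ x b y, U (pr x (b :: y)) = [true] ↔ y.length ≤ p.eval x.length ∧ V (pr x y) ≠ [true] := by
  obtain ⟨k, hk, hk'⟩ := FP.clock p
  have h1 : PolyTimeRel X (fun v => V (pr (fs v) (sn v).tail)) :=
    hV.pre (FP.fsI.pair (FP.tail.comp FP.snI))
  have h2 : FPb (fun v => !decide ((k (fs v)).length < (sn v).tail.length)) :=
    (FPb.ltI (hk.comp FP.fsI) (FP.tail.comp FP.snI)).not
  refine ⟨fun v => if (!decide ((k (fs v)).length < (sn v).tail.length)) = true then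
    (if V (pr (fs v) (sn v).tail) = [true] then [false] else [true]) else [false],
    (PolyTimeRel.of_fp h2 X).iteb (h1.ite (PolyTimeRel.of_fp (FP.const [false]) X)
      (PolyTimeRel.of_fp (FP.const [true]) X))
      (PolyTimeRel.of_fp (FP.const [false]) X), fun x b y => ?_⟩
  simp only [fs_pr, sn_pr, Bool.not_eq_true', decide_eq_false_iff_not, not_lt, hk',
    List.tail_cons]
  split_ifs with h3 h4
  · simp [h4]
  · simp [h3, h4]
  · simp [h3]

theorem disj_of_tfnp {X : List Bool → Bool} {R : List Bool → Set (List Bool)}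
    (h : CompleteTFNP X R) : ∃ C D, CompleteDisjCoNP X C D := by
  obtain ⟨⟨⟨V, hV, p, hVp⟩, htot⟩, hcomp⟩ := h
  have hrun : PolyTimeRel X (fun v => run X (pr (fs (sn (fs v)))
      (pr (pr (fs (sn (sn (fs v)))) (sn v)) (sn (sn (sn (fs v))))))) :=
    (PolyTimeRel.run X).pre (FP.fsI.snd.fst.pair ((FP.fsI.snd.snd.fst.pair FP.snI).pair
      FP.fsI.snd.snd.snd))
  refine ⟨{w | ∀ y ∈ R (fs w), run X (pr (fs (sn (fs (pr w y))))
      (pr (pr (fs (sn (sn (fs (pr w y))))) (sn (pr w y))) (sn (sn (sn (fs (pr w y))))))) =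
        [true]},
    {w | ∀ y ∈ R (fs w), (if run X (pr (fs (sn (fs (pr w y))))
      (pr (pr (fs (sn (sn (fs (pr w y))))) (sn (pr w y))) (sn (sn (sn (fs (pr w y))))))) =
        [true] then [false] else [true]) = [true]},
    ⟨im_coNP hV hVp hrun, im_coNP hV hVp (not_ptr hrun), ?_⟩, ?_⟩
  · rw [Set.disjoint_left]
    intro w hw hw'
    obtain ⟨y, hy⟩ := htot (fs w)
    have h1 := hw y hy
    have h2 := hw' y hy
    rw [if_pos h1] at h2
    simp at h2
  · intro C' D' hC' hD' hdis
    obtain ⟨V0, hV0, p0, hp0⟩ := hC'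
    obtain ⟨V1, hV1, p1, hp1⟩ := hD'
    obtain ⟨U0, hU0, hU0'⟩ := im_test hV0 p0
    obtain ⟨U1, hU1, hU1'⟩ := im_test hV1 p1
    obtain ⟨R', hR'⟩ : ∃ R' : List Bool → Set (List Bool), R' = fun x =>
      {z | ∃ y, (z = true :: y ∧ y.length ≤ p0.eval x.length ∧ V0 (pr x y) ≠ [true]) ∨
        (z = false :: y ∧ y.length ≤ p1.eval x.length ∧ V1 (pr x y) ≠ [true])} := ⟨_, rfl⟩
    have hmem : ∀ x z, z ∈ R' x ↔ ∃ y,
        (z = true :: y ∧ y.length ≤ p0.eval x.length ∧ V0 (pr x y) ≠ [true]) ∨
        (z = false :: y ∧ y.length ≤ p1.eval x.length ∧ V1 (pr x y) ≠ [true]) := by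
      intro x z
      rw [hR']
      rfl
    have hR'T : TFNPRel X R' := by
      refine ⟨⟨fun v => if ((sn v).isEmpty) = true then [false] else
        (if ((sn v).head?.getD false) = true then U0 v else U1 v),
        (PolyTimeRel.of_fp (FPb.isNil.comp FP.snI) X).iteb (PolyTimeRel.of_fp (FP.const _) X)
          ((PolyTimeRel.of_fp (FPb.hd.comp FP.snI) X).iteb hU0 hU1), p0 + p1 + 1,
          fun x z => ?_⟩, fun x => ?_⟩
      · rw [hmem]
        simp only [sn_pr, eval_add, eval_one]
        cases z with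
        | nil => simp
        | cons b y =>
          have e1 : (b :: y).isEmpty = false := rfl
          have e2 : (b :: y).head?.getD false = b := rfl
          rw [e1, e2, if_neg (by simp)]
          cases b with
          | true =>
            rw [if_pos rfl, hU0', List.length_cons]
            constructor
            · rintro ⟨y', ⟨h1, h2, h3⟩ | ⟨h1, -⟩⟩
              · obtain rfl : y = y' := by simpa using h1
                exact ⟨by omega, h2, h3⟩
              · simp at h1
            · rintro ⟨-, h2, h3⟩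
              exact ⟨y, Or.inl ⟨rfl, h2, h3⟩⟩
          | false =>
            rw [if_neg (by simp), hU1', List.length_cons]
            constructor
            · rintro ⟨y', ⟨h1, -⟩ | ⟨h1, h2, h3⟩⟩
              · simp at h1
              · obtain rfl : y = y' := by simpa using h1
                exact ⟨by omega, h2, h3⟩
            · rintro ⟨-, h2, h3⟩
              exact ⟨y, Or.inr ⟨rfl, h2, h3⟩⟩
      · by_cases hx : x ∈ C'
        · have hx' : x ∉ D' := fun h => Set.disjoint_left.1 hdis hx h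
          rw [hp1] at hx'
          push Not at hx'
          obtain ⟨y, h1, h2⟩ := hx'
          exact ⟨false :: y, (hmem _ _).2 ⟨y, Or.inr ⟨rfl, h1, h2⟩⟩⟩
        · rw [hp0] at hx
          push Not at hx
          obtain ⟨y, h1, h2⟩ := hx
          exact ⟨true :: y, (hmem _ _).2 ⟨y, Or.inl ⟨rfl, h1, h2⟩⟩⟩
    obtain ⟨r, s, hr, hs, hrs⟩ := hcomp R' hR'T
    obtain ⟨G, hGd⟩ : ∃ G : List Bool → List Bool, G = fun u =>
      if ((s u).head?.getD false) = true then [false] else [true] := ⟨_, rfl⟩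
    have hG : PolyTimeRel X G := by
      rw [hGd]
      exact hs.post (k := fun a => if (a.head?.getD false) = true then [false] else [true])
        (FP.ite FPb.hd (FP.const _) (FP.const _))
    obtain ⟨c, P0, hc⟩ := run_code hG
    obtain ⟨Pr, hPr⟩ := hr.length
    obtain ⟨k, hk, hk'⟩ := FP.clock (P0.comp (2 * Polynomial.X + 1 + p.comp Pr))
    have hβ : ∀ x, ∀ y ∈ R (r x), run X (pr c (pr (pr x y) (un (k x).length))) = G (pr x y) := by
      intro x y hy
      apply hc
      rw [un_length, hk']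
      simp only [eval_add, eval_mul, eval_ofNat, eval_one, eval_X, eval_comp]
      apply pmono
      rw [pr_length]
      have h1 := ((hVp _ _).1 hy).1
      have h2 := pmono p (hPr x)
      omega
    refine ⟨fun x => pr (r x) (pr c (pr x (un (k x).length))),
      hr.pair (PolyTimeRel.of_fp ((FP.const c).pair (FP.id.pair (FP.unL hk))) X), ?_, ?_⟩
    · intro x hx y hy
      simp only [fs_pr, sn_pr] at hy ⊢
      rw [hβ x y hy, hGd]
      obtain ⟨y', ⟨h1, h2, h3⟩ | ⟨h1, -⟩⟩ := (hmem _ _).1 (hrs x y hy)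
      · exact absurd ((hp0 x).1 hx y' h2) h3
      · simp [h1]
    · intro x hx y hy
      simp only [fs_pr, sn_pr] at hy ⊢
      rw [hβ x y hy, hGd]
      obtain ⟨y', ⟨h1, -⟩ | ⟨h1, h2, h3⟩⟩ := (hmem _ _).1 (hrs x y hy)
      · simp [h1]
      · exact absurd ((hp1 x).1 hx y' h2) h3

end Pool.Agent.Work.MP_0532f7_lc.TP
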