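import Mathlib
import Pool.Agent.Work.MP_0532f7_lc.SlUp
import Pool.Agent.Work.MP_0532f7_lc.TD.CDefs

/-!
# TP.All (size M): a bounded conjunction of relative polynomial-time tests

Let `g` be given by `Q`, `C`, `O` and let `β` be an FP word function (FP.clock, FP.length) with
`|C (pr x (un k))| ≤ |β x|` for all `k < |c x|` and `0 < |β x|`.  Write `B = |β x|`.  The machine for
the conjunction asks `|c x| * B` queries (`FP.mulU`).  After the answers `a` (so `|a| = B k + r`,
`k = |a| / B`, `r = |a| % B`) the next query is `Q (pr (pr x (un k)) (a.drop (B * k)))`.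

By induction on `r ≤ B`: `answers Q' X x (B * k + r) = answers Q' X x (B * k) ++ answers Q X (pr x (un k)) r`.
Hence (`answers_take`, `answers_length`) for `k < |c x|` the words
`((answers Q' X x (|c x| * B)).drop (B * k)).take |C (pr x (un k))|` and
`answers Q X (pr x (un k)) |C (pr x (un k))|` are equal.

The output tests for all `k < |c x|` whether `O (pr (pr x (un k)) (...)) = [true]`: the search
`lst` (`FP.lstI`, `lst_spec` in OSim) for the first `k` where it fails, compared with `|c x|`.

`k = |a| / B` is computed as the first `k` with `|a| < (k + 1) * B` (`FP.lstI` as in `divmod_fp` of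
TD/ExFP), `B * k` by `FP.mulU`, `a.drop (B * k)` by `FP.drop`.
-/

set_option autoImplicit false

namespace Pool.Agent.Work.MP_0532f7_lc.TP

open Polynomial Pool.Agent.Work.MP_0532f7_lc.TD

private theorem all_lst_eq {p : List Bool → Bool} {c : List Bool} {K r : ℕ} (hr : r < K)
    (h1 : p (pr c (un r)) = true) (h2 : ∀ i < r, p (pr c (un i)) = false) : lst p c K = r := by
  obtain ⟨a, b, d⟩ := lst_spec p c K
  rcases lt_trichotomy (lst p c K) r with h | h | h
  · have := d (by omega)
    rw [h2 _ h] at this
    exact absurd this (by simp)
  · exact h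
  · rw [b r h] at h1
    exact absurd h1 (by simp)

private theorem all_div_fp {f g : List Bool → List Bool} (hf : FP f) (hg : FP g)
    (h : ∀ x, 0 < (g x).length) : FP (fun x => un ((f x).length / (g x).length)) := by
  have hp : FPb (fun z => decide ((fs (fs z)).length < (un ((true :: sn z).length *
      (sn (fs z)).length)).length)) :=
    FPb.ltI FP.fsI.fst (FP.mulU ((FP.cons true).comp FP.snI) FP.fsI.snd)
  refine (FP.lstI hp (hf.pair hg) ((FP.cons true).comp hf)).congr (fun x => ?_)
  congr 1
  apply all_lst_eq
  · rw [List.length_cons]
    have := Nat.div_le_self (f x).length (g x).length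
    omega
  · simp only [fs_pr, sn_pr, un_length, List.length_cons, decide_eq_true_eq]
    exact (Nat.div_lt_iff_lt_mul (h x)).1 (Nat.lt_succ_self _)
  · intro i hi
    simp only [fs_pr, sn_pr, un_length, List.length_cons, decide_eq_false_iff_not, not_lt]
    exact (Nat.le_div_iff_mul_le (h x)).1 hi

theorem ptr_all {X : List Bool → Bool} {g : List Bool → List Bool} (hg : PolyTimeRel X g)
    {c : List Bool → List Bool} (hc : FP c) : ∃ b : List Bool → Bool,
      PolyTimeRel X (fun w => [b w]) ∧
      ∀ w, b w = true ↔ ∀ k < (c w).length, g (pr w (un k)) = [true] := by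
  obtain ⟨Q, C, O, hQ, hC, hO, h⟩ := hg
  obtain ⟨PC, hPC⟩ := hC.fp.length
  obtain ⟨κ, hκ, hκ'⟩ := FP.clock PC
  obtain ⟨β, hβF, hβ0, hβC⟩ : ∃ β : List Bool → List Bool, FP β ∧ (∀ x, 0 < (β x).length) ∧
      ∀ x k, k < (c x).length → (C (pr x (un k))).length ≤ (β x).length := by
    refine ⟨fun x => true :: κ (x ++ (x ++ (true :: c x))),
      (FP.cons true).comp (hκ.comp (FP.id.app (FP.id.app ((FP.cons true).comp hc)))),
      fun x => by simp, fun x k hk => ?_⟩
    rw [List.length_cons, hκ']
    refine (hPC _).trans (Nat.le_succ_of_le (pmono PC ?_))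
    rw [pr_length, un_length]
    simp only [List.length_append, List.length_cons]
    omega
  have hk : FP (fun v => un ((sn v).length / (β (fs v)).length)) :=
    all_div_fp FP.snI (hβF.comp FP.fsI) (fun v => hβ0 _)
  let Q' : List Bool → List Bool := fun v =>
    Q (pr (pr (fs v) (un ((sn v).length / (β (fs v)).length)))
      ((sn v).drop ((β (fs v)).length * ((sn v).length / (β (fs v)).length))))
  have hQ' : FP Q' := by
    refine (hQ.fp.comp ((FP.fsI.pair hk).pair
      (FP.drop (FP.mulU (hβF.comp FP.fsI) hk) FP.snI))).congr (fun v => ?_)
    simp only [un_length, Q']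
  let p : List Bool → Bool := fun z =>
    !(decide (O (pr (pr (fs (fs z)) (sn z))
      (((sn (fs z)).drop ((β (fs (fs z))).length * (sn z).length)).take
        (C (pr (fs (fs z)) (sn z))).length)) = [true]))
  have hxk : FP (fun z => pr (fs (fs z)) (sn z)) := FP.fsI.fst.pair FP.snI
  have hp : FPb p := by
    refine (FPb.eq (hO.fp.comp (hxk.pair (FP.take (hC.fp.comp hxk)
      (FP.drop (FP.mulU (hβF.comp FP.fsI.fst) FP.snI) FP.fsI.snd)))) (FP.const [true])).not.congr
      (fun z => ?_)
    simp only [un_length, p]
  let N : List Bool → ℕ := fun w => (c w).length * (β w).length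
  let b : List Bool → Bool := fun w =>
    decide (un (lst p (pr w (answers Q' X w (N w))) (c w).length) = un (c w).length)
  -- the answers in the blocks
  have hblock : ∀ w k, ∀ r ≤ (β w).length, answers Q' X w ((β w).length * k + r) =
      answers Q' X w ((β w).length * k) ++ answers Q X (pr w (un k)) r := by
    intro w k r
    induction r with
    | zero =>
      intro _
      show answers Q' X w ((β w).length * k) = _ ++ []
      rw [List.append_nil]
    | succ r ih =>
      intro hr
      have ih' := ih (by omega)
      show answers Q' X w ((β w).length * k + r) ++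
        [X (Q' (pr w (answers Q' X w ((β w).length * k + r))))] =
        answers Q' X w ((β w).length * k) ++ (answers Q X (pr w (un k)) r ++
          [X (Q (pr (pr w (un k)) (answers Q X (pr w (un k)) r)))])
      have hlen : (answers Q' X w ((β w).length * k + r)).length = (β w).length * k + r :=
        answers_length _ _ _ _
      have hdiv : ((β w).length * k + r) / (β w).length = k := by
        rw [Nat.mul_add_div (hβ0 w), Nat.div_eq_of_lt (by omega), Nat.add_zero]
      have hq : Q' (pr w (answers Q' X w ((β w).length * k + r))) =
          Q (pr (pr w (un k)) (answers Q X (pr w (un k)) r)) := by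
        simp only [Q', fs_pr, sn_pr]
        rw [hlen, hdiv, ih', List.drop_left' (answers_length _ _ _ _)]
      rw [hq, ih', List.append_assoc]
  refine ⟨b, ⟨Q', fun w => un (N w), fun v =>
    [decide (un (lst p v (c (fs v)).length) = un (c (fs v)).length)], hQ'.polyTime,
    (FP.mulU hc hβF).polyTime, ?_, fun w => ?_⟩, fun w => ?_⟩
  · exact (FPb.eq (FP.lstI hp FP.id (hc.comp FP.fsI)) (FP.unL (hc.comp FP.fsI))).polyTime
  · simp only [b, fs_pr, un_length]
  · obtain ⟨l1, l2, l3⟩ := lst_spec p (pr w (answers Q' X w (N w))) (c w).length
    have hpk : ∀ k < (c w).length, (p (pr (pr w (answers Q' X w (N w))) (un k)) = false ↔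
        g (pr w (un k)) = [true]) := by
      intro k hk'
      have hbk := hβC w k hk'
      have e : ((answers Q' X w (N w)).drop ((β w).length * k)).take
          (C (pr w (un k))).length = answers Q X (pr w (un k)) (C (pr w (un k))).length := by
        have hN : (β w).length * k + (C (pr w (un k))).length ≤ N w := by
          show _ ≤ (c w).length * (β w).length
          calc (β w).length * k + (C (pr w (un k))).length
              ≤ (β w).length * k + (β w).length := Nat.add_le_add_left hbk _
            _ = (k + 1) * (β w).length := by ring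
            _ ≤ (c w).length * (β w).length := Nat.mul_le_mul_right _ hk'
        rw [List.take_drop, answers_take _ _ _ _ _ hN, hblock w k _ hbk,
          List.drop_left' (answers_length _ _ _ _)]
      simp only [p, fs_pr, sn_pr, un_length, Bool.not_eq_false', decide_eq_true_eq]
      rw [e, ← h]
    simp only [b, decide_eq_true_eq, un_eq_iff]
    constructor
    · intro he k hk'
      exact (hpk k hk').1 (l2 k (by omega))
    · intro hall
      by_contra hne
      have hlt : lst p (pr w (answers Q' X w (N w))) (c w).length < (c w).length := by omega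
      have h1 := l3 hlt
      have h2 := (hpk _ hlt).2 (hall _ hlt)
      rw [h2] at h1
      exact absurd h1 (by simp)

end Pool.Agent.Work.MP_0532f7_lc.TP
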