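import Mathlib
import Pool.Agent.Work.MP_0532f7_lc.TP.Defs
import Pool.Agent.Work.MP_0532f7_lc.TD.Reader

/-!
# The parameters of the construction (definitions, FIXED)

`X` is an oracle, `ZT A T` is `A ⊕ 1^T` (TD.CDefs), `bb k n = (n + 1) ^ k + k`, `run X (pr c (pr x t))` is
the universal computation of the program `c` on `x` with the clock `t` (SpRun).

A CANDIDATE is a number `v = Nat.pair c (Nat.pair e k)`: `kd v = c` is its kind, `pe v = e` its program,
the clock on inputs of length `n` is `bb v n`, the number `k` is not used (it only makes `v` large).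

* kind 0: a proof system for OTAUT; `cr X v x` is the formula proved by `x`.
* kind 1: a set in NP ∩ coNP: `x` is in the set iff `wit X v false x` iff not `wit X v true x`.
* kind 2: a total NP-relation: `wit X v false x` or `wit X v true x`.

`Bad X v x`: the candidate `v` violates its condition at `x`.  `UT A P v s τ`: this happens at some
`x` such that the computations only depend on the bits of `τ` below `s`.

`ext V p` is the NP-set of all `pr φ s` such that some witness `u` of `φ` begins with `s`.  Records are
words `z`; true records are the words `z` with exactly one of `fs z`, `sn z` in `L1 = ext V p`.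

`κ = Nat.pair k (Nat.pair v j)` (with `v`, `j ≤ κ`) is the exponent of a task: `cv κ = v` is the
candidate and `cj κ = j` the reduction attacked by the task.  `HT` is 'the record `z` is easy': a short
proof of `tf z` (kind 0), or the answer of `v` at the `j`-th reduction is correct (kinds 1, 2).
-/

set_option autoImplicit false

namespace Pool.Agent.Work.MP_0532f7_lc.TP

open Pool.Agent.Work.MP_0532f7_lc.TD

/-- kind of a candidate -/
def kd (v : ℕ) : ℕ := (Nat.unpair v).1

/-- program of a candidate -/
def pe (v : ℕ) : ℕ := (Nat.unpair (Nat.unpair v).2).1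

/-- bound for the lengths of the contexts of the computations at an input of length `n` -/
def LB (v n : ℕ) : ℕ := 2 * v + 4 * n + 3 * bb v n + 6

/-- result of a candidate of kind 0 -/
def cr (X : List Bool → Bool) (v : ℕ) (x : List Bool) : List Bool :=
  run X (pr (num (pe v)) (pr x (un (bb v x.length))))

/-- `y` is a witness for the answer `b` of the candidate `v` at `x` -/
def witr (X : List Bool → Bool) (v : ℕ) (b : Bool) (x y : List Bool) : Prop :=
  y.length ≤ bb v x.length ∧
    run X (pr (num (pe v)) (pr (pr x (b :: y)) (un (bb v x.length)))) = [true]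

/-- the candidate `v` gives the answer `b` at `x` -/
def wit (X : List Bool → Bool) (v : ℕ) (b : Bool) (x : List Bool) : Prop := ∃ y, witr X v b x y

/-- the candidate `v` violates its condition at `x` -/
def Bad (X : List Bool → Bool) (v : ℕ) (x : List Bool) : Prop :=
  (kd v = 0 ∧ cr X v x ∉ OTAUT X) ∨ (kd v = 1 ∧ (wit X v false x ↔ wit X v true x)) ∨
    (kd v = 2 ∧ ¬ wit X v false x ∧ ¬ wit X v true x)

/-- a violation decided by the bits below `s` -/
def UT (A : List Bool → Bool) (P : Polynomial ℕ) (v s : ℕ) (τ : ℕ → Bool) : Prop :=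
  ∃ x : List Bool, P.eval (LB v x.length) < s ∧ Bad (ZT A τ) v x

/-- the end of the region -/
def MT (P : Polynomial ℕ) (m κ n : ℕ) : ℕ :=
  P.eval (LB m (bb κ n) + (2 * κ + 6 * n + 3 * bb κ n + 6)) + (4 * m + 2 * n + 6) ^ 2 + 1

/-- the pairs `pr φ s` such that a witness of `φ` extends `s` -/
def ext (V : List Bool → List Bool) (p : Polynomial ℕ) : Set (List Bool) :=
  {w | ∃ u : List Bool, u.length ≤ p.eval (fs w).length ∧ sn w <+: u ∧ V (pr (fs w) u) = [true]}

/-- the words with a witness -/
def dom (V : List Bool → List Bool) (p : Polynomial ℕ) : Set (List Bool) :=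
  {w | ∃ u : List Bool, u.length ≤ p.eval w.length ∧ V (pr w u) = [true]}

/-- true records: exactly one of `fs z`, `sn z` is in `L1` -/
def XL (L1 : Set (List Bool)) : Set (List Bool) := {z | ¬ (fs z ∈ L1 ↔ sn z ∈ L1)}

/-- the input that points to the record `z` in the column `n` -/
def inpR (n : ℕ) (z : List Bool) : List Bool := pr (un n) (un z.length)

/-- the value of the reduction number `j` at the record `z` in the column `n` -/
def rdx (A : List Bool → Bool) (τ : ℕ → Bool) (j κ n : ℕ) (z : List Bool) : List Bool :=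
  (run (ZT A τ) (pr (num j) (pr (inpR n z) (un (bb κ n))))).take (bb κ n)

/-- the candidate attacked by a task with the exponent `κ` -/
def cv (κ : ℕ) : ℕ := (Nat.unpair (Nat.unpair κ).2).1

/-- the reduction attacked by a task with the exponent `κ` -/
def cj (κ : ℕ) : ℕ := (Nat.unpair (Nat.unpair κ).2).2

/-- the record `z` is easy for the attacked candidate and reduction -/
def HT (A : List Bool → Bool) (tf : List Bool → List Bool) (L1 : Set (List Bool)) (m κ n : ℕ)
    (L : Finset ℕ) (τ : ℕ → Bool) (z : List Bool) : Prop :=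
  cv κ ∈ L ∧ cv κ ≤ m ∧ z.length ≤ n ∧
    ((kd (cv κ) = 0 ∧ ∃ x : List Bool, x.length ≤ bb κ n ∧ cr (ZT A τ) (cv κ) x = tf z) ∨
     ((kd (cv κ) = 1 ∨ kd (cv κ) = 2) ∧ ∀ b : Bool,
        wit (ZT A τ) (cv κ) b (rdx A τ (cj κ) κ n z) → (if b then sn z else fs z) ∈ L1))

/-- the final oracle has hard records (case `y ∉ S`) -/
def HRec (A : List Bool → Bool) (P : Polynomial ℕ) (tf : List Bool → List Bool)
    (L1 : Set (List Bool)) (T : ℕ → Bool) : Prop :=
  ∀ i, ∃ m ≥ i, ∀ v j, (∀ s, ¬ UT A P v s T) → ∀ B, ∃ κ ≥ B, cv κ = v ∧ cj κ = j ∧ ∃ n ≥ B,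
    ∃ (L : Finset ℕ) (z : List Bool), z.length ≤ n ∧ v ∈ L ∧ z ∈ XL L1 ∧ Read T m n z.length ∧
      word T m n z.length = z ∧ ¬ HT A tf L1 m κ n L T z

/-- the records of every slot are finally true (case `y ∉ S`) -/
def VRec (L1 : Set (List Bool)) (T : ℕ → Bool) : Prop :=
  ∀ m, ∃ s0, ∀ n ≥ s0, ∀ R, Read T m n R → word T m n R ∈ XL L1

/-- the permission bits of the level `a` are correct and frequent from `s0` on (case `y ∈ S`) -/
structure Perm (A : List Bool → Bool) (P : Polynomial ℕ) (T : ℕ → Bool) (a s0 : ℕ) : Prop where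
  snd : ∀ v s, s0 ≤ s → T (Nat.pair (rowP a v) s) = true → ¬ UT A P v s T
  pol : ∀ v, (∀ s, ¬ UT A P v s T) → ∃ q : Polynomial ℕ, ∀ n, ∃ s, n ≤ s ∧ s ≤ q.eval n ∧
    T (Nat.pair (rowP a v) s) = true

/-- the test for permissions; `w = pr (un v) (pr x pad)` -/
def okb (P : Polynomial ℕ) (T : ℕ → Bool) (a s0 : ℕ) (w : List Bool) : Bool :=
  decide (bb (fs w).length (fs (sn w)).length < (sn (sn w)).length) &&
    (List.range (sn (sn w)).length).any (fun s =>
      decide (s0 + P.eval (LB (fs w).length (fs (sn w)).length) < s) &&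
        T (Nat.pair (rowP a (fs w).length) s))

/-- the input `w = pr (un n) (un R)` points to a record of the slot `m` in the column `n ≥ s0` -/
def rok (T : ℕ → Bool) (m s0 : ℕ) (w : List Bool) : Bool :=
  !decide ((fs w).length < s0) && rdc T m (fs w).length (sn w).length

/-- the record to which `w` points -/
def wd (T : ℕ → Bool) (m : ℕ) (w : List Bool) : List Bool :=
  word T m (fs w).length (sn w).length

/-- the value depends on finitely many bits -/
def FU {α : Type} (f : (ℕ → Bool) → α) : Prop :=
  ∃ N, ∀ T T' : ℕ → Bool, (∀ i < N, T' i = T i) → f T' = f T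

end Pool.Agent.Work.MP_0532f7_lc.TP
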