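import Mathlib
import Pool.Agent.Work.MP_0532f7_lc.SlUp
import Pool.Agent.Work.MP_0532f7_lc.TD.Pos
import Pool.Agent.Work.MP_0532f7_lc.TP.All
import Pool.Agent.Work.MP_0532f7_lc.TP.CDefs

/-!
# TP.Clo (size M): closure properties of NP and coNP relative to an oracle

`NPRel.compl`, `CoNPRel.compl` (TD/Pos) turn every statement about NP into one about coNP.

* `joinT`: `PolyTimeRel.join` (OMain3), same `p`.
* `preR`: `g` is computed with `|g w| ≤ Pg (|w|)` (`PolyTimeRel.length`).  New verifier: on `pr w y` test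
  `|y| ≤ p (|g w|)` (`FP.clock p` composed with `g` by `PolyTimeRel.post`, `FPb.ltI`) and
  `V (pr (g w) y) = [true]`; new bound `p.comp Pg` (`pmono`).
* `andB`, `orB`: verifier by `PolyTimeRel.iteb`.
* `and2`: witness `pr y y'`, tests of both lengths; `or2`: witness `b :: y`.
* `exU`: witness `pr s y`.
* `allU`: witness `encL [y_0, ..., y_(l-1)]`, `l = |c w|`; the test at `k` is
  `|nth (un k) ys| ≤ p (|pr w (un k)|)` and `V (pr (pr w (un k)) (nth (un k) ys)) = [true]` (`nth_encL`,
  `FP.nthI` in Lib); use `ptr_all` for the words `pr w ys` with `c (fs ·)`.  Length bound: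
  `|encL ys| = Σ (2 |y_k| + 1) ≤ l * (2 p (2 |w| + 1 + l) + 1)`; `encL` of a list is longer if an entry is
  longer, so also use `Census2.encL_length_le` for the bound.
-/

set_option autoImplicit false

namespace Pool.Agent.Work.MP_0532f7_lc.TP

open Polynomial Pool.Agent.Work.MP_0532f7_lc.TD

variable {X : List Bool → Bool} {N N' : Set (List Bool)}

/-! ### tests computed relative to an oracle -/

private theorem pb_of {c : List Bool → Bool} (h : FPb c) (X : List Bool → Bool) :
    PolyTimeRel X (fun w => [c w]) := PolyTimeRel.of_fp h X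

private theorem pb_and {c d : List Bool → Bool} (hc : PolyTimeRel X (fun w => [c w]))
    (hd : PolyTimeRel X (fun w => [d w])) : PolyTimeRel X (fun w => [c w && d w]) := by
  have h := (hc.pair hd).post (k := fun v => [(fs v).head?.getD false && (sn v).head?.getD false])
    ((FPb.hd.comp FP.fsI).and (FPb.hd.comp FP.snI))
  simpa only [fs_pr, sn_pr, List.head?_cons, Option.getD_some] using h

private theorem pb_or {c d : List Bool → Bool} (hc : PolyTimeRel X (fun w => [c w]))
    (hd : PolyTimeRel X (fun w => [d w])) : PolyTimeRel X (fun w => [c w || d w]) := by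
  have h := (hc.pair hd).post (k := fun v => [(fs v).head?.getD false || (sn v).head?.getD false])
    ((FPb.hd.comp FP.fsI).or (FPb.hd.comp FP.snI))
  simpa only [fs_pr, sn_pr, List.head?_cons, Option.getD_some] using h

private theorem pb_not {c : List Bool → Bool} (hc : PolyTimeRel X (fun w => [c w])) :
    PolyTimeRel X (fun w => [!c w]) := by
  have h := hc.post (k := fun v => [!(v.head?.getD false)]) FPb.hd.not
  simpa only [List.head?_cons, Option.getD_some] using h

private theorem pb_isT {V : List Bool → List Bool} (hV : PolyTimeRel X V) :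
    PolyTimeRel X (fun w => [decide (V w = [true])]) :=
  hV.post (k := fun v => [decide (v = [true])]) (FPb.eq FP.id (FP.const _))

private theorem pb_le (p : Polynomial ℕ) {f g : List Bool → List Bool} (hf : PolyTimeRel X f)
    (hg : PolyTimeRel X g) :
    PolyTimeRel X (fun w => [decide ((f w).length ≤ p.eval (g w).length)]) := by
  obtain ⟨k, hk, hk'⟩ := FP.clock p
  have h := (hf.pair hg).post (k := fun v => [!decide ((k (sn v)).length < (fs v).length)])
    (FPb.ltI (hk.comp FP.snI) FP.fsI).not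
  simp only [fs_pr, sn_pr, hk'] at h
  have e : (fun w => [decide ((f w).length ≤ p.eval (g w).length)]) =
      fun w => [!decide (p.eval (g w).length < (f w).length)] := by
    funext w
    rw [← decide_not]
    congr 2
    exact propext not_lt.symm
  rw [e]
  exact h

private theorem np_mk {c : List Bool → Bool} (hc : PolyTimeRel X (fun w => [c w]))
    (p : Polynomial ℕ)
    (h : ∀ z, z ∈ N ↔ ∃ y : List Bool, y.length ≤ p.eval z.length ∧ c (pr z y) = true) :
    NPRel X N := by
  refine ⟨fun w => [c w], hc, p, fun z => ?_⟩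
  rw [h z]
  refine exists_congr fun y => and_congr_right fun _ => ?_
  simp

private theorem np_dest (h : NPRel X N) : ∃ (c : List Bool → Bool) (p : Polynomial ℕ),
    PolyTimeRel X (fun w => [c w]) ∧
      ∀ z, z ∈ N ↔ ∃ y : List Bool, y.length ≤ p.eval z.length ∧ c (pr z y) = true := by
  obtain ⟨V, hV, p, h⟩ := h
  refine ⟨fun w => decide (V w = [true]), p, pb_isT hV, fun z => ?_⟩
  rw [h z]
  refine exists_congr fun y => and_congr_right fun _ => ?_
  simp

private theorem ptr_fp {g : List Bool → List Bool} (hg : FP g) : PolyTimeRel X g :=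
  PolyTimeRel.of_fp hg X

private theorem co_iff (h : NPRel X Nᶜ) : CoNPRel X N := by
  have := NPRel.compl h
  rwa [compl_compl] at this

theorem np_join (h : NPRel X N) (R : List Bool → Bool) : NPRel (ojoin X R) N := by
  obtain ⟨V, hV, p, h⟩ := h
  exact ⟨V, hV.join R, p, h⟩

theorem np_pre (h : NPRel X N) {g : List Bool → List Bool} (hg : PolyTimeRel X g) :
    NPRel X {w | g w ∈ N} := by
  obtain ⟨c, p, hc, hN⟩ := np_dest h
  obtain ⟨Pg, hPg⟩ := hg.length
  have hgf : PolyTimeRel X (fun v => g (fs v)) := hg.pre FP.fsI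
  have hs : PolyTimeRel X sn := ptr_fp FP.snI
  refine np_mk (c := fun v => decide ((sn v).length ≤ p.eval (g (fs v)).length) &&
    c (pr (g (fs v)) (sn v))) (pb_and (pb_le p hs hgf)
      (PolyTimeRel.comp (f := fun w => [c w]) hc (hgf.pair hs))) (p.comp Pg) (fun z => ?_)
  simp only [fs_pr, sn_pr, Bool.and_eq_true, decide_eq_true_eq]
  rw [Set.mem_ofPred_eq, hN]
  constructor
  · rintro ⟨y, h1, h2⟩
    refine ⟨y, h1.trans ?_, h1, h2⟩
    rw [eval_comp]
    exact pmono _ (hPg z)
  · rintro ⟨y, -, h1, h2⟩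
    exact ⟨y, h1, h2⟩

theorem np_andB (h : NPRel X N) {c : List Bool → Bool} (hc : PolyTimeRel X (fun w => [c w])) :
    NPRel X {w | c w = true ∧ w ∈ N} := by
  obtain ⟨d, p, hd, hN⟩ := np_dest h
  refine np_mk (c := fun v => c (fs v) && d v) (pb_and (hc.pre FP.fsI) hd) p (fun z => ?_)
  simp only [fs_pr, Bool.and_eq_true]
  rw [Set.mem_ofPred_eq, hN]
  constructor
  · rintro ⟨h0, y, h1, h2⟩
    exact ⟨y, h1, h0, h2⟩
  · rintro ⟨y, h1, h0, h2⟩
    exact ⟨h0, y, h1, h2⟩

theorem np_orB (h : NPRel X N) {c : List Bool → Bool} (hc : PolyTimeRel X (fun w => [c w])) :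
    NPRel X {w | c w = true ∨ w ∈ N} := by
  obtain ⟨d, p, hd, hN⟩ := np_dest h
  refine np_mk (c := fun v => c (fs v) || d v) (pb_or (hc.pre FP.fsI) hd) p (fun z => ?_)
  simp only [fs_pr, Bool.or_eq_true]
  rw [Set.mem_ofPred_eq, hN]
  constructor
  · rintro (h0 | ⟨y, h1, h2⟩)
    · exact ⟨[], by simp, Or.inl h0⟩
    · exact ⟨y, h1, Or.inr h2⟩
  · rintro ⟨y, h1, h0 | h2⟩
    · exact Or.inl h0
    · exact Or.inr ⟨y, h1, h2⟩

theorem np_and (h : NPRel X N) (h' : NPRel X N') : NPRel X (N ∩ N') := by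
  obtain ⟨c, p, hc, hN⟩ := np_dest h
  obtain ⟨d, q, hd, hN'⟩ := np_dest h'
  have h0 : PolyTimeRel X fs := ptr_fp FP.fsI
  have h1 : PolyTimeRel X (fun v => fs (sn v)) := ptr_fp FP.snI.fst
  have h2 : PolyTimeRel X (fun v => sn (sn v)) := ptr_fp FP.snI.snd
  refine np_mk (c := fun v => (decide ((fs (sn v)).length ≤ p.eval (fs v).length) &&
    decide ((sn (sn v)).length ≤ q.eval (fs v).length)) &&
    (c (pr (fs v) (fs (sn v))) && d (pr (fs v) (sn (sn v)))))
    (pb_and (pb_and (pb_le p h1 h0) (pb_le q h2 h0))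
      (pb_and (PolyTimeRel.comp (f := fun w => [c w]) hc (h0.pair h1))
        (PolyTimeRel.comp (f := fun w => [d w]) hd (h0.pair h2)))) (2 * p + 1 + q) (fun z => ?_)
  simp only [fs_pr, sn_pr, Bool.and_eq_true, decide_eq_true_eq]
  rw [Set.mem_inter_iff, hN, hN']
  constructor
  · rintro ⟨⟨y, h1, h2⟩, y', h1', h2'⟩
    refine ⟨pr y y', ?_, ?_⟩
    · rw [pr_length]
      simp only [eval_add, eval_mul, eval_ofNat, eval_one]
      omega
    · rw [fs_pr, sn_pr]
      exact ⟨⟨h1, h1'⟩, h2, h2'⟩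
  · rintro ⟨u, -, ⟨h1, h1'⟩, h2, h2'⟩
    exact ⟨⟨_, h1, h2⟩, _, h1', h2'⟩

theorem np_or (h : NPRel X N) (h' : NPRel X N') : NPRel X (N ∪ N') := by
  obtain ⟨c, p, hc, hN⟩ := np_dest h
  obtain ⟨d, q, hd, hN'⟩ := np_dest h'
  have h0 : PolyTimeRel X fs := ptr_fp FP.fsI
  have h1 : PolyTimeRel X (fun v => (sn v).tail) := ptr_fp (FP.tail.comp FP.snI)
  refine np_mk (c := fun v => (!((sn v).head?.getD false) &&
      (decide ((sn v).tail.length ≤ p.eval (fs v).length) && c (pr (fs v) (sn v).tail))) ||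
    ((sn v).head?.getD false &&
      (decide ((sn v).tail.length ≤ q.eval (fs v).length) && d (pr (fs v) (sn v).tail))))
    (pb_or (pb_and (pb_not (pb_of (FPb.hd.comp FP.snI) X)) (pb_and (pb_le p h1 h0)
      (PolyTimeRel.comp (f := fun w => [c w]) hc (h0.pair h1))))
      (pb_and (pb_of (FPb.hd.comp FP.snI) X) (pb_and (pb_le q h1 h0)
      (PolyTimeRel.comp (f := fun w => [d w]) hd (h0.pair h1))))) (p + q + 1) (fun z => ?_)
  simp only [fs_pr, sn_pr, Bool.and_eq_true, Bool.or_eq_true, decide_eq_true_eq,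
    Bool.not_eq_true']
  rw [Set.mem_union, hN, hN']
  constructor
  · rintro (⟨y, h1, h2⟩ | ⟨y, h1, h2⟩)
    · refine ⟨false :: y, ?_, Or.inl ⟨rfl, h1, h2⟩⟩
      rw [List.length_cons]
      simp only [eval_add, eval_one]
      omega
    · refine ⟨true :: y, ?_, Or.inr ⟨rfl, h1, h2⟩⟩
      rw [List.length_cons]
      simp only [eval_add, eval_one]
      omega
  · rintro ⟨u, -, ⟨-, h1, h2⟩ | ⟨-, h1, h2⟩⟩
    · exact Or.inl ⟨_, h1, h2⟩
    · exact Or.inr ⟨_, h1, h2⟩

theorem np_ex (h : NPRel X N) (q : Polynomial ℕ) :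
    NPRel X {w | ∃ s : List Bool, s.length ≤ q.eval w.length ∧ pr w s ∈ N} := by
  obtain ⟨c, p, hc, hN⟩ := np_dest h
  have h0 : PolyTimeRel X fs := ptr_fp FP.fsI
  have h1 : PolyTimeRel X (fun v => fs (sn v)) := ptr_fp FP.snI.fst
  have h2 : PolyTimeRel X (fun v => sn (sn v)) := ptr_fp FP.snI.snd
  refine np_mk (c := fun v => (decide ((fs (sn v)).length ≤ q.eval (fs v).length) &&
    decide ((sn (sn v)).length ≤ p.eval (pr (fs v) (fs (sn v))).length)) &&
    c (pr (pr (fs v) (fs (sn v))) (sn (sn v))))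
    (pb_and (pb_and (pb_le q h1 h0) (pb_le p h2 (h0.pair h1)))
      (PolyTimeRel.comp (f := fun w => [c w]) hc ((h0.pair h1).pair h2)))
    (2 * q + 1 + p.comp (2 * Polynomial.X + 1 + q)) (fun z => ?_)
  simp only [fs_pr, sn_pr, Bool.and_eq_true, decide_eq_true_eq]
  rw [Set.mem_ofPred_eq]
  constructor
  · rintro ⟨s, h1, h2⟩
    obtain ⟨y, h3, h4⟩ := (hN _).1 h2
    refine ⟨pr s y, ?_, ?_⟩
    · have h5 : p.eval (pr z s).length ≤ p.eval (2 * z.length + 1 + q.eval z.length) := by
        apply pmono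
        rw [pr_length]
        omega
      rw [pr_length]
      simp only [eval_add, eval_mul, eval_ofNat, eval_one, eval_comp, eval_X]
      omega
    · rw [fs_pr, sn_pr]
      exact ⟨⟨h1, h3⟩, h4⟩
  · rintro ⟨u, -, ⟨h1, h2⟩, h3⟩
    exact ⟨_, h1, (hN _).2 ⟨_, h2, h3⟩⟩

theorem np_all (h : NPRel X N) {c : List Bool → List Bool} (hc : FP c) :
    NPRel X {w | ∀ k < (c w).length, pr w (un k) ∈ N} := by
  obtain ⟨d, p, hd, hN⟩ := np_dest h
  obtain ⟨Pc, hPc⟩ := hc.length
  -- `v = pr (pr w u) (un k)`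
  have h0 : PolyTimeRel X (fun v => pr (fs (fs v)) (sn v)) := ptr_fp (FP.fsI.fst.pair FP.snI)
  have h1 : PolyTimeRel X (fun v => nth (sn v) (sn (fs v))) :=
    ptr_fp (FP.nthI FP.snI FP.fsI.snd)
  have hg : PolyTimeRel X (fun v => [decide ((nth (sn v) (sn (fs v))).length ≤
      p.eval (pr (fs (fs v)) (sn v)).length) &&
      d (pr (pr (fs (fs v)) (sn v)) (nth (sn v) (sn (fs v))))]) :=
    pb_and (pb_le p h1 h0) (PolyTimeRel.comp (f := fun w => [d w]) hd (h0.pair h1))
  obtain ⟨b, hb, hb'⟩ := ptr_all hg (c := fun v => c (fs v)) (hc.comp FP.fsI)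
  refine np_mk (c := b) hb (Pc * (2 * p.comp (2 * Polynomial.X + 1 + Pc) + 1)) (fun z => ?_)
  rw [Set.mem_ofPred_eq]
  constructor
  · intro h2
    choose! y hy1 hy2 using fun k (hk : k < (c z).length) => (hN _).1 (h2 k hk)
    refine ⟨encL ((List.range (c z).length).map y), ?_, ?_⟩
    · refine (encL_length_le (B := p.eval (2 * z.length + 1 + Pc.eval z.length)) _
        (fun x hx => ?_)).trans ?_
      · rw [List.mem_map] at hx
        obtain ⟨k, hk, rfl⟩ := hx
        rw [List.mem_range] at hk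
        refine (hy1 k hk).trans (pmono _ ?_)
        rw [pr_length, un_length]
        have := hPc z
        omega
      · rw [List.length_map, List.length_range]
        simp only [eval_add, eval_mul, eval_ofNat, eval_one, eval_comp, eval_X]
        exact Nat.mul_le_mul_right _ (hPc z)
    · rw [hb']
      intro k hk
      rw [fs_pr] at hk
      simp only [fs_pr, sn_pr, nth_encL, un_length]
      have e : ((List.range (c z).length).map y).getD k [] = y k := by
        rw [List.getD_eq_getElem?_getD, List.getElem?_map, List.getElem?_range hk]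
        rfl
      rw [e, decide_eq_true (hy1 k hk), hy2 k hk]
      rfl
  · rintro ⟨u, -, h2⟩ k hk
    rw [hb'] at h2
    have h3 := h2 k (by rw [fs_pr]; exact hk)
    simp only [fs_pr, sn_pr, List.cons.injEq, and_true, Bool.and_eq_true, decide_eq_true_eq] at h3
    exact (hN _).2 ⟨_, h3.1, h3.2⟩

theorem co_join (h : CoNPRel X N) (R : List Bool → Bool) : CoNPRel (ojoin X R) N :=
  co_iff (np_join (CoNPRel.compl h) R)

theorem co_pre (h : CoNPRel X N) {g : List Bool → List Bool} (hg : PolyTimeRel X g) :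
    CoNPRel X {w | g w ∈ N} :=
  co_iff (np_pre (CoNPRel.compl h) hg)

theorem co_andB (h : CoNPRel X N) {c : List Bool → Bool} (hc : PolyTimeRel X (fun w => [c w])) :
    CoNPRel X {w | c w = true ∧ w ∈ N} := by
  apply co_iff
  have h1 := np_orB (CoNPRel.compl h) (pb_not hc)
  have e : {w | c w = true ∧ w ∈ N}ᶜ = {w | (!c w) = true ∨ w ∈ Nᶜ} := by
    ext w
    simp only [Set.mem_compl_iff, Set.mem_ofPred_eq, Bool.not_eq_true']
    cases c w <;> simp
  rw [e]
  exact h1

theorem co_orB (h : CoNPRel X N) {c : List Bool → Bool} (hc : PolyTimeRel X (fun w => [c w])) :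
    CoNPRel X {w | c w = true ∨ w ∈ N} := by
  apply co_iff
  have h1 := np_andB (CoNPRel.compl h) (pb_not hc)
  have e : {w | c w = true ∨ w ∈ N}ᶜ = {w | (!c w) = true ∧ w ∈ Nᶜ} := by
    ext w
    simp only [Set.mem_compl_iff, Set.mem_ofPred_eq, Bool.not_eq_true']
    cases c w <;> simp
  rw [e]
  exact h1

/-- `dom V p` is in NP, with the verifier that checks the length -/
theorem dom_np {V : List Bool → List Bool} (hV : PolyTimeRel X V) (p : Polynomial ℕ) :
    NPRel X (dom V p) ∧ NPRel X (ext V p) := by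
  refine ⟨⟨V, hV, p, fun z => Iff.rfl⟩, ?_⟩
  have h0 : PolyTimeRel X (fun v => fs (fs v)) := ptr_fp FP.fsI.fst
  have h1 : PolyTimeRel X sn := ptr_fp FP.snI
  refine np_mk (c := fun v => (decide ((sn v).length ≤ p.eval (fs (fs v)).length) &&
    decide (sn (fs v) = (sn v).take (sn (fs v)).length)) &&
    decide (V (pr (fs (fs v)) (sn v)) = [true]))
    (pb_and (pb_and (pb_le p h1 h0) (pb_of (FPb.eq FP.fsI.snd (FP.take FP.fsI.snd FP.snI)) X))
      (pb_isT (PolyTimeRel.comp hV (h0.pair h1)))) p (fun z => ?_)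
  simp only [fs_pr, sn_pr, Bool.and_eq_true, decide_eq_true_eq]
  constructor
  · rintro ⟨u, h2, h3, h4⟩
    exact ⟨u, h2.trans (pmono _ (fs_length z)), ⟨h2, List.prefix_iff_eq_take.1 h3⟩, h4⟩
  · rintro ⟨u, -, ⟨h2, h3⟩, h4⟩
    exact ⟨u, h2, List.prefix_iff_eq_take.2 h3, h4⟩

end Pool.Agent.Work.MP_0532f7_lc.TP
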