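import Mathlib
import Pool.Agent.Work.MP_0532f7_lc.TP.Clo

/-!
# TP.ObjR (size S-M): reading records

`rok`, `wd` in TP/CDefs.  Copy from `rd1_ptr`, `rdr_inpW` (TD/Reader): the tables `t1`, `t2`, `t3` by `tab_ptr`.
-/

set_option autoImplicit false

namespace Pool.Agent.Work.MP_0532f7_lc.TP

open Polynomial Pool.Agent.Work.MP_0532f7_lc.TD

theorem rok_ptr (A : List Bool → Bool) (T : ℕ → Bool) (m s0 : ℕ) :
    PolyTimeRel (ZT A T) (fun w => [rok T m s0 w]) := by
  have hq : ∀ c, FP (fun v => un (Nat.pair c ((fs (fs v)).length + (sn v).length))) := by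
    intro c
    refine (FP.pairU (FP.const (un c)) (FP.fsI.fst.app FP.snI)).congr (fun v => ?_)
    rw [un_length, List.length_append]
  have t2 := tab_ptr A T (q := fun z j => Nat.pair (4 * m + 2) ((fs z).length + j)) (hq _)
    ((FP.cons true).comp FP.snI)
  have t3 := tab_ptr A T (q := fun z j => Nat.pair (4 * m + 3) ((fs z).length + j)) (hq _)
    ((FP.cons true).comp FP.snI)
  have h := ((PolyTimeRel.of_fp FP.id (ZT A T)).pair (t2.pair t3)).post
    (k := fun v => [!decide ((fs (fs v)).length < s0) && (decide (fs (sn v) =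
      true :: zer (sn (fs v))) && decide (sn (sn v) = zer (sn (fs v)) ++ [true]))])
    ((ltU_fp FP.fsI.fst s0).not.and ((FPb.eq FP.snI.fst ((FP.cons true).comp
      (FP.zerI FP.fsI.snd))).and (FPb.eq FP.snI.snd ((FP.zerI FP.fsI.snd).app
        (FP.const [true])))))
  simp only [fs_pr, sn_pr, List.length_cons] at h
  exact h

theorem wd_ptr (A : List Bool → Bool) (T : ℕ → Bool) (m : ℕ) :
    PolyTimeRel (ZT A T) (wd T m) := by
  have hq : ∀ c, FP (fun v => un (Nat.pair c ((fs (fs v)).length + (sn v).length))) := by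
    intro c
    refine (FP.pairU (FP.const (un c)) (FP.fsI.fst.app FP.snI)).congr (fun v => ?_)
    rw [un_length, List.length_append]
  exact tab_ptr A T (q := fun z j => Nat.pair (4 * m + 1) ((fs z).length + j)) (hq _) FP.snI

theorem rok_iff (T : ℕ → Bool) (m s0 : ℕ) (w : List Bool) : rok T m s0 w = true ↔
    s0 ≤ (fs w).length ∧ Read T m (fs w).length (sn w).length := by
  unfold rok
  rw [Bool.and_eq_true, Bool.not_eq_true', decide_eq_false_iff_not, not_lt, rdc_iff]

theorem rok_inpR {T : ℕ → Bool} {m s0 n : ℕ} {z : List Bool} (hn : s0 ≤ n)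
    (hR : Read T m n z.length) : rok T m s0 (inpR n z) = true := by
  rw [rok_iff, inpR, fs_pr, sn_pr, un_length, un_length]
  exact ⟨hn, hR⟩

theorem wd_inpR {T : ℕ → Bool} {m n : ℕ} {z : List Bool} (hw : word T m n z.length = z) :
    wd T m (inpR n z) = z := by
  rw [wd, inpR, fs_pr, sn_pr, un_length, un_length, hw]

end Pool.Agent.Work.MP_0532f7_lc.TP
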