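import Mathlib
import Pool.Agent.Work.MP_0532f7_lc.SlUp
import Pool.Agent.Work.MP_0532f7_lc.TD.NoC
import Pool.Agent.Work.MP_0532f7_lc.TP.CDefs

/-!
# TP.CapF (size S-M): capped powers are in FP

`bb v n = (n + 1) ^ v + v`.

* `bb_mono2`: `Nat.pow_le_pow_left`, `Nat.pow_le_pow_right` (see `bb_mono` in TD/ParC); `LB_mono`.
* `bbcap_fp`: iterate `|f w|` times the step `a ↦ take |h w| (word of length |a| * (|g w| + 1))` (`FP.iterc`
  with the parameter word `pr (g w) (h w)`, `FP.mulU`, `FP.take`), start with `un (min 1 |h w|)`; by induction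
  the length after `i` steps is `min ((|g w| + 1) ^ i) |h w|` (note `min (min a H * c) H = min (a * c) H` for
  `c ≥ 1`); then append `un |f w|` and take `|h w|` again (`min (min a H + v) H = min (a + v) H`).
* `bb_fp`: fixed exponent: `bb_clock v 0` in TD/ParC.  `poly_bb`: `poly_le_bb` in TD/NoC.
-/

set_option autoImplicit false

namespace Pool.Agent.Work.MP_0532f7_lc.TP

open Polynomial Pool.Agent.Work.MP_0532f7_lc.TD

private theorem bb_mono2 {k k' n n' : ℕ} (hk : k ≤ k') (hn : n ≤ n') : bb k n ≤ bb k' n' := by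
  unfold bb
  have h1 : (n + 1) ^ k ≤ (n' + 1) ^ k := Nat.pow_le_pow_left (by omega) k
  have h2 : (n' + 1) ^ k ≤ (n' + 1) ^ k' := Nat.pow_le_pow_right (by omega) hk
  omega

theorem LB_mono {v v' n n' : ℕ} (hv : v ≤ v') (hn : n ≤ n') : LB v n ≤ LB v' n' := by
  unfold LB
  have := bb_mono2 hv hn
  omega

private theorem min_step (a H c : ℕ) (hc : 1 ≤ c) : min H (min a H * c) = min (a * c) H := by
  rcases le_total a H with h | h
  · rw [min_eq_left h, min_comm]
  · rw [min_eq_right h]
    have h1 : H ≤ H * c := Nat.le_mul_of_pos_right _ hc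
    have h2 : a ≤ a * c := Nat.le_mul_of_pos_right _ hc
    rw [min_eq_left h1, min_eq_right (h.trans h2)]

private theorem take_un (a b : ℕ) : (un b).take a = un (min a b) := by
  unfold un
  rw [List.take_replicate]

/-- one step of the capped power -/
private def stp (p a : List Bool) : List Bool :=
  (un (a.length * (true :: fs p).length)).take (sn p).length

theorem bbcap_fp {f g h : List Bool → List Bool} (hf : FP f) (hg : FP g) (hh : FP h) :
    FP (fun w => un (min (bb (f w).length (g w).length) (h w).length)) := by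
  obtain ⟨Q, hQ⟩ := hh.length
  have key : ∀ (w : List Bool) (i : ℕ),
      (stp (pr (g w) (h w)))^[i] ((un 1).take (h w).length) =
        un (min (((g w).length + 1) ^ i) (h w).length) := by
    intro w i
    induction i with
    | zero =>
      rw [Function.iterate_zero, id, take_un, pow_zero, min_comm]
    | succ i ih =>
      rw [Function.iterate_succ_apply', ih]
      unfold stp
      simp only [fs_pr, sn_pr, un_length, List.length_cons]
      rw [take_un, min_step _ _ _ (by omega), pow_succ]
  have hs : FP (fun z => stp (fs z) (sn z)) :=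
    FP.take (FP.fsI.snd) (FP.mulU FP.snI ((FP.cons true).comp FP.fsI.fst))
  have h1 := FP.iterc (step := stp) (p := fun w => pr (g w) (h w)) (c := f)
    (g := fun w => (un 1).take (h w).length) hs (hg.pair hh) hf (FP.take hh (FP.const _)) Q
    (fun w i _ => by
      rw [key, un_length]
      exact (min_le_right _ _).trans (hQ w))
  refine (FP.take hh (h1.app (FP.unL hf))).congr fun w => ?_
  rw [key, un_append, take_un]
  congr 1
  unfold bb
  omega

theorem bb_fp (v : ℕ) {g : List Bool → List Bool} (hg : FP g) :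
    FP (fun w => un (bb v (g w).length)) := by
  obtain ⟨k, hk, hk'⟩ := FP.clock ((X + 1) ^ v + C v)
  refine (FP.unL (hk.comp hg)).congr fun w => ?_
  rw [hk']
  simp only [eval_add, eval_pow, eval_X, eval_C, eval_one]
  rfl

/-- a polynomial bound -/
theorem LB_poly (v : ℕ) : ∃ q : Polynomial ℕ, ∀ n, q.eval n = LB v n := by
  refine ⟨C (2 * v) + 4 * X + 3 * ((X + 1) ^ v + C v) + 6, fun n => ?_⟩
  simp only [eval_add, eval_mul, eval_pow, eval_X, eval_C, eval_one, eval_ofNat]
  rfl

theorem poly_bb (p : Polynomial ℕ) : ∃ K, ∀ k n, K ≤ k → p.eval n ≤ bb k n :=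
  poly_le_bb p

end Pool.Agent.Work.MP_0532f7_lc.TP
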