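import Mathlib
import Pool.Agent.Work.MP_0532f7_lc.TP.CapF

/-!
# TP.VCode (size S-M): machines are candidates

`run_code` (SlClo) gives a code `c` and a polynomial `P0` with `run X (pr c (pr w t)) = g w` for `P0.eval |w| ≤ |t|`.

* `vcode0`: `g = f`; `poly_bb P0` gives `K`; `v = Nat.pair 0 (Nat.pair (val c) K)`; `pe v = val c`, `num (val c) = c` (`num_val`),
  `K ≤ v` (`Nat.right_le_pair`), so `P0.eval |x| ≤ bb v |x|`.
* `vcode`: `g w` = `[true]` if `|y| ≤ p (|x|)` and `V w = [true]`, else `[false]`, for `w = pr x (b :: y)` (`FP.clock p`,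
  `PolyTimeRel.post`; `y = (sn w).tail`).  (⇐) `P0.eval (2 |x| + 2 + p (|x|)) ≤ bb v |x|` and `p (|x|) ≤ bb v |x|` for
  `v ≥ K` (`poly_bb`), so the clock suffices.  (⇒) for ANY clock the result of the run is `g w` or `oTop.code`
  (`run_any`), and `oTop.code ≠ [true]`, so `g w = [true]`.
* `run_any`: copy the proof of `run_spec` (SpRun), the second half gives the dichotomy (`run_code` in SlClo is the first
  half).
* `vcode2`: `V (pr x (b :: y))` = verifier of `N_b` on `pr x y` with its length test, `p = p0 + p1`.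
-/

set_option autoImplicit false

namespace Pool.Agent.Work.MP_0532f7_lc.TP

open Polynomial Pool.Agent.Work.MP_0532f7_lc.TD

theorem run_any {X : List Bool → Bool} {g : List Bool → List Bool} (hg : PolyTimeRel X g) :
    ∃ (c : List Bool) (P : Polynomial ℕ), ∀ x t,
      (P.eval x.length ≤ t.length → run X (pr c (pr x t)) = g x) ∧
      (run X (pr c (pr x t)) = g x ∨ run X (pr c (pr x t)) = oTop.code) := by
  obtain ⟨Q, C, O, hQ, hC, hO, h⟩ := hg
  obtain ⟨cQ, PQ, hcQ⟩ := uni_spec hQ
  obtain ⟨cC, PC, hcC⟩ := uni_spec hC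
  obtain ⟨cO, PO, hcO⟩ := uni_spec hO
  obtain ⟨BC, hBC⟩ := hC.fp.length
  have key : ∀ x t, rOk (pr (pr cQ (pr cC cO)) (pr x t)) (rAns X (pr (pr cQ (pr cC cO)) (pr x t)))
      = true → rC (pr (pr cQ (pr cC cO)) (pr x t)) = true :: C x →
      rAns X (pr (pr cQ (pr cC cO)) (pr x t)) = answers Q X x (C x).length := by
    intro x t h1 h2
    rw [rOk_iff] at h1
    have hk : (rC (pr (pr cQ (pr cC cO)) (pr x t))).tail.length = (C x).length := by
      rw [h2]; rfl
    unfold rAns at h1 ⊢
    rw [hk, answers_length] at h1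
    rw [hk]
    have : ∀ i, i ≤ (C x).length → answers (fun z => rQ (pr (pr cQ (pr cC cO)) (pr x t)) (sn z)) X
        [] i = answers Q X x i := by
      intro i
      induction i with
      | zero => intro _; rfl
      | succ i ih =>
        intro hi
        have h3 := h1 i (by omega)
        rw [answers_take _ _ _ _ _ (by omega), ih (by omega)] at h3
        simp only [fs_pr, sn_pr] at h3
        have h4 : uni cQ (pr x (answers Q X x i)) t = true :: Q (pr x (answers Q X x i)) := by
          rcases (hcQ (pr x (answers Q X x i)) t).2 with h5 | h5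
          · exact absurd h5 h3
          · exact h5
        show answers _ X [] i ++ [X (rQ _ (sn (pr [] (answers _ X [] i))))] = answers Q X x i ++ _
        rw [ih (by omega), sn_pr]
        unfold rQ
        simp only [fs_pr, sn_pr]
        rw [h4]
        rfl
    exact this _ le_rfl
  refine ⟨pr cQ (pr cC cO), PC + PO.comp (2 * Polynomial.X + 1 + BC) + PQ.comp (2 * Polynomial.X + 1 + BC), fun x t =>
    ⟨fun ht => ?_, ?_⟩⟩
  · simp only [eval_add, eval_mul, eval_ofNat, eval_one, eval_X, eval_comp] at ht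
    have h2 : rC (pr (pr cQ (pr cC cO)) (pr x t)) = true :: C x := by
      unfold rC
      simp only [fs_pr, sn_pr]
      exact (hcC x t).1 (by omega)
    have hlen : (rAns X (pr (pr cQ (pr cC cO)) (pr x t))).length = (C x).length := by
      unfold rAns; rw [answers_length, h2]; rfl
    have h1 : rOk (pr (pr cQ (pr cC cO)) (pr x t)) (rAns X (pr (pr cQ (pr cC cO)) (pr x t)))
        = true := by
      rw [rOk_iff]
      intro i hi
      simp only [fs_pr, sn_pr]
      rw [(hcQ _ t).1]
      · simp
      · refine le_trans (pmono PQ (b := 2 * x.length + 1 + BC.eval x.length) ?_) (by omega)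
        rw [pr_length, List.length_take]
        have := hBC x
        omega
    have h3 := key x t h1 h2
    rw [h3] at h1
    unfold Pool.Agent.Work.MP_0532f7_lc.run rOut
    rw [h3, h1, h2]
    have h4 : rO (pr (pr cQ (pr cC cO)) (pr x t)) (answers Q X x (C x).length) =
        true :: O (pr x (answers Q X x (C x).length)) := by
      unfold rO
      simp only [fs_pr, sn_pr]
      refine (hcO _ t).1 ?_
      refine le_trans (pmono PO (b := 2 * x.length + 1 + BC.eval x.length) ?_) (by omega)
      rw [pr_length, answers_length]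
      have := hBC x
      omega
    rw [h4, h]
    simp
  · unfold Pool.Agent.Work.MP_0532f7_lc.run rOut
    split_ifs with h5
    · exact Or.inr rfl
    · simp only [Bool.or_eq_true, List.isEmpty_iff, Bool.not_eq_true', not_or, Bool.not_eq_false]
        at h5
      obtain ⟨⟨h6, h7⟩, h8⟩ := h5
      have h2 : rC (pr (pr cQ (pr cC cO)) (pr x t)) = true :: C x := by
        unfold rC at h6 ⊢
        simp only [fs_pr, sn_pr] at h6 ⊢
        rcases (hcC x t).2 with h9 | h9
        · exact absurd h9 h6
        · exact h9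
      have h3 := key x t h8 h2
      rw [h3] at h7 ⊢
      have h4 : rO (pr (pr cQ (pr cC cO)) (pr x t)) (answers Q X x (C x).length) =
          true :: O (pr x (answers Q X x (C x).length)) := by
        unfold rO at h7 ⊢
        simp only [fs_pr, sn_pr] at h7 ⊢
        rcases (hcO (pr x (answers Q X x (C x).length)) t).2 with h9 | h9
        · exact absurd h9 h7
        · exact h9
      left
      rw [h4, List.tail_cons, ← h]

theorem vcode0 {X : List Bool → Bool} {f : List Bool → List Bool} (hf : PolyTimeRel X f) :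
    ∃ v, kd v = 0 ∧ ∀ x, cr X v x = f x := by
  obtain ⟨c, P0, hc⟩ := run_any hf
  obtain ⟨K, hK⟩ := poly_bb P0
  refine ⟨Nat.pair 0 (Nat.pair (val c) K), by simp [kd], fun x => ?_⟩
  have hpe : pe (Nat.pair 0 (Nat.pair (val c) K)) = val c := by simp [pe]
  have hle : K ≤ Nat.pair 0 (Nat.pair (val c) K) :=
    (Nat.right_le_pair _ _).trans (Nat.right_le_pair _ _)
  unfold cr
  rw [hpe, num_val]
  exact (hc x _).1 (by rw [un_length]; exact hK _ _ hle)

private theorem vc_ne : oTop.code ≠ [true] := by
  simp [oTop, OForm.code]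

theorem vcode {X : List Bool → Bool} {V : List Bool → List Bool} (hV : PolyTimeRel X V)
    (p : Polynomial ℕ) (c : ℕ) : ∃ v, kd v = c ∧ ∀ (b : Bool) (x y : List Bool),
      witr X v b x y ↔ y.length ≤ p.eval x.length ∧ V (pr x (b :: y)) = [true] := by
  obtain ⟨k, hk, hk'⟩ := FP.clock p
  have hcnd : PolyTimeRel X (fun w => if !decide ((k (fs w)).length < ((sn w).tail).length) then [true]
      else [false]) :=
    PolyTimeRel.of_fp (FP.ite (FPb.not (FPb.ltI (hk.comp FP.fsI) (FP.tail.comp FP.snI)))
      (FP.const [true]) (FP.const [false])) X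
  have hg := PolyTimeRel.ite hcnd hV (PolyTimeRel.of_fp (FP.const [false]) X)
  obtain ⟨c0, P0, hc⟩ := run_any hg
  obtain ⟨K, hK⟩ := poly_bb (P0.comp (2 * Polynomial.X + 2 + p) + p)
  have hpe : pe (Nat.pair c (Nat.pair (val c0) K)) = val c0 := by simp [pe]
  have hle : K ≤ Nat.pair c (Nat.pair (val c0) K) :=
    (Nat.right_le_pair _ _).trans (Nat.right_le_pair _ _)
  refine ⟨Nat.pair c (Nat.pair (val c0) K), by simp [kd], fun b x y => ?_⟩
  have hgx : ((if (if !decide ((k (fs (pr x (b :: y)))).length < ((sn (pr x (b :: y))).tail).length)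
      then [true] else [false]) = [true] then V (pr x (b :: y)) else [false]) = [true]) ↔
      y.length ≤ p.eval x.length ∧ V (pr x (b :: y)) = [true] := by
    rw [fs_pr, sn_pr, List.tail_cons, hk']
    by_cases h1 : p.eval x.length < y.length
    · simp [h1]
    · simp [h1, Nat.le_of_not_lt h1]
  unfold witr
  rw [hpe, num_val]
  constructor
  · rintro ⟨_, h2⟩
    rcases (hc (pr x (b :: y)) (un (bb (Nat.pair c (Nat.pair (val c0) K)) x.length))).2 with h3 | h3
    · rw [h3] at h2
      exact hgx.1 h2
    · rw [h3] at h2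
      exact absurd h2 vc_ne
  · intro h2
    have h4 := hK (Nat.pair c (Nat.pair (val c0) K)) x.length hle
    simp only [eval_add, eval_mul, eval_comp, eval_X, eval_ofNat] at h4
    refine ⟨by omega, ?_⟩
    rw [(hc (pr x (b :: y)) (un (bb (Nat.pair c (Nat.pair (val c0) K)) x.length))).1]
    · exact hgx.2 h2
    · rw [un_length, pr_length, List.length_cons]
      refine (pmono P0 (b := 2 * x.length + 2 + p.eval x.length) (by omega)).trans (by omega)

/-- restriction of a verifier to short witnesses -/
private theorem vc_cut {X : List Bool → Bool} {V : List Bool → List Bool} (hV : PolyTimeRel X V)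
    (p : Polynomial ℕ) : ∃ W : List Bool → List Bool, PolyTimeRel X W ∧ ∀ (b : Bool) (x y : List Bool),
      W (pr x (b :: y)) = [true] ↔ y.length ≤ p.eval x.length ∧ V (pr x y) = [true] := by
  obtain ⟨k, hk, hk'⟩ := FP.clock p
  have hcnd : PolyTimeRel X (fun w => if !decide ((k (fs w)).length < ((sn w).tail).length) then [true]
      else [false]) :=
    PolyTimeRel.of_fp (FP.ite (FPb.not (FPb.ltI (hk.comp FP.fsI) (FP.tail.comp FP.snI)))
      (FP.const [true]) (FP.const [false])) X
  have hV' : PolyTimeRel X (fun w => V (pr (fs w) (sn w).tail)) :=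
    hV.pre (FP.fsI.pair (FP.tail.comp FP.snI))
  refine ⟨_, PolyTimeRel.ite hcnd hV' (PolyTimeRel.of_fp (FP.const [false]) X), fun b x y => ?_⟩
  simp only [fs_pr, sn_pr, List.tail_cons, hk']
  by_cases h1 : p.eval x.length < y.length
  · simp [h1]
  · simp [h1, Nat.le_of_not_lt h1]

/-- two NP sets as the answers of one candidate -/
theorem vcode2 {X : List Bool → Bool} {N0 N1 : Set (List Bool)} (h0 : NPRel X N0)
    (h1 : NPRel X N1) (c : ℕ) : ∃ v, kd v = c ∧ ∀ x, (wit X v false x ↔ x ∈ N0) ∧
      (wit X v true x ↔ x ∈ N1) := by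
  obtain ⟨V0, hV0, p0, hp0⟩ := h0
  obtain ⟨V1, hV1, p1, hp1⟩ := h1
  obtain ⟨W0, hW0, hw0⟩ := vc_cut hV0 p0
  obtain ⟨W1, hW1, hw1⟩ := vc_cut hV1 p1
  have hcb : PolyTimeRel X (fun w => if decide ((sn w).take [true].length = [true]) then [true]
      else [false]) :=
    PolyTimeRel.of_fp (FP.ite (FPb.eq (FP.take (FP.const [true]) FP.snI) (FP.const [true]))
      (FP.const [true]) (FP.const [false])) X
  obtain ⟨v, hv, hvw⟩ := vcode (PolyTimeRel.ite hcb hW1 hW0) (p0 + p1) c
  refine ⟨v, hv, fun x => ⟨?_, ?_⟩⟩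
  · unfold wit
    simp only [hvw, sn_pr, eval_add]
    rw [hp0]
    constructor
    · rintro ⟨y, _, h2⟩
      exact ⟨y, (hw0 false x y).1 (by simpa using h2)⟩
    · rintro ⟨y, h2⟩
      exact ⟨y, by omega, by simpa using (hw0 false x y).2 h2⟩
  · unfold wit
    simp only [hvw, sn_pr, eval_add]
    rw [hp1]
    constructor
    · rintro ⟨y, _, h2⟩
      exact ⟨y, (hw1 true x y).1 (by simpa using h2)⟩
    · rintro ⟨y, h2⟩
      exact ⟨y, by omega, by simpa using (hw1 true x y).2 h2⟩

end Pool.Agent.Work.MP_0532f7_lc.TP
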