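import Mathlib
import Pool.Agent.Work.MP_0532f7_lc.TP.VCode
import Pool.Agent.Work.MP_0532f7_lc.TP.ObjR

/-!
# TP.NegR (size S-M): hard records for a candidate of kind 1 or 2 and all reductions

`HRec` with `i = v` gives `m`.  Let `r` be computable in polynomial time relative to `X = ZT A T`, `B` a number: `run_code` (SlClo) gives `c`,
`P0`; `PolyTimeRel.length` gives `Pr`; `K` with `P0.eval (3 n + 1) + Pr.eval (3 n + 1) ≤ bb κ n` for `κ ≥ K` (`poly_bb`).  `HRec` with `j = val c` and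
the bound `max B K`: `κ`, `n`, `L`, `z`.  `|inpR n z| = 2 n + 1 + |z| ≤ 3 n + 1`, so `rdx A T (val c) κ n z = r (inpR n z)` (`num_val`, `List.take_of_length_le`).
`¬ HT` with `v ∈ L`, `v ≤ m`, `|z| ≤ n` and kind 1 or 2 gives `b` with `wit X v b (r (inpR n z))` and a wrong answer.
-/

set_option autoImplicit false

namespace Pool.Agent.Work.MP_0532f7_lc.TP

open Polynomial Pool.Agent.Work.MP_0532f7_lc.TD

theorem neg_R {A : List Bool → Bool} {P : Polynomial ℕ} {T : ℕ → Bool} {L1 : Set (List Bool)}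
    {tf : List Bool → List Bool} (hard : HRec A P tf L1 T) {v : ℕ} (hv : ∀ s, ¬ UT A P v s T)
    (hk : kd v = 1 ∨ kd v = 2) : ∃ m, ∀ r, PolyTimeRel (ZT A T) r → ∀ B, ∃ n ≥ B, ∃ z ∈ XL L1,
      Read T m n z.length ∧ word T m n z.length = z ∧
        ∃ b : Bool, wit (ZT A T) v b (r (inpR n z)) ∧ (if b then sn z else fs z) ∉ L1 := by
  obtain ⟨m, hm, h⟩ := hard v
  refine ⟨m, fun r hr B => ?_⟩
  obtain ⟨c, P0, hc⟩ := run_code hr
  obtain ⟨Pr, hPr⟩ := PolyTimeRel.length hr
  obtain ⟨K, hK⟩ := poly_bb ((P0 + Pr).comp (3 * X + 1))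
  obtain ⟨κ, hκ, hcv, hcj, n, hn, L, z, hz, hvL, hXL, hR, hw, hH⟩ := h v (val c) hv (max B K)
  refine ⟨n, (le_max_left _ _).trans hn, z, hXL, hR, hw, ?_⟩
  by_contra hcon
  push Not at hcon
  apply hH
  refine ⟨by rw [hcv]; exact hvL, by rw [hcv]; exact hm, hz, Or.inr ⟨by rw [hcv]; exact hk, ?_⟩⟩
  have hlen : (inpR n z).length ≤ 3 * n + 1 := by
    unfold inpR
    rw [pr_length, un_length, un_length]
    omega
  have h1 := hK κ n ((le_max_right _ _).trans hκ)
  simp only [eval_comp, eval_add, eval_mul, eval_ofNat, eval_X, eval_one] at h1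
  have hP0 := pmono P0 hlen
  have hPr' := (hPr (inpR n z)).trans (pmono Pr hlen)
  have e : rdx A T (cj κ) κ n z = r (inpR n z) := by
    unfold rdx
    rw [hcj, num_val, hc _ _ (by rw [un_length]; omega), List.take_of_length_le (by omega)]
  intro b hb
  rw [hcv, e] at hb
  exact hcon b hb

end Pool.Agent.Work.MP_0532f7_lc.TP
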