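import Mathlib
import Pool.Agent.Work.MP_0532f7_lc.TP.NegR
import Pool.Agent.Work.MP_0532f7_lc.TP.Clo

/-!
# TP.NegN (size S-M): hard records: no complete set for NP ∩ coNP

Let `L` be complete, `X = ZT A T`.  `vcode2` with `N0 = L`, `N1 = Lᶜ` (`CoNPRel.compl`), `c = 1`: `v`, never bad (exactly one answer), never wrong.
`neg_R` gives `m`, `VRec` gives `s0`.  `E = {w | rok T m s0 w = true ∧ fs (wd T m w) ∈ L1}` is in NP relative to `X` (`np_join`, `np_pre`, `np_andB`,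
`rok_ptr`, `wd_ptr`), and `Eᶜ = {w | ¬ rok ∨ sn (wd T m w) ∈ L1}` too, because records from `s0` on are in `XL L1` (`rok_iff`); so `E` is
in coNP (`NPRel.compl`).  Let `r` reduce `E` to `L`.  `neg_R` with `B = s0`: `n`, `z`, `b`.  `w = inpR n z`: `rok`, `wd T m w = z`.
`b = false`: `wit false`, so `r w ∈ L`, so `w ∈ E`, so `fs z ∈ L1`, but `fs z ∉ L1`.  `b = true`: `r w ∉ L`, `w ∉ E`, `fs z ∉ L1`, so `sn z ∈ L1`
(`z ∈ XL L1`), contradiction.
-/

set_option autoImplicit false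

namespace Pool.Agent.Work.MP_0532f7_lc.TP

open Polynomial Pool.Agent.Work.MP_0532f7_lc.TD

theorem neg_N {A : List Bool → Bool} {P : Polynomial ℕ} {T : ℕ → Bool} {L1 : Set (List Bool)}
    (h1 : NPRel A L1) {tf : List Bool → List Bool} (hrec : VRec L1 T)
    (hard : HRec A P tf L1 T) : ¬ ∃ L, CompleteNPcoNP (ZT A T) L := by
  rintro ⟨L, ⟨hL1, hL2⟩, hL⟩
  obtain ⟨v, hk, hv⟩ := vcode2 hL1 (CoNPRel.compl hL2) 1
  have hns : ∀ s, ¬ UT A P v s T := by
    rintro s ⟨x, -, hB⟩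
    rcases hB with ⟨h, -⟩ | ⟨-, h⟩ | ⟨h, -⟩
    · omega
    · rw [(hv x).1, (hv x).2, Set.mem_compl_iff] at h
      tauto
    · omega
  obtain ⟨m, hm⟩ := neg_R hard hns (Or.inl hk)
  obtain ⟨s0, hs0⟩ := hrec m
  have hfs : PolyTimeRel (ZT A T) (fun w => fs (wd T m w)) := (wd_ptr A T m).post FP.fsI
  have hsn : PolyTimeRel (ZT A T) (fun w => sn (wd T m w)) := (wd_ptr A T m).post FP.snI
  have hrok := rok_ptr A T m s0
  have hE1 : NPRel (ZT A T) {w | rok T m s0 w = true ∧ fs (wd T m w) ∈ L1} :=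
    np_andB (np_pre (np_join h1 _) hfs) hrok
  have hrok' : PolyTimeRel (ZT A T) (fun w => [!rok T m s0 w]) := by
    have h := hrok.post (k := fun v => [!(v.head?.getD false)]) FPb.hd.not
    exact h
  have hE2 : NPRel (ZT A T) {w | (!rok T m s0 w) = true ∨ sn (wd T m w) ∈ L1} :=
    np_orB (np_pre (np_join h1 _) hsn) hrok'
  have hE3 : CoNPRel (ZT A T) {w | rok T m s0 w = true ∧ fs (wd T m w) ∈ L1} := by
    have h := NPRel.compl hE2
    have e : {w | (!rok T m s0 w) = true ∨ sn (wd T m w) ∈ L1}ᶜ =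
        {w | rok T m s0 w = true ∧ fs (wd T m w) ∈ L1} := by
      ext w
      simp only [Set.mem_compl_iff, Set.mem_ofPred_eq, Bool.not_eq_true', not_or,
        Bool.not_eq_false]
      constructor
      · rintro ⟨a, b⟩
        have h2 := (rok_iff T m s0 w).mp a
        have h3 : ¬ (fs (wd T m w) ∈ L1 ↔ sn (wd T m w) ∈ L1) := hs0 _ h2.1 _ h2.2
        refine ⟨a, ?_⟩
        by_contra h4
        exact h3 (iff_of_false h4 b)
      · rintro ⟨a, b⟩
        have h2 := (rok_iff T m s0 w).mp a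
        have h3 : ¬ (fs (wd T m w) ∈ L1 ↔ sn (wd T m w) ∈ L1) := hs0 _ h2.1 _ h2.2
        exact ⟨a, fun h4 => h3 (iff_of_true b h4)⟩
    rwa [e] at h
  obtain ⟨r, hr, hred⟩ := hL _ hE1 hE3
  obtain ⟨n, hn, z, hz, hR, hw, b, hb1, hb2⟩ := hm r hr s0
  have hr1 := hred (inpR n z)
  simp only [Set.mem_ofPred_eq, rok_inpR hn hR, wd_inpR hw, true_and] at hr1
  have hz' : ¬ (fs z ∈ L1 ↔ sn z ∈ L1) := hz
  cases b with
  | false =>
    rw [(hv _).1, ← hr1] at hb1
    exact hb2 hb1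
  | true =>
    rw [(hv _).2, Set.mem_compl_iff, ← hr1] at hb1
    exact hz' (iff_of_false hb1 hb2)

end Pool.Agent.Work.MP_0532f7_lc.TP
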