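import Mathlib
import Pool.Agent.Work.MP_0532f7_lc.TD.NoC
import Pool.Agent.Work.MP_0532f7_lc.TP.VCode

/-!
# TP.NegO (size S-M): hard records: no optimal proof system

As `no_opt` (TD/NoC).  Let `f` be optimal, `X = ZT A T`.  `vcode0` gives `v` of kind 0 with `cr X v x = f x`; it is never bad, so
never wrong.  `HRec` with `i = v` gives `m ≥ v`; `VRec` gives `s0`.  The system `rdr T f tf m s0` (TD/Reader, `rdr_sys` with
`𝓛 = {z | ¬ (fs z ∈ L1 ∧ sn z ∈ L1)} ⊇ XL L1`) is simulated by `f`: `h`, `p`.  Let `K` be such that `p.eval (3 n + 2) ≤ bb κ n` for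
`κ ≥ K` (`poly_bb`).  `HRec` with `j = 0` and `B = max K s0` gives `κ`, `n`, `L`, `z`; `f (h (inpW n z)) = tf z` (`rdr_inpW`) and
`|h (inpW n z)| ≤ p.eval (3 n + 2) ≤ bb κ n` (`inpW_length`), so `HT` holds (kind 0): contradiction.
-/

set_option autoImplicit false

namespace Pool.Agent.Work.MP_0532f7_lc.TP

open Polynomial Pool.Agent.Work.MP_0532f7_lc.TD

theorem neg_O {A : List Bool → Bool} {P : Polynomial ℕ} {T : ℕ → Bool} {L1 : Set (List Bool)}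
    {tf : List Bool → List Bool} (htf : FP tf)
    (ht : ∀ (B : List Bool → Bool) (z : List Bool), tf z ∈ OTAUT (ojoin A B) ↔
      ¬ (fs z ∈ L1 ∧ sn z ∈ L1)) (hrec : VRec L1 T) (hard : HRec A P tf L1 T) :
    ¬ ∃ f, OptimalRel (ZT A T) f := by
  rintro ⟨f, hf⟩
  obtain ⟨v, hk, hv⟩ := vcode0 hf.1.1
  have hns : ∀ s, ¬ UT A P v s T := by
    rintro s ⟨x, -, hB⟩
    rcases hB with ⟨-, h⟩ | ⟨h, -⟩ | ⟨h, -⟩
    · apply h
      rw [hv, ← hf.1.2]
      exact ⟨x, rfl⟩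
    · omega
    · omega
  obtain ⟨m, hm, hmv⟩ := hard v
  obtain ⟨s0, hs0⟩ := hrec m
  obtain ⟨h, p, hh⟩ := hf.2 _ (rdr_sys (𝓛 := {z | ¬ (fs z ∈ L1 ∧ sn z ∈ L1)}) hf.1 htf ht
    (m := m) (s0 := s0) (fun n hn R hR hb => hs0 n hn R hR (iff_of_true hb.1 hb.2)))
  obtain ⟨K, hK⟩ := poly_bb (p.comp (3 * X + 2))
  obtain ⟨κ, hκ, hcv, -, n, hn, L, z, hz, hvL, -, hR, hw, hno⟩ := hmv v 0 hns (max K s0)
  have h1 := hh (inpW n z)
  rw [rdr_inpW T f tf (le_trans (le_max_right _ _) hn) hR hw] at h1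
  apply hno
  refine ⟨by rw [hcv]; exact hvL, by rw [hcv]; exact hm, hz,
    Or.inl ⟨by rw [hcv]; exact hk, h (inpW n z), ?_, ?_⟩⟩
  · have h2 := hK κ n (le_trans (le_max_left _ _) hκ)
    simp only [eval_comp, eval_add, eval_mul, eval_X, eval_ofNat] at h2
    refine h1.2.trans ((pmono p ?_).trans h2)
    rw [inpW_length]
    omega
  · rw [hcv, hv, h1.1]

end Pool.Agent.Work.MP_0532f7_lc.TP
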