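import Mathlib
import Pool.Agent.Work.MP_0532f7_lc.TP.CapF

/-!
# TP.BadLoc (size S-M): the conditions on candidates are local

`RunLoc P` (TD/CDefs): if two oracles agree on all words of length `≤ P.eval N` and `|u| ≤ N`, then `run` has
the same value at `u`, and its value is in OTAUT relative to both or to none.  `loc_ZT` (TD/CDefs): if `τ`, `τ'`
agree below `|y|` then `ZT A τ y = ZT A τ' y`.  The contexts of `cr` and `witr` have length at most
`LB v |x|` (`pr_length`, `num_length`, `pe v ≤ v` by `Nat.unpair_right_le`, `Nat.unpair_left_le`).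
The relations are symmetric in `τ`, `τ'`, so prove one direction and apply it twice.
-/

set_option autoImplicit false

namespace Pool.Agent.Work.MP_0532f7_lc.TP

open Polynomial Pool.Agent.Work.MP_0532f7_lc.TD

variable {A : List Bool → Bool} {P : Polynomial ℕ} {τ τ' : ℕ → Bool}

private theorem bl_agree {M : ℕ} (h : ∀ j < M, τ j = τ' j) {y : List Bool} (hy : y.length ≤ M) :
    ZT A τ y = ZT A τ' y := by
  match y with
  | [] => rfl
  | false :: x => rfl
  | true :: x =>
    show tally τ x = tally τ' x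
    unfold tally
    rw [h x.length (by rw [List.length_cons] at hy; omega)]

private theorem bl_pe (v : ℕ) : (num (pe v)).length ≤ v :=
  (num_length _).trans ((Nat.unpair_left_le _).trans (Nat.unpair_right_le _))

private theorem bl_witr (hP : RunLoc P) {v : ℕ} {b : Bool} {x y : List Bool}
    (h : ∀ j < P.eval (LB v x.length), τ j = τ' j) (hw : witr (ZT A τ) v b x y) :
    witr (ZT A τ') v b x y := by
  obtain ⟨h1, h2⟩ := hw
  refine ⟨h1, ?_⟩
  have hl : (pr (num (pe v)) (pr (pr x (b :: y)) (un (bb v x.length)))).length ≤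
      LB v x.length := by
    have h3 := bl_pe v
    simp only [pr_length, List.length_cons, un_length]
    unfold LB
    omega
  rw [← h2]
  exact (hP (ZT A τ) (ZT A τ') _ _ hl (fun y hy => bl_agree h hy)).1

theorem run_loc (hP : RunLoc P) {u : List Bool} {N : ℕ} (hu : u.length ≤ N)
    (h : ∀ j < P.eval N, τ j = τ' j) : run (ZT A τ') u = run (ZT A τ) u ∧
      (run (ZT A τ') u ∈ OTAUT (ZT A τ') ↔ run (ZT A τ) u ∈ OTAUT (ZT A τ)) := by
  have h1 := hP (ZT A τ) (ZT A τ') u N hu (fun y hy => bl_agree h hy)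
  have h2 := hP (ZT A τ') (ZT A τ) u N hu (fun y hy => (bl_agree h hy).symm)
  exact ⟨h1.1, h1.2, h2.2⟩

theorem cr_loc (hP : RunLoc P) {v : ℕ} {x : List Bool} (h : ∀ j < P.eval (LB v x.length), τ j = τ' j) :
    cr (ZT A τ') v x = cr (ZT A τ) v x ∧
      (cr (ZT A τ') v x ∈ OTAUT (ZT A τ') ↔ cr (ZT A τ) v x ∈ OTAUT (ZT A τ)) := by
  refine run_loc hP (N := LB v x.length) ?_ h
  have h3 := bl_pe v
  simp only [pr_length, un_length]
  unfold LB
  omega

theorem wit_loc (hP : RunLoc P) {v : ℕ} {b : Bool} {x : List Bool}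
    (h : ∀ j < P.eval (LB v x.length), τ j = τ' j) :
    wit (ZT A τ') v b x ↔ wit (ZT A τ) v b x :=
  ⟨fun ⟨y, hy⟩ => ⟨y, bl_witr hP (fun j hj => (h j hj).symm) hy⟩,
    fun ⟨y, hy⟩ => ⟨y, bl_witr hP h hy⟩⟩

theorem bad_loc (hP : RunLoc P) {v : ℕ} {x : List Bool} (h : ∀ j < P.eval (LB v x.length), τ j = τ' j) :
    Bad (ZT A τ') v x ↔ Bad (ZT A τ) v x := by
  unfold Bad
  rw [(cr_loc hP h).2, wit_loc hP h, wit_loc hP h]

theorem UT_loc (hP : RunLoc P) {v s : ℕ} (h : ∀ j < s, τ j = τ' j) :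
    UT A P v s τ → UT A P v s τ' := by
  rintro ⟨x, hx, hb⟩
  exact ⟨x, hx, (bad_loc hP (fun j hj => h j (hj.trans hx))).2 hb⟩

theorem rdx_loc (hP : RunLoc P) {j κ n : ℕ} {z : List Bool} (hz : z.length ≤ n) (hj : j ≤ κ)
    (h : ∀ i < P.eval (2 * κ + 6 * n + 3 * bb κ n + 6), τ i = τ' i) :
    rdx A τ' j κ n z = rdx A τ j κ n z := by
  unfold rdx
  rw [(run_loc (A := A) hP (N := 2 * κ + 6 * n + 3 * bb κ n + 6) ?_ h).1]
  have h3 := num_length j
  simp only [inpR, pr_length, un_length]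
  omega

end Pool.Agent.Work.MP_0532f7_lc.TP
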