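import Mathlib
import Pool.Agent.Work.MP_0532f7_lc.TP.Clo
import Pool.Agent.Work.MP_0532f7_lc.TP.BadLoc
import Pool.Agent.Work.MP_0532f7_lc.TD.Hybrid
import Pool.Agent.Work.MP_0532f7_lc.TD.ExFP

/-!
# TP.HardO (size M): hard records for candidates of kind 0

No record `z` makes the candidate `v` (kind 0) wrong in the region.  Suppose that for every true record `z`
some `x`, `|x| ≤ bb κ (TD.reg N z)`, has `cr (ZT A (ex N τ L m z)) v x = tf z`.  Fix `z1 ∈ ext V p` (exists, else
`dom V p` is empty and its complement is in NP).  For every word `φ` put `z = pr φ z1`: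

`φ ∉ ext V p` iff some `x`, `|x| ≤ bb κ (TD.reg N z)`, has `cr (ZT A (ex N τ L m z)) v x = tf z`.

(⇒) `z` is a true record.  (⇐) `P.eval (LB v |x|) < MT P m κ (TD.reg N z)` (`LB_mono`, `pmono`, `v ≤ m`), so by `hs`
`cr .. v x` is in OTAUT; so `tf z` is, and by `ht` not both `φ` and `z1` are in `ext V p`.
The right side is in NP relative to `A`: `hybrid_run` (TD/Hybrid) with `B = ex N τ L m` and `ex_fp` (TD/ExFP),
`bb_fp v`, `reg_fp`; see the proof of `par_HO` in TD/ParC.
So the complement of `ext V p` is in NP, and with `w ∈ dom V p ↔ pr w [] ∈ ext V p` (`np_pre`) the complement of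
`dom V p` is in NP, a contradiction.
-/

set_option autoImplicit false

namespace Pool.Agent.Work.MP_0532f7_lc.TP

open Polynomial Pool.Agent.Work.MP_0532f7_lc.TD

theorem hard_O {A : List Bool → Bool} {P : Polynomial ℕ} {V : List Bool → List Bool}
    (p : Polynomial ℕ) (hn : ¬ NPRel A (dom V p)ᶜ) {tf : List Bool → List Bool} (htf : FP tf)
    (ht : ∀ (B : List Bool → Bool) (z : List Bool), tf z ∈ OTAUT (ojoin A B) ↔
      ¬ (fs z ∈ ext V p ∧ sn z ∈ ext V p))
    {N : ℕ} {τ : ℕ → Bool} {L : Finset ℕ} {m κ v : ℕ} (hvm : v ≤ m) (hk : kd v = 0)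
    (hs : ∀ z, ¬ UT A P v (MT P m κ (TD.reg N z)) (ex N τ L m z)) :
    ∃ z ∈ XL (ext V p), ¬ ∃ x : List Bool, x.length ≤ bb κ (TD.reg N z) ∧
      cr (ZT A (ex N τ L m z)) v x = tf z := by
  by_contra hcon
  push Not at hcon
  have hde : ∀ w, w ∈ dom V p ↔ pr w [] ∈ ext V p := by
    intro w
    show (∃ u : List Bool, u.length ≤ p.eval w.length ∧ V (pr w u) = [true]) ↔
      ∃ u : List Bool, u.length ≤ p.eval (fs (pr w [])).length ∧ sn (pr w []) <+: u ∧
        V (pr (fs (pr w [])) u) = [true]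
    rw [fs_pr, sn_pr]
    constructor
    · rintro ⟨u, h1, h2⟩
      exact ⟨u, h1, List.nil_prefix, h2⟩
    · rintro ⟨u, h1, -, h2⟩
      exact ⟨u, h1, h2⟩
  apply hn
  by_cases hE : ∃ z1, z1 ∈ ext V p
  · obtain ⟨z1, hz1⟩ := hE
    have key : ∀ φ : List Bool, φ ∈ (ext V p)ᶜ ↔ ∃ x : List Bool,
        x.length ≤ bb κ (TD.reg N (pr φ z1)) ∧
          cr (ZT A (ex N τ L m (pr φ z1))) v x = tf (pr φ z1) := by
      intro φ
      constructor
      · intro hφ
        refine hcon (pr φ z1) ?_
        show ¬ (fs (pr φ z1) ∈ ext V p ↔ sn (pr φ z1) ∈ ext V p)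
        rw [fs_pr, sn_pr]
        intro h
        exact hφ (h.2 hz1)
      · rintro ⟨x, hx, hc⟩ hφ
        have h1 : cr (ZT A (ex N τ L m (pr φ z1))) v x ∈ OTAUT (ZT A (ex N τ L m (pr φ z1))) := by
          by_contra hbad
          refine hs (pr φ z1) ⟨x, ?_, Or.inl ⟨hk, hbad⟩⟩
          have h2 := pmono P (Nat.le_add_right (LB m (bb κ (TD.reg N (pr φ z1))))
            (2 * κ + 6 * TD.reg N (pr φ z1) + 3 * bb κ (TD.reg N (pr φ z1)) + 6))
          have h3 := pmono P (LB_mono hvm hx)
          unfold MT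
          omega
        rw [hc] at h1
        have h4 := (ht (tally (ex N τ L m (pr φ z1))) (pr φ z1)).1 h1
        rw [fs_pr, sn_pr] at h4
        exact h4 ⟨hφ, hz1⟩
    have hrun := hybrid_run (A := A) (B := ex N τ L m) (ex_fp N τ L m)
    have hz : FP (fun w => pr (fs w) z1) := FP.fsI.pair (FP.const z1)
    have hkk : FP (fun w => pr (pr (fs w) z1) (pr (num (pe v))
        (pr (sn w) (un (bb v (sn w).length))))) :=
      hz.pair ((FP.const (num (pe v))).pair (FP.snI.pair (bb_fp v FP.snI)))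
    have h1 := ((PolyTimeRel.of_fp FP.id A).pair (hrun.pre hkk)).post
      (k := fun u => if decide (sn u = tf (pr (fs (fs u)) z1)) then [true] else [false])
      (FP.ite (FPb.eq FP.snI (htf.comp (FP.fsI.fst.pair (FP.const z1)))) (FP.const _)
        (FP.const _))
    have hnp : NPRel A (ext V p)ᶜ := by
      refine ⟨_, h1, (2 * X + C (1 + z1.length + (N + 1) ^ 3 + 1)) ^ κ + C κ, fun φ => ?_⟩
      rw [key]
      have hp : ((2 * X + C (1 + z1.length + (N + 1) ^ 3 + 1)) ^ κ + C κ : Polynomial ℕ).eval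
          φ.length = bb κ (TD.reg N (pr φ z1)) := by
        simp only [eval_add, eval_mul, eval_pow, eval_X, eval_C, eval_ofNat]
        unfold bb TD.reg
        rw [pr_length]
        congr 2
        omega
      rw [hp]
      refine exists_congr fun x => and_congr_right fun _ => ?_
      simp only [fs_pr, sn_pr]
      show cr (ZT A (ex N τ L m (pr φ z1))) v x = tf (pr φ z1) ↔ _
      unfold cr
      constructor
      · intro h
        rw [if_pos (by simpa using h)]
      · intro h
        by_contra h2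
        rw [if_neg (by simpa using h2)] at h
        exact absurd h (by simp)
    have h := np_pre hnp (g := fun w => pr w []) (PolyTimeRel.of_fp (FP.id.pair FP.nil) A)
    have e : {w | (fun w => pr w []) w ∈ (ext V p)ᶜ} = (dom V p)ᶜ := by
      ext w
      show ¬ (pr w [] ∈ ext V p) ↔ ¬ (w ∈ dom V p)
      rw [hde]
    rw [← e]
    exact h
  · refine ⟨fun _ => [true], PolyTimeRel.of_fp (FP.const [true]) A, 0, fun z => ?_⟩
    constructor
    · intro _
      exact ⟨[], by simp, rfl⟩
    · intro _ hz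
      exact hE ⟨_, (hde z).1 hz⟩

end Pool.Agent.Work.MP_0532f7_lc.TP
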