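import Mathlib
import Pool.Agent.Work.MP_0532f7_lc.TP.Clo

/-!
# TP.SelfRed (size M): self-reduction with an answer set in NP

`N` is a set in NP that contains `pr z [false]` or `pr z [true]` for EVERY `z`, and the answers are
correct for the true records `z` (exactly one of `fs z`, `sn z` in `ext V p`).  Then the complement of
`dom V p` is in NP.

Write `z_k = pr (pr φ (s.take k ++ [false])) (pr φ (s.take k ++ [true]))`.

CLAIM: `φ ∉ dom V p` iff there is `s` with `|s| = p (|φ|)` such that for all `k < |s| + 1`
(i) `V (pr φ (s.take k)) ≠ [true]` and (ii) if `k < |s|` then `pr z_k [s.getD k false] ∈ N`.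

(⇒) Choose `s` bit by bit: the bit `b` at the prefix `s_k` is one with `pr z_k [b] ∈ N` (`h1`); (i) holds
since `|s.take k| ≤ p (|φ|)` and `φ ∉ dom V p`.
(⇐) Suppose `φ ∈ dom V p`.  By induction on `k ≤ |s|`: `pr φ (s.take k) ∈ ext V p`.  `k = 0`: the prefix
is empty.  Step: let `u` be a witness with `s.take k <+: u`.  By (i) `u ≠ s.take k`, so `u` begins with
`s.take k ++ [b]` for some `b`, i.e. `pr φ (s.take k ++ [b]) ∈ ext V p`, one of the two parts of `z_k`.
If both parts are in `ext V p` then so is `pr φ (s.take (k + 1))`.  If exactly one is, then `h2` and (ii)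
say that the part with `b = s.getD k false` is in `ext V p`, and `s.take k ++ [s.getD k false]` is
`s.take (k + 1)`.  For `k = |s| = p (|φ|)`: a witness `u` with `s <+: u`, `|u| ≤ |s|` is `s` itself,
contradiction to (i) at `k = |s|`.

NP: the set of the `pr (pr φ s) (un k)` with (i) and (ii) is in NP (`np_orB`, `np_and`, `np_pre`, `not_ptr`),
then `np_all` with `c = fun w => true :: sn w`, then the test `|s| = p (|φ|)` (`np_andB`, `FP.clock`), then
`np_ex` with `q = p`.
-/

set_option autoImplicit false

namespace Pool.Agent.Work.MP_0532f7_lc.TP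

open Polynomial Pool.Agent.Work.MP_0532f7_lc.TD

/-- the record at the prefix `t` -/
private def zk (φ t : List Bool) : List Bool := pr (pr φ (t ++ [false])) (pr φ (t ++ [true]))

private theorem sr_exists {N : Set (List Bool)} (h1 : ∀ z, ∃ b : Bool, pr z [b] ∈ N)
    (φ : List Bool) (m : ℕ) : ∃ s : List Bool, s.length = m ∧
      ∀ k < m, pr (zk φ (s.take k)) [s.getD k false] ∈ N := by
  induction m with
  | zero => exact ⟨[], rfl, fun k hk => absurd hk (Nat.not_lt_zero k)⟩
  | succ m ih =>
    obtain ⟨s, hs, h⟩ := ih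
    obtain ⟨b, hb⟩ := h1 (zk φ s)
    refine ⟨s ++ [b], by rw [List.length_append, hs]; rfl, fun k hk => ?_⟩
    rcases Nat.lt_succ_iff_lt_or_eq.1 hk with hk | rfl
    · rw [List.take_append_of_le_length (by omega), List.getD_append _ _ _ _ (by omega)]
      exact h k hk
    · rw [List.take_append_of_le_length (by omega), List.take_of_length_le hs.le,
        List.getD_append_right _ _ _ _ hs.le, hs, Nat.sub_self]
      exact hb

private theorem sr_claim {V : List Bool → List Bool} (p : Polynomial ℕ) {N : Set (List Bool)}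
    (h1 : ∀ z, ∃ b : Bool, pr z [b] ∈ N)
    (h2 : ∀ z ∈ XL (ext V p), ∀ b : Bool, pr z [b] ∈ N → (if b then sn z else fs z) ∈ ext V p)
    (φ : List Bool) : φ ∉ dom V p ↔ ∃ s : List Bool, s.length = p.eval φ.length ∧
      ∀ k < s.length + 1, V (pr φ (s.take k)) ≠ [true] ∧
        (k < s.length → pr (zk φ (s.take k)) [s.getD k false] ∈ N) := by
  constructor
  · intro h
    obtain ⟨s, hs, hs2⟩ := sr_exists h1 φ (p.eval φ.length)
    refine ⟨s, hs, fun k _ => ⟨fun hV => h ⟨s.take k, ?_, hV⟩, fun hk => hs2 k (hs ▸ hk)⟩⟩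
    rw [List.length_take]
    omega
  · rintro ⟨s, hs, h3⟩ ⟨u0, hu0, hu1⟩
    have h4 : ∀ k ≤ s.length, pr φ (s.take k) ∈ ext V p := by
      intro k
      induction k with
      | zero =>
        intro _
        refine ⟨u0, by rw [fs_pr]; exact hu0, ?_, by rw [fs_pr]; exact hu1⟩
        rw [sn_pr, List.take_zero]
        exact List.nil_prefix
      | succ k ih =>
        intro hk
        obtain ⟨u, hu2, hu3, hu4⟩ := ih (by omega)
        obtain ⟨h5, h6⟩ := h3 k (by omega)
        have h7 := h6 (by omega)
        have h8 : s.take (k + 1) = s.take k ++ [s.getD k false] := by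
          rw [List.take_succ, List.getD_eq_getElem?_getD]
          have : k < s.length := by omega
          rw [List.getElem?_eq_getElem this]
          rfl
        rw [fs_pr] at hu2 hu4
        rw [sn_pr] at hu3
        obtain ⟨u', rfl⟩ := hu3
        have h9 : ∃ b : Bool, pr φ (s.take k ++ [b]) ∈ ext V p := by
          rcases u' with _ | ⟨b, u'⟩
          · rw [List.append_nil] at hu4
            exact absurd hu4 h5
          · refine ⟨b, s.take k ++ b :: u', by rw [fs_pr]; exact hu2, ?_, by rw [fs_pr]; exact hu4⟩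
            rw [sn_pr]
            exact ⟨u', by rw [List.append_assoc]; rfl⟩
        rw [h8]
        have hf : fs (zk φ (s.take k)) = pr φ (s.take k ++ [false]) := fs_pr _ _
        have hg : sn (zk φ (s.take k)) = pr φ (s.take k ++ [true]) := sn_pr _ _
        by_cases hc : fs (zk φ (s.take k)) ∈ ext V p ↔ sn (zk φ (s.take k)) ∈ ext V p
        · rw [hf, hg] at hc
          obtain ⟨b, hb⟩ := h9
          cases b
          · cases s.getD k false
            · exact hb
            · exact hc.1 hb
          · cases s.getD k false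
            · exact hc.2 hb
            · exact hb
        · have h10 := h2 _ hc _ h7
          rw [hf, hg] at h10
          revert h10
          cases s.getD k false
          · exact fun h => h
          · exact fun h => h
    obtain ⟨u, hu2, hu3, hu4⟩ := h4 s.length le_rfl
    rw [fs_pr] at hu2 hu4
    rw [sn_pr, List.take_length] at hu3
    have hu5 : s = u := hu3.eq_of_length_le (by omega)
    have h5 := (h3 s.length (by omega)).1
    rw [List.take_length, hu5] at h5
    exact h5 hu4

theorem selfred {A : List Bool → Bool} {V : List Bool → List Bool} (hV : PolyTimeRel A V)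
    (p : Polynomial ℕ) {N : Set (List Bool)} (hN : NPRel A N) (h1 : ∀ z, ∃ b : Bool, pr z [b] ∈ N)
    (h2 : ∀ z ∈ XL (ext V p), ∀ b : Bool, pr z [b] ∈ N → (if b then sn z else fs z) ∈ ext V p) :
    NPRel A (dom V p)ᶜ := by
  obtain ⟨kp, hkp, hkp'⟩ := FP.clock p
  -- the step, `w = pr (pr φ s) (un k)`
  have ht : FP (fun w => (sn (fs w)).take (sn w).length) := FP.take FP.snI FP.fsI.snd
  have hφ : FP (fun w => fs (fs w)) := FP.fsI.fst
  have hg : FP (fun w => pr (zk (fs (fs w)) ((sn (fs w)).take (sn w).length))
      [((sn (fs w)).drop (sn w).length).head?.getD false]) :=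
    ((hφ.pair (ht.app (FP.const [false]))).pair (hφ.pair (ht.app (FP.const [true])))).pair
      (FPb.hd.comp (FP.drop FP.snI FP.fsI.snd))
  have hW1 := np_orB (np_pre hN (PolyTimeRel.of_fp hg A))
    (c := fun w => !decide ((sn w).length < (sn (fs w)).length))
    (PolyTimeRel.of_fp (FPb.ltI FP.snI FP.fsI.snd).not A)
  have hW2 := np_andB hW1 (c := fun w =>
    !decide (V (pr (fs (fs w)) ((sn (fs w)).take (sn w).length)) = [true]))
    ((hV.pre (hφ.pair ht)).post (k := fun v => [!decide (v = [true])])
      (FPb.eq FP.id (FP.const _)).not)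
  have hW3 := np_all hW2 (c := fun w => true :: sn w) ((FP.cons true).comp FP.snI)
  have hW4 := np_andB hW3 (c := fun w => decide (un (sn w).length = un (kp (fs w)).length))
    (PolyTimeRel.of_fp (FPb.eq (FP.unL FP.snI) (FP.unL (hkp.comp FP.fsI))) A)
  have hW5 := np_ex hW4 p
  convert hW5 using 1
  ext φ
  rw [Set.mem_compl_iff, sr_claim p h1 h2 φ]
  simp only [Set.mem_ofPred_eq, fs_pr, sn_pr, un_length, hkp', decide_eq_true_eq,
    Bool.not_eq_true', decide_eq_false_iff_not, not_lt, un_eq_iff, List.length_cons]
  refine exists_congr fun s => ?_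
  have hd : ∀ k : ℕ, (s.drop k).head?.getD false = s.getD k false := by
    intro k
    rw [List.head?_drop, List.getD_eq_getElem?_getD]
  constructor
  · rintro ⟨h3, h4⟩
    refine ⟨h3.le, h3, fun k hk => ⟨(h4 k hk).1, ?_⟩⟩
    rcases lt_or_ge k s.length with h5 | h5
    · right
      rw [hd]
      exact (h4 k hk).2 h5
    · exact Or.inl h5
  · rintro ⟨-, h3, h4⟩
    refine ⟨h3, fun k hk => ⟨(h4 k hk).1, fun h5 => ?_⟩⟩
    rcases (h4 k hk).2 with h6 | h6
    · exact absurd h5 (not_lt.2 h6)
    · rw [hd] at h6
      exact h6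

end Pool.Agent.Work.MP_0532f7_lc.TP
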