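import Mathlib
import Pool.Agent.Work.MP_0532f7_lc.TP.Clo
import Pool.Agent.Work.MP_0532f7_lc.TP.CapF

/-!
# TP.WitNP (size M): the answers of a candidate in the continuations with a record form an NP set

`hybrid_run` (TD/Hybrid) with `B = ex N τ L m` and `ex_fp` (TD/ExFP): `w ↦ run (ZT A (ex N τ L m (fs w))) (sn w)` is
computable in polynomial time relative to `A`.

* `x'(z) = rdx A (ex N τ L m z) j κ (TD.reg N z) z` is computed from `z`: precompose with
  `z ↦ pr z (pr (num j) (pr (inpR (TD.reg N z) z) (un (bb κ (TD.reg N z)))))` (`reg_fp`, `bb_fp`, `FP.unL`), then `take`.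
* The verifier on `pr (pr z [b]) y` tests `|y| ≤ bb v |x'(z)|` and
  `run (ZT A (ex N τ L m z)) (pr (num (pe v)) (pr (pr x'(z) (b :: y)) (un (bb v |x'(z)|)))) = [true]`: compose
  `hybrid_run` with the function `pr (pr z [b]) y ↦ pr z (pr (num (pe v)) ..)` computed relative to `A`
  (`PolyTimeRel.comp`, `PolyTimeRel.pair`, `PolyTimeRel.post`).
* The set is stated for words `w = pr z c` and the bit `b = c.head?.getD false`; `|y| ≤ bb v (bb κ (TD.reg N z))` is
  polynomial in `|w|`.
-/

set_option autoImplicit false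

namespace Pool.Agent.Work.MP_0532f7_lc.TP

open Polynomial Pool.Agent.Work.MP_0532f7_lc.TD

theorem wit_np (A : List Bool → Bool) (N : ℕ) (τ : ℕ → Bool) (L : Finset ℕ) (m κ v j : ℕ) :
    NPRel A {w | wit (ZT A (ex N τ L m (fs w))) v ((sn w).head?.getD false)
      (rdx A (ex N τ L m (fs w)) j κ (TD.reg N (fs w)) (fs w))} := by
  have H0 : PolyTimeRel A (fun w => run (ZT A (ex N τ L m (fs w))) (sn w)) :=
    hybrid_run (B := fun z => ex N τ L m z) (ex_fp N τ L m)
  have hz : FP (fun u => fs (fs u)) := FP.fsI.fst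
  have hreg : FP (fun u => un (TD.reg N (fs (fs u)))) := reg_fp hz N
  have hbb : FP (fun u => un (bb κ (TD.reg N (fs (fs u))))) := by
    refine (bb_fp κ hreg).congr (fun x => ?_)
    rw [un_length]
  have hq : FP (fun u => pr (fs (fs u)) (pr (num j) (pr (inpR (TD.reg N (fs (fs u))) (fs (fs u)))
      (un (bb κ (TD.reg N (fs (fs u)))))))) :=
    hz.pair ((FP.const (num j)).pair ((hreg.pair (FP.unL hz)).pair hbb))
  have hx0 : PolyTimeRel A (fun u => run (ZT A (ex N τ L m (fs (fs u))))
      (pr (num j) (pr (inpR (TD.reg N (fs (fs u))) (fs (fs u)))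
        (un (bb κ (TD.reg N (fs (fs u)))))))) := by
    have h := H0.pre hq
    simp only [fs_pr, sn_pr] at h
    exact h
  have hx : PolyTimeRel A (fun u => rdx A (ex N τ L m (fs (fs u))) j κ (TD.reg N (fs (fs u)))
      (fs (fs u))) := by
    have h := (hx0.pair (PolyTimeRel.of_fp hbb A)).post (FP.take FP.snI FP.fsI)
    simp only [fs_pr, sn_pr, un_length] at h
    exact h
  have hxb := hx.pair (PolyTimeRel.of_fp FP.id A)
  have hG : FP (fun t => pr (fs (fs (sn t))) (pr (num (pe v)) (pr (pr (fs t)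
      ((sn (fs (sn t))).head?.getD false :: sn (sn t))) (un (bb v (fs t).length))))) :=
    FP.snI.fst.fst.pair ((FP.const _).pair ((FP.fsI.pair
      (FP.consb (FPb.hd.comp FP.snI.fst.snd) FP.snI.snd)).pair (bb_fp v FP.fsI)))
  have hR := H0.comp (hxb.post hG)
  simp only [fs_pr, sn_pr] at hR
  have hc : FP (fun t => [decide ((sn (sn t)).length < (true :: un (bb v (fs t).length)).length)]) :=
    FPb.ltI FP.snI.snd ((FP.cons true).comp (bb_fp v FP.fsI))
  have hT := hxb.post hc
  simp only [fs_pr, sn_pr] at hT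
  have hV := PolyTimeRel.iteb hT hR (PolyTimeRel.of_fp FP.nil A)
  refine ⟨_, hV, (((Polynomial.X + C ((N + 1) ^ 3) + 1) ^ κ + C κ) + 1) ^ v + C v, fun w => ?_⟩
  have hP : ((((Polynomial.X + C ((N + 1) ^ 3) + 1) ^ κ + C κ) + 1) ^ v + C v :
      Polynomial ℕ).eval w.length = bb v (bb κ (w.length + (N + 1) ^ 3)) := by
    simp only [eval_add, eval_pow, eval_X, eval_C, eval_one]
    rfl
  rw [hP]
  simp only [fs_pr, sn_pr, Set.mem_ofPred_eq, decide_eq_true_eq, List.length_cons, un_length,
    Nat.lt_succ_iff]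
  have hlen : (rdx A (ex N τ L m (fs w)) j κ (TD.reg N (fs w)) (fs w)).length ≤
      bb κ (w.length + (N + 1) ^ 3) := by
    unfold rdx
    refine (List.length_take_le _ _).trans (TD.bb_mono le_rfl ?_)
    unfold TD.reg
    have := fs_length w
    omega
  have hle : bb v (rdx A (ex N τ L m (fs w)) j κ (TD.reg N (fs w)) (fs w)).length ≤
      bb v (bb κ (w.length + (N + 1) ^ 3)) := TD.bb_mono le_rfl hlen
  unfold wit witr
  constructor
  · rintro ⟨y, hy1, hy2⟩
    refine ⟨y, hy1.trans hle, ?_⟩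
    rw [if_pos hy1]
    exact hy2
  · rintro ⟨y, -, hy2⟩
    by_cases h : y.length ≤ bb v (rdx A (ex N τ L m (fs w)) j κ (TD.reg N (fs w)) (fs w)).length
    · rw [if_pos h] at hy2
      exact ⟨y, h, hy2⟩
    · rw [if_neg h] at hy2
      exact absurd hy2 (by simp)

end Pool.Agent.Work.MP_0532f7_lc.TP
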