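import Mathlib
import Pool.Agent.Work.MP_0532f7_lc.TP.SelfRed
import Pool.Agent.Work.MP_0532f7_lc.TP.BadLoc
import Pool.Agent.Work.MP_0532f7_lc.TP.WitNP

/-!
# TP.HardR (size S-M): hard records for candidates of the kinds 1 and 2

Suppose that for every true record `z` all answers `b` of `v` at `x'(z) = rdx A (ex N τ L m z) j κ (TD.reg N z) z` are
correct.  Apply `selfred` to the set `N'` of `WitNP`:

* `h1`: for every `z` the candidate `v` is not bad at `x'(z)` relative to `ZT A (ex N τ L m z)`, because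
  `|x'(z)| ≤ bb κ (TD.reg N z)`, so `P.eval (LB v |x'(z)|) < MT P m κ (TD.reg N z)` (`LB_mono`, `pmono`); for the kinds 1 and
  2 this gives an answer `b`.
* `h2`: the assumption.

So `(dom V p)ᶜ` is in NP, contradiction.
-/

set_option autoImplicit false

namespace Pool.Agent.Work.MP_0532f7_lc.TP

open Polynomial Pool.Agent.Work.MP_0532f7_lc.TD

theorem hard_R {A : List Bool → Bool} {P : Polynomial ℕ} {V : List Bool → List Bool}
    (hV : PolyTimeRel A V) (p : Polynomial ℕ) (hn : ¬ NPRel A (dom V p)ᶜ)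
    {N : ℕ} {τ : ℕ → Bool} {L : Finset ℕ} {m κ v : ℕ} (j : ℕ) (hvm : v ≤ m)
    (hk : kd v = 1 ∨ kd v = 2)
    (hs : ∀ z, ¬ UT A P v (MT P m κ (TD.reg N z)) (ex N τ L m z)) :
    ∃ z ∈ XL (ext V p), ∃ b : Bool,
      wit (ZT A (ex N τ L m z)) v b (rdx A (ex N τ L m z) j κ (TD.reg N z) z) ∧
        (if b then sn z else fs z) ∉ ext V p := by
  by_contra hcon
  push Not at hcon
  refine hn (selfred hV p (wit_np A N τ L m κ v j) ?_ ?_)
  · intro z
    have hlen : (rdx A (ex N τ L m z) j κ (TD.reg N z) z).length ≤ bb κ (TD.reg N z) := by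
      unfold rdx
      rw [List.length_take]
      exact min_le_left _ _
    have hb : ¬ Bad (ZT A (ex N τ L m z)) v (rdx A (ex N τ L m z) j κ (TD.reg N z) z) := by
      intro hb
      refine hs z ⟨_, ?_, hb⟩
      unfold MT
      refine Nat.lt_succ_of_le (le_trans ?_ (Nat.le_add_right _ _))
      exact pmono P ((LB_mono hvm hlen).trans (Nat.le_add_right _ _))
    have key : ∀ b : Bool, wit (ZT A (ex N τ L m z)) v b
        (rdx A (ex N τ L m z) j κ (TD.reg N z) z) →
        pr z [b] ∈ {w | wit (ZT A (ex N τ L m (fs w))) v ((sn w).head?.getD false)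
          (rdx A (ex N τ L m (fs w)) j κ (TD.reg N (fs w)) (fs w))} := by
      intro b h
      rw [Set.mem_ofPred_eq, fs_pr, sn_pr]
      exact h
    by_cases h : wit (ZT A (ex N τ L m z)) v false (rdx A (ex N τ L m z) j κ (TD.reg N z) z)
    · exact ⟨false, key false h⟩
    · refine ⟨true, key true ?_⟩
      by_contra h3
      apply hb
      rcases hk with hk | hk
      · exact Or.inr (Or.inl ⟨hk, iff_of_false h h3⟩)
      · exact Or.inr (Or.inr ⟨hk, h, h3⟩)
  · intro z hz b hb
    refine hcon z hz b ?_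
    rw [Set.mem_ofPred_eq, fs_pr, sn_pr] at hb
    exact hb

end Pool.Agent.Work.MP_0532f7_lc.TP
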