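import Mathlib
import Pool.Agent.Work.MP_0532f7_lc.TP.BadLoc
import Pool.Agent.Work.MP_0532f7_lc.TP.HardO
import Pool.Agent.Work.MP_0532f7_lc.TP.HardR

/-!
# TP.ParA (size S-M): the parameters satisfy the assumptions `Par` (TD/InDefs) of the construction

* `umono`: clear.  `uloc`: `UT_loc`.  `mbig`: `MT` contains the square and `+ 1`.
* `mmono`: `pmono`, `LB_mono`, `bb_mono` (TD/ParC), `Nat.pow_le_pow_left`.
* `hloc`: `τ`, `τ'` agree below `MT P m κ n`.  The first three clauses do not depend on `τ`.  Kind 0: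
  `|x| ≤ bb κ n`, `cv κ ≤ m`, so `LB (cv κ) |x| ≤ LB m (bb κ n)`, `cr_loc` with `pmono`.  Kinds 1, 2: `rdx_loc`
  (`z.length ≤ n` is a clause, `cj κ ≤ κ` by `Nat.unpair_right_le`) and `wit_loc`, since
  `|rdx ..| ≤ bb κ n` (`List.length_take_le`).
* `hhard`: `v = cv κ`.  If `v ∉ L` or `m < v` or `kd v ≥ 3`: every true record `z` works, one exists
  (`z = pr z1 z0` with `z1 ∈ ext V p`, `z0 ∉ ext V p`; if `ext V p` is empty or everything then `dom V p` is
  empty or everything (`w ∈ dom V p ↔ pr w [] ∈ ext V p`) and so its complement is in NP).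
  Otherwise `v ∈ L`, `v ≤ m` and the hypothesis says that no record kills `v`: `hard_O` (kind 0), `hard_R`
  (kinds 1, 2, `j = cj κ`).
-/

set_option autoImplicit false

namespace Pool.Agent.Work.MP_0532f7_lc.TP

open Polynomial Pool.Agent.Work.MP_0532f7_lc.TD

private theorem pa_lb {P : Polynomial ℕ} {v m κ n k : ℕ} (hv : v ≤ m) (hk : k ≤ bb κ n) :
    P.eval (LB v k) < MT P m κ n := by
  have h1 := LB_mono hv hk
  have h2 := pmono P (by omega : LB v k ≤ LB m (bb κ n) + (2 * κ + 6 * n + 3 * bb κ n + 6))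
  unfold MT
  omega

private theorem pa_np_univ (A : List Bool → Bool) : NPRel A Set.univ := by
  refine ⟨fun _ => [true], PolyTimeRel.of_fp (FP.const [true]) A, 0, fun z => ?_⟩
  constructor
  · intro _
    exact ⟨[], Nat.zero_le _, rfl⟩
  · intro _
    trivial

private theorem pa_np_empty (A : List Bool → Bool) : NPRel A ∅ := by
  refine ⟨fun _ => [], PolyTimeRel.of_fp (FP.const []) A, 0, fun z => ?_⟩
  constructor
  · intro h
    exact h.elim
  · rintro ⟨y, -, hy⟩
    exact absurd hy (by simp)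

private theorem pa_dom {V : List Bool → List Bool} {p : Polynomial ℕ} {w : List Bool} :
    w ∈ dom V p ↔ pr w [] ∈ ext V p := by
  unfold dom ext
  simp only [Set.mem_ofPred_eq, fs_pr, sn_pr, List.nil_prefix, true_and]

private theorem pa_ex {A : List Bool → Bool} {V : List Bool → List Bool} {p : Polynomial ℕ}
    (hn : ¬ NPRel A (dom V p)ᶜ) : ∃ z, z ∈ XL (ext V p) := by
  have h1 : ∃ z, z ∈ ext V p := by
    by_contra h
    push Not at h
    apply hn
    have : (dom V p)ᶜ = Set.univ := by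
      ext w
      simp only [Set.mem_compl_iff, Set.mem_univ, iff_true, pa_dom]
      exact h _
    rw [this]
    exact pa_np_univ A
  have h2 : ∃ z, z ∉ ext V p := by
    by_contra h
    push Not at h
    apply hn
    have : (dom V p)ᶜ = ∅ := by
      ext w
      simp only [Set.mem_compl_iff, Set.mem_empty_iff_false, iff_false, pa_dom, not_not]
      exact h _
    rw [this]
    exact pa_np_empty A
  obtain ⟨z1, h1⟩ := h1
  obtain ⟨z0, h2⟩ := h2
  refine ⟨pr z1 z0, ?_⟩
  unfold XL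
  simp only [Set.mem_ofPred_eq, fs_pr, sn_pr]
  exact fun h => h2 (h.mp h1)

theorem par_T {A : List Bool → Bool} {P : Polynomial ℕ} (hP : RunLoc P)
    {V : List Bool → List Bool} (hV : PolyTimeRel A V) (p : Polynomial ℕ)
    (hn : ¬ NPRel A (dom V p)ᶜ) {tf : List Bool → List Bool} (htf : FP tf)
    (ht : ∀ (B : List Bool → Bool) (z : List Bool), tf z ∈ OTAUT (ojoin A B) ↔
      ¬ (fs z ∈ ext V p ∧ sn z ∈ ext V p)) :
    Par (UT A P) (XL (ext V p)) (MT P) (HT A tf (ext V p)) := by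
  refine ⟨?_, ?_, ?_, ?_, ?_, ?_⟩
  · rintro v s s' τ hs ⟨x, h1, h2⟩
    exact ⟨x, by omega, h2⟩
  · intro v s τ τ' h hU
    exact UT_loc hP h hU
  · intro m k n
    unfold MT
    omega
  · intro m m' k k' n n' hm hk hn'
    unfold MT
    have h1 := TD.bb_mono hk hn'
    have h0 := LB_mono hm h1
    have h2 := pmono P (by omega : LB m (bb k n) + (2 * k + 6 * n + 3 * bb k n + 6) ≤
      LB m' (bb k' n') + (2 * k' + 6 * n' + 3 * bb k' n' + 6))
    have h3 : (4 * m + 2 * n + 6) ^ 2 ≤ (4 * m' + 2 * n' + 6) ^ 2 :=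
      Nat.pow_le_pow_left (by omega) 2
    omega
  · rintro m k n L τ τ' z h ⟨hv, hvm, hz, hc⟩
    refine ⟨hv, hvm, hz, ?_⟩
    rcases hc with ⟨hk, x, hx, he⟩ | ⟨hk, hb⟩
    · refine Or.inl ⟨hk, x, hx, ?_⟩
      rw [(cr_loc hP (v := cv k) (x := x) (τ := τ) (τ' := τ')
        (fun j hj => h j (hj.trans (pa_lb hvm hx)))).1]
      exact he
    · refine Or.inr ⟨hk, fun b hw => hb b ?_⟩
      have hj : cj k ≤ k := by
        unfold cj
        exact (Nat.unpair_right_le _).trans (Nat.unpair_right_le _)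
      have hr : rdx A τ' (cj k) k n z = rdx A τ (cj k) k n z := by
        refine rdx_loc hP hz hj fun i hi => h i ?_
        have h2 := pmono P (by omega : 2 * k + 6 * n + 3 * bb k n + 6 ≤
          LB m (bb k n) + (2 * k + 6 * n + 3 * bb k n + 6))
        unfold MT
        omega
      rw [hr] at hw
      refine (wit_loc hP (v := cv k) (τ := τ) (τ' := τ') fun j hj => h j ?_).mp hw
      refine hj.trans (pa_lb hvm ?_)
      unfold rdx
      exact List.length_take_le _ _
  · intro N τ L m k hs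
    by_cases hL : cv k ∈ L ∧ cv k ≤ m ∧ (kd (cv k) = 0 ∨ kd (cv k) = 1 ∨ kd (cv k) = 2)
    · obtain ⟨hL, hvm, hk⟩ := hL
      rcases hk with hk | hk
      · obtain ⟨z, hz, hz2⟩ := hard_O (A := A) (P := P) (κ := k) (N := N) (τ := τ) (L := L)
          (m := m) (v := cv k) p hn htf ht hvm hk (fun z => hs z _ hL hvm)
        refine ⟨z, hz, ?_⟩
        rintro ⟨-, -, -, ⟨-, hx⟩ | ⟨hk', -⟩⟩
        · exact hz2 hx
        · omega
      · obtain ⟨z, hz, b, hb1, hb2⟩ := hard_R (A := A) (P := P) (κ := k) (N := N) (τ := τ)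
          (L := L) (m := m) (v := cv k) hV p hn (cj k) hvm hk (fun z => hs z _ hL hvm)
        refine ⟨z, hz, ?_⟩
        rintro ⟨-, -, -, ⟨hk', -⟩ | ⟨-, hx⟩⟩
        · omega
        · exact hb2 (hx b hb1)
    · obtain ⟨z, hz⟩ := pa_ex hn
      refine ⟨z, hz, ?_⟩
      rintro ⟨h1, h2, -, ⟨hk, -⟩ | ⟨hk, -⟩⟩
      · exact hL ⟨h1, h2, Or.inl hk⟩
      · exact hL ⟨h1, h2, Or.inr hk⟩

end Pool.Agent.Work.MP_0532f7_lc.TP
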