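import Mathlib
import Pool.Agent.Work.MP_0532f7_lc.TP.VCode
import Pool.Agent.Work.MP_0532f7_lc.TP.Clo

/-!
# TP.KComp (size S-M): the canonical NP-complete set and its witnesses

`KN X` is the set of all `u = pr c (pr x t)` such that some `y` with `|y| ≤ |t|` has `run X (pr c (pr (pr x y) t)) = [true]`.
* `KN_np`: verifier with the test `|y| ≤ |t|` (`FPb.ltI`), bound `X` (the polynomial), `PolyTimeRel.run`.
* `KN_red`: `V` computes a verifier, `p` a bound.  Let `g (pr x y) = [true]` iff `|y| ≤ p (|x|)` and `V (pr x y) = [true]`, else `[false]`;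
  `run_any` (TP/VCode) gives `c`, `P0`; let `t = un (P0 (2 |x| + 1 + p |x|) + p |x|)`.  As for `vcode`: the result of a run is `g` or
  `oTop.code ≠ [true]`, so the witnesses are exactly the words `y` with `|y| ≤ p (|x|)` and `V (pr x y) = [true]`.
-/

set_option autoImplicit false

namespace Pool.Agent.Work.MP_0532f7_lc.TP

open Polynomial Pool.Agent.Work.MP_0532f7_lc.TD

/-- `y` is a witness for `u = pr c (pr x t)` -/
def KW (X : List Bool → Bool) (u y : List Bool) : Prop :=
  y.length ≤ (sn (sn u)).length ∧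
    run X (pr (fs u) (pr (pr (fs (sn u)) y) (sn (sn u)))) = [true]

/-- the canonical NP-complete set -/
def KN (X : List Bool → Bool) : Set (List Bool) := {u | ∃ y, KW X u y}

theorem KW_ptr (X : List Bool → Bool) : ∃ b : List Bool → Bool,
    PolyTimeRel X (fun w => [b w]) ∧ ∀ u y, b (pr u y) = true ↔ KW X u y := by
  have h1 : PolyTimeRel X (fun w => run X
      (pr (fs (fs w)) (pr (pr (fs (sn (fs w))) (sn w)) (sn (sn (fs w)))))) :=
    (PolyTimeRel.run X).pre (k := fun w => pr (fs (fs w)) (pr (pr (fs (sn (fs w))) (sn w))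
      (sn (sn (fs w))))) (FP.fsI.fst.pair ((FP.fsI.snd.fst.pair FP.snI).pair FP.fsI.snd.snd))
  have h2 := ((PolyTimeRel.of_fp FP.id X).pair h1).post
    (k := fun v => [!decide ((sn (sn (fs (fs v)))).length < (sn (fs v)).length) &&
      decide (sn v = [true])])
    ((FPb.ltI FP.fsI.fst.snd.snd FP.fsI.snd).not.and (FPb.eq FP.snI (FP.const _)))
  simp only [fs_pr, sn_pr] at h2
  refine ⟨_, h2, fun u y => ?_⟩
  unfold KW
  simp only [fs_pr, sn_pr, Bool.and_eq_true, decide_eq_true_eq, Bool.not_eq_true',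
    decide_eq_false_iff_not, not_lt]

theorem KN_np (X : List Bool → Bool) : NPRel X (KN X) := by
  obtain ⟨b, hb, hb'⟩ := KW_ptr X
  refine ⟨_, hb, Polynomial.X, fun u => ?_⟩
  rw [eval_X]
  constructor
  · rintro ⟨y, hy⟩
    refine ⟨y, (hy.1.trans (sn_length _)).trans (sn_length _), ?_⟩
    rw [(hb' u y).mpr hy]
  · rintro ⟨y, -, hy⟩
    exact ⟨y, (hb' u y).mp (by simpa using hy)⟩

theorem KN_red {X : List Bool → Bool} {V : List Bool → List Bool} (hV : PolyTimeRel X V)
    (p : Polynomial ℕ) : ∃ r, FP r ∧ ∀ x y, KW X (r x) y ↔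
      y.length ≤ p.eval x.length ∧ V (pr x y) = [true] := by
  obtain ⟨pk, hpk, hpk'⟩ := FP.clock p
  have h1 : PolyTimeRel X (fun w => [!decide ((pk (fs w)).length < (sn w).length) &&
      decide (V w = [true])]) := by
    have h2 := ((PolyTimeRel.of_fp FP.id X).pair hV).post
      (k := fun v => [!decide ((pk (fs (fs v))).length < (sn (fs v)).length) &&
        decide (sn v = [true])])
      ((FPb.ltI (hpk.comp FP.fsI.fst) FP.fsI.snd).not.and (FPb.eq FP.snI (FP.const _)))
    simpa only [fs_pr, sn_pr] using h2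
  obtain ⟨c, P0, hc⟩ := run_any h1
  obtain ⟨k, hk, hk'⟩ := FP.clock (P0.comp (2 * Polynomial.X + 1 + p) + p)
  have hot : oTop.code ≠ [true] := by
    decide
  have he : ∀ x y, ([!decide ((pk (fs (pr x y))).length < (sn (pr x y)).length) &&
      decide (V (pr x y) = [true])] = [true]) ↔
      y.length ≤ p.eval x.length ∧ V (pr x y) = [true] := by
    intro x y
    simp only [fs_pr, sn_pr, List.cons.injEq, and_true, Bool.and_eq_true, decide_eq_true_eq,
      Bool.not_eq_true', decide_eq_false_iff_not, not_lt, hpk']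
  refine ⟨fun x => pr c (pr x (k x)), (FP.const c).pair (FP.id.pair hk), fun x y => ?_⟩
  unfold KW
  simp only [fs_pr, sn_pr]
  rw [hk']
  have hev : (P0.comp (2 * Polynomial.X + 1 + p) + p).eval x.length =
      P0.eval (2 * x.length + 1 + p.eval x.length) + p.eval x.length := by
    simp only [eval_add, eval_mul, eval_comp, eval_X, eval_ofNat, eval_one]
  rw [hev]
  constructor
  · rintro ⟨h3, h4⟩
    rcases (hc (pr x y) (k x)).2 with h5 | h5
    · rw [h5] at h4
      exact (he x y).mp h4
    · exact absurd (h5.symm.trans h4) hot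
  · rintro ⟨h3, h4⟩
    refine ⟨by omega, ?_⟩
    rw [(hc (pr x y) (k x)).1]
    · exact (he x y).mpr ⟨h3, h4⟩
    · rw [hk', hev, pr_length]
      have := pmono P0 (show 2 * x.length + 1 + y.length ≤ 2 * x.length + 1 + p.eval x.length by
        omega)
      omega

end Pool.Agent.Work.MP_0532f7_lc.TP
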