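import Mathlib
import Pool.Agent.Work.MP_0532f7_lc.TP.KComp

/-!
# TP.PosN (size S): NP = coNP relative to X: complete objects exist

* `pos_N`: `L = KN X`: in NP by `KN_np`, in coNP by `hX`; every `L'` in NP reduces to it by `KN_red`.
* `pos_F`: the complement of `KN X` is in NP (`hX`, `NPRel.compl`, `CoNPRel.compl`); let `V1`, `p1` be its verifier and bound.
  `R u = {false :: y | KW X u y} ∪ {true :: y | |y| ≤ p1 (|u|), V1 (pr u y) = [true]}`.  TFNP: verifier by `KW_ptr`, bound
  `X + p1 + 1`.  Complete: for `R'` with verifier `V'` and bound `p'` take `r` from `KN_red`, `s (pr x y') = y'.tail`: since `R' x` is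
  nonempty, `r x ∈ KN X`, so no solution of `r x` begins with `true`.
-/

set_option autoImplicit false

namespace Pool.Agent.Work.MP_0532f7_lc.TP

open Polynomial Pool.Agent.Work.MP_0532f7_lc.TD

theorem pos_N {X : List Bool → Bool} (hX : NPeqCoNP X) : ∃ L, CompleteNPcoNP X L := by
  refine ⟨KN X, ⟨KN_np X, (hX _).mp (KN_np X)⟩, fun L' hL' _ => ?_⟩
  obtain ⟨V, hV, p, hp⟩ := hL'
  obtain ⟨r, hr, hr'⟩ := KN_red hV p
  refine ⟨r, PolyTimeRel.of_fp hr X, fun x => ?_⟩
  rw [hp]
  exact exists_congr fun y => (hr' x y).symm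

/-- solutions: a witness, or a proof that there is none -/
private def RR (X : List Bool → Bool) (V1 : List Bool → List Bool) (p1 : Polynomial ℕ)
    (u : List Bool) : Set (List Bool) :=
  {y | (∃ y', y = false :: y' ∧ KW X u y') ∨
    ∃ y', y = true :: y' ∧ y'.length ≤ p1.eval u.length ∧ V1 (pr u y') = [true]}

private theorem RR_ptr {X : List Bool → Bool} {V1 : List Bool → List Bool}
    (hV1 : PolyTimeRel X V1) (p1 : Polynomial ℕ) :
    ∃ V : List Bool → List Bool, PolyTimeRel X V ∧ ∃ p : Polynomial ℕ, ∀ x y,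
      y ∈ RR X V1 p1 x ↔ y.length ≤ p.eval x.length ∧ V (pr x y) = [true] := by
  obtain ⟨b, hb, hb'⟩ := KW_ptr X
  obtain ⟨pk, hpk, hpk'⟩ := FP.clock p1
  have htl : FP (fun w => pr (fs w) (sn w).tail) := FP.fsI.pair (FP.tail.comp FP.snI)
  have h3 : PolyTimeRel X (fun w => V1 (pr (fs w) (sn w).tail)) := hV1.pre htl
  have h4 : PolyTimeRel X (fun w => [b (pr (fs w) (sn w).tail)]) := hb.pre htl
  have h5 := ((PolyTimeRel.of_fp FP.id X).pair (h3.pair h4)).post
    (k := fun v => [!(sn (fs v)).isEmpty && (if (sn (fs v)).head?.getD false then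
      (!decide ((pk (fs (fs v))).length < (sn (fs v)).tail.length) &&
        decide (fs (sn v) = [true])) else decide (sn (sn v) = [true]))])
    ((FPb.isNil.comp FP.fsI.snd).not.and (FPb.ite (FPb.hd.comp FP.fsI.snd)
      ((FPb.ltI (hpk.comp FP.fsI.fst) (FP.tail.comp FP.fsI.snd)).not.and
        (FPb.eq FP.snI.fst (FP.const _))) (FPb.eq FP.snI.snd (FP.const _))))
  simp only [fs_pr, sn_pr] at h5
  refine ⟨_, h5, Polynomial.X + p1 + 1, fun x y => ?_⟩
  unfold RR
  rw [Set.mem_ofPred_eq]
  simp only [fs_pr, sn_pr, eval_add, eval_X, eval_one]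
  rcases y with _ | ⟨a, y'⟩
  · simp
  · cases a
    · have h6 : KW X x y' → y'.length ≤ x.length := fun h =>
        (h.1.trans (sn_length _)).trans (sn_length _)
      simp only [List.cons.injEq, true_and, exists_eq_left', Bool.false_eq_true, false_and,
        exists_false, or_false, List.isEmpty_cons, Bool.not_false, Bool.true_and,
        List.head?_cons, Option.getD_some, if_false, List.tail_cons, and_true,
        decide_eq_true_eq, List.length_cons, hb']
      constructor
      · intro h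
        exact ⟨by have := h6 h; omega, h⟩
      · exact fun h => h.2
    · simp only [List.cons.injEq, true_and, exists_eq_left', Bool.true_eq_false, false_and,
        exists_false, false_or, List.isEmpty_cons, Bool.not_false, Bool.true_and,
        List.head?_cons, Option.getD_some, if_true, List.tail_cons, and_true,
        decide_eq_true_eq, List.length_cons, Bool.and_eq_true, Bool.not_eq_true',
        decide_eq_false_iff_not, not_lt, hpk']
      constructor
      · intro h
        exact ⟨by have := h.1; omega, h⟩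
      · exact fun h => h.2

theorem pos_F {X : List Bool → Bool} (hX : NPeqCoNP X) : ∃ R, CompleteTFNP X R := by
  obtain ⟨V1, hV1, p1, h1⟩ := CoNPRel.compl ((hX _).mp (KN_np X))
  refine ⟨RR X V1 p1, ⟨RR_ptr hV1 p1, fun u => ?_⟩, fun R' hR' => ?_⟩
  · by_cases hu : u ∈ KN X
    · obtain ⟨y, hy⟩ := hu
      exact ⟨false :: y, Or.inl ⟨y, rfl, hy⟩⟩
    · obtain ⟨y, hy⟩ := (h1 u).mp hu
      exact ⟨true :: y, Or.inr ⟨y, rfl, hy⟩⟩
  · obtain ⟨⟨V', hV', p', h'⟩, htot⟩ := hR'
    obtain ⟨r, hr, hr'⟩ := KN_red hV' p'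
    refine ⟨r, fun w => (sn w).tail, PolyTimeRel.of_fp hr X,
      PolyTimeRel.of_fp (FP.tail.comp FP.snI) X, fun x y hy => ?_⟩
    beta_reduce
    rw [sn_pr, h']
    rcases hy with ⟨y', rfl, hy⟩ | ⟨y', rfl, hy⟩
    · exact (hr' x y').mp hy
    · exfalso
      have h2 : r x ∈ (KN X)ᶜ := (h1 _).mpr ⟨y', hy⟩
      obtain ⟨z, hz⟩ := htot x
      exact h2 ⟨z, (hr' x z).mpr ((h' x z).mp hz)⟩

end Pool.Agent.Work.MP_0532f7_lc.TP
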