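import Mathlib
import Pool.Agent.Work.MP_0532f7_lc.TP.CapF

/-!
# TP.PolM (size S): the regions have polynomial size for fixed slot and exponent

`MT P v B ((r + n + 1) ^ 2)` is a polynomial expression in `n`: `bb v (bb B n')` with fixed exponents.  Build the
polynomial with `X`, `C`, `comp` (as in `fstar_sim`, TD/FStar): `bbp k := (X + 1) ^ k + C k` has
`(bbp k).eval n = bb k n`; `simp only [eval_add, eval_mul, eval_comp, eval_pow, ...]`.
-/

set_option autoImplicit false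

namespace Pool.Agent.Work.MP_0532f7_lc.TP

open Polynomial Pool.Agent.Work.MP_0532f7_lc.TD

theorem MT_poly (P : Polynomial ℕ) (v B r : ℕ) : ∃ q : Polynomial ℕ, ∀ n,
    MT P v B ((r + n + 1) ^ 2) ≤ q.eval n := by
  obtain ⟨nn, hnn⟩ : ∃ q : Polynomial ℕ, q = (C r + X + 1) ^ 2 := ⟨_, rfl⟩
  obtain ⟨bq, hbq⟩ : ∃ q : Polynomial ℕ, q = (nn + 1) ^ B + C B := ⟨_, rfl⟩
  have e1 : ∀ n, nn.eval n = (r + n + 1) ^ 2 := by
    intro n
    rw [hnn]
    simp only [eval_pow, eval_add, eval_C, eval_X, eval_one]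
  have e2 : ∀ n, bq.eval n = bb B ((r + n + 1) ^ 2) := by
    intro n
    rw [hbq]
    simp only [eval_pow, eval_add, eval_C, eval_one, e1, bb]
  refine ⟨P.comp ((C (2 * v) + 4 * bq + 3 * ((bq + 1) ^ v + C v) + 6) +
    (C (2 * B) + 6 * nn + 3 * bq + 6)) + (C (4 * v) + 2 * nn + 6) ^ 2 + 1, fun n => le_of_eq ?_⟩
  simp only [MT, LB, eval_add, eval_comp, eval_mul, eval_pow, eval_C, eval_one, eval_ofNat, e1, e2]
  rw [show bb v (bb B ((r + n + 1) ^ 2)) = (bb B ((r + n + 1) ^ 2) + 1) ^ v + v from rfl]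

end Pool.Agent.Work.MP_0532f7_lc.TP
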