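import Mathlib
import Pool.Agent.Work.MP_0532f7_lc.TD.Red
import Pool.Agent.Work.MP_0532f7_lc.TP.PolM

/-!
# TP.RedT (size M): the reduction, general form

Copy of TD/Red (`red_exists`) with two changes.

(1) Exponents.  `slot t = (Nat.unpair t).1`; with `kk = ρ y (slot t) t` and the target `q = (Nat.unpair (Nat.unpair t).2).1`
the exponent of the task `t` is `κ y t = Nat.pair kk (min q kk)`.  Continuity of `F y = T (κ y)` as in `red_exists`
(the function of the finitely many values `ρ y (slot t) t`, `t ≤ i`).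

(2) Conclusions.
Case `y ∈ S'`: `a` with `ρ y m` bounded by `Bm m` for all `m ≥ a`.  `in_sound` gives `s0` and `Perm.snd`.  `Perm.pol`: let `v` be
never wrong; for `a ≤ slot t ≤ v` we have `ρ y (slot t) t ≤ B0 := sup_(m ≤ v) Bm m`, so `κ y t < (B0 + 1) ^ 2`
(`Nat.pair_lt_max_add_one_sq`); `in_perm` with `B = (B0 + 1) ^ 2` gives `n0`; use `MT_poly` with `r = rowP a v` at `n + n0`
(polynomial `q.comp (X + C n0)`).
Case `y ∉ S'`: `VRec` is `in_rec`.  `HRec`: given `i` take `m ≥ i` with `ρ y m` unbounded; given `v`, `j`, `B`: `in_hard` gives `t0`;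
let `q = Nat.pair v j`; take `n1` with `max B q ≤ ρ y m n1` and `t = Nat.pair m (Nat.pair q (n1 + t0 + B))`; then
`t ≥ n1, t0, B`, `ρ y m t ≥ max B q` by monotonicity, `κ y t = Nat.pair kk q ≥ kk ≥ B`, `cv (κ y t) = v`, `cj (κ y t) = j`.
-/

set_option autoImplicit false

namespace Pool.Agent.Work.MP_0532f7_lc.TP

open Polynomial Pool.Agent.Work.MP_0532f7_lc.TD

theorem red_T {A : List Bool → Bool} {P : Polynomial ℕ} {L1 : Set (List Bool)}
    {tf : List Bool → List Bool} (hP : Par (UT A P) (XL L1) (MT P) (HT A tf L1))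
    {S' : Set (ℕ → Bool)} (hS : SigmaSet 3 S') :
    ∃ F : (ℕ → Bool) → ℕ → Bool, Continuous F ∧
      (∀ y ∈ S', ∃ a s0, Perm A P (F y) a s0) ∧ ∀ y ∉ S', VRec L1 (F y) ∧ HRec A P tf L1 (F y) := by
  obtain ⟨U, hU, hSU⟩ := sig_three hS
  obtain ⟨ρ, hc, hmono, hin, hout⟩ := columns hU
  rw [← hSU] at hin hout
  obtain ⟨S, T, hrun, hloc⟩ := run_exists hP (fun t => (Nat.unpair t).1)
  obtain ⟨κ, hκ⟩ : ∃ κ : (ℕ → Bool) → ℕ → ℕ, ∀ y t, κ y t =
      Nat.pair (ρ y (Nat.unpair t).1 t)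
        (min (Nat.unpair (Nat.unpair t).2).1 (ρ y (Nat.unpair t).1 t)) :=
    ⟨_, fun _ _ => rfl⟩
  refine ⟨fun y => T (κ y), ?_, ?_, ?_⟩
  · refine continuous_pi fun i => ?_
    let G : (Fin (i + 1) → ℕ) → Bool := fun f => T (fun t => if h : t < i + 1 then
      Nat.pair (f ⟨t, h⟩) (min (Nat.unpair (Nat.unpair t).2).1 (f ⟨t, h⟩)) else 0) i
    have e : (fun y : ℕ → Bool => T (κ y) i) =
        fun y => G (fun t => ρ y (Nat.unpair t.1).1 t.1) := by
      funext y
      refine hloc _ _ i fun t ht => ?_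
      rw [dif_pos (by omega), hκ]
    rw [e]
    have h1 : Continuous G := continuous_of_discreteTopology
    have h2 : Continuous (fun (y : ℕ → Bool) (t : Fin (i + 1)) => ρ y (Nat.unpair t.1).1 t.1) :=
      continuous_pi fun t => hc _ _
    exact h1.comp h2
  · intro y hy
    obtain ⟨a, ha⟩ := hin y hy
    have hR := hrun (κ y)
    obtain ⟨s0, hs0⟩ := in_sound hP hR a
    refine ⟨a, s0, hs0, fun v hv => ?_⟩
    choose! Bm hBm using ha
    obtain ⟨B0, hB0⟩ : ∃ B0, B0 = (Finset.range (v + 1)).sup Bm := ⟨_, rfl⟩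
    obtain ⟨n0, hn0⟩ := in_perm hP hR a v ((B0 + 1) ^ 2) (fun t h1 h2 => by
      have h3 : ρ y (Nat.unpair t).1 t ≤ B0 := by
        rw [hB0]
        exact (hBm _ h1 t).trans (Finset.le_sup (f := Bm) (Finset.mem_range.mpr (by omega)))
      rw [hκ]
      refine (Nat.pair_lt_max_add_one_sq _ _).le.trans ?_
      refine Nat.pow_le_pow_left (Nat.succ_le_succ (max_le h3 ?_)) 2
      exact (min_le_right _ _).trans h3) hv
    obtain ⟨q, hq⟩ := MT_poly P v ((B0 + 1) ^ 2) (rowP a v)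
    refine ⟨q.comp (X + C n0), fun n => ?_⟩
    obtain ⟨s, h1, h2, h3⟩ := hn0 (n + n0) (by omega)
    refine ⟨s, by omega, ?_, h3⟩
    rw [eval_comp, eval_add, eval_X, eval_C]
    exact h2.trans (hq (n + n0))
  · intro y hy
    have hR := hrun (κ y)
    refine ⟨fun m => in_rec hP hR m, fun i => ?_⟩
    obtain ⟨m, hm, hB⟩ := hout y hy i
    refine ⟨m, hm, fun v j hv B => ?_⟩
    obtain ⟨t0, ht0⟩ := in_hard hP hR m v hv
    obtain ⟨n1, hn1⟩ := hB (max B (Nat.pair v j))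
    obtain ⟨t, ht⟩ : ∃ t, t = Nat.pair m (Nat.pair (Nat.pair v j) (n1 + t0 + B)) := ⟨_, rfl⟩
    have h1 : n1 + t0 + B ≤ t := by
      rw [ht]
      exact (Nat.right_le_pair _ _).trans (Nat.right_le_pair _ _)
    have h2 : (Nat.unpair t).1 = m := by rw [ht, Nat.unpair_pair]
    have h2' : (Nat.unpair (Nat.unpair t).2).1 = Nat.pair v j := by
      rw [ht, Nat.unpair_pair, Nat.unpair_pair]
    obtain ⟨n, hn, L, z, h3⟩ := ht0 t (by omega) h2
    have h4 : max B (Nat.pair v j) ≤ ρ y m t := hn1.trans (hmono y m (by omega))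
    have h5 : κ y t = Nat.pair (ρ y m t) (Nat.pair v j) := by
      rw [hκ, h2, h2', min_eq_left ((le_max_right _ _).trans h4)]
    rw [h5] at h3
    refine ⟨Nat.pair (ρ y m t) (Nat.pair v j), ?_, ?_, ?_, n, by omega, L, z, h3⟩
    · exact ((le_max_left _ _).trans h4).trans (Nat.left_le_pair _ _)
    · unfold cv
      rw [Nat.unpair_pair, Nat.unpair_pair]
    · unfold cj
      rw [Nat.unpair_pair, Nat.unpair_pair]

end Pool.Agent.Work.MP_0532f7_lc.TP
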