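import Mathlib
import Pool.Agent.Work.MP_0532f7_lc.TD.BorOpt
import Pool.Agent.Work.MP_0532f7_lc.TP.CDefs

/-!
# TP.FUs (size S-M): functions of finitely many bits

`FU f` (TP/CDefs): `f T` depends on the bits of `T` below some `N` only.
* `bind`: if `f` depends on the bits below `N`, then `f` takes only finitely many values (one for each of the `2 ^ N` patterns; use
  `Fin N → Bool` and the extension by `false`); take the maximum of the bounds of `g (f T)` over the patterns.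
* `cmp_FU`: `cmp_local` (TD/BorOpt).
* `exB`, `allB`: finitely many words of length `≤ n` (`List.finite_length_le` / `Set.Finite`), take the maximum of the bounds.
* `clopen`: `loc_clopen` (TD/BorOpt) (the value of a `Prop`-valued `f`: use `f T' = f T`).
-/

set_option autoImplicit false

namespace Pool.Agent.Work.MP_0532f7_lc.TP

open Polynomial Pool.Agent.Work.MP_0532f7_lc.TD

theorem FU_const {α : Type} (a : α) : FU (fun _ : ℕ → Bool => a) := ⟨0, fun _ _ _ => rfl⟩

theorem FU_bind {α β : Type} {f : (ℕ → Bool) → α} {g : α → (ℕ → Bool) → β} (hf : FU f)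
    (hg : ∀ a, FU (g a)) : FU (fun T => g (f T) T) := by
  obtain ⟨N, hN⟩ := hf
  choose B hB using hg
  obtain ⟨ex, hex⟩ : ∃ ex : (Fin N → Bool) → ℕ → Bool,
    ex = fun s i => if h : i < N then s ⟨i, h⟩ else false := ⟨_, rfl⟩
  refine ⟨max N (Finset.univ.sup fun s : Fin N → Bool => B (f (ex s))), fun T T' h => ?_⟩
  obtain ⟨s, hs⟩ : ∃ s : Fin N → Bool, s = fun i : Fin N => T i.1 := ⟨_, rfl⟩
  have h1 : f T' = f T := hN T T' fun i hi => h i (lt_of_lt_of_le hi (le_max_left _ _))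
  have h2 : f (ex s) = f T := by
    apply hN
    intro i hi
    rw [hex, hs]
    simp only [dif_pos hi]
  have h3 : B (f (ex s)) ≤ Finset.univ.sup fun s : Fin N → Bool => B (f (ex s)) :=
    Finset.le_sup (f := fun s : Fin N → Bool => B (f (ex s))) (Finset.mem_univ s)
  show g (f T') T' = g (f T) T
  rw [h1]
  apply hB
  intro i hi
  apply h
  rw [h2] at h3
  exact lt_of_lt_of_le hi (h3.trans (le_max_right _ _))

theorem FU_map {α β : Type} {f : (ℕ → Bool) → α} (hf : FU f) (h : α → β) :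
    FU (fun T => h (f T)) := by
  obtain ⟨N, hN⟩ := hf
  exact ⟨N, fun T T' hT => congrArg h (hN T T' hT)⟩

theorem FU_map2 {α β γ : Type} {f : (ℕ → Bool) → α} {g : (ℕ → Bool) → β} (hf : FU f) (hg : FU g)
    (h : α → β → γ) : FU (fun T => h (f T) (g T)) := by
  obtain ⟨N, hN⟩ := hf
  obtain ⟨M, hM⟩ := hg
  refine ⟨max N M, fun T T' hT => ?_⟩
  show h (f T') (g T') = h (f T) (g T)
  rw [hN T T' fun i hi => hT i (lt_of_lt_of_le hi (le_max_left _ _)),
    hM T T' fun i hi => hT i (lt_of_lt_of_le hi (le_max_right _ _))]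

private theorem fu_words {p : List Bool → (ℕ → Bool) → Prop} (n : ℕ) (hp : ∀ y, FU (p y)) :
    ∃ N, ∀ T T' : ℕ → Bool, (∀ i < N, T' i = T i) → ∀ y : List Bool, y.length ≤ n →
      p y T' = p y T := by
  choose N hN using hp
  have hfin := List.finite_length_le Bool n
  refine ⟨hfin.toFinset.sup N, fun T T' hT y hy => hN y T T' fun i hi => hT i ?_⟩
  refine lt_of_lt_of_le hi (Finset.le_sup ?_)
  rw [Set.Finite.mem_toFinset]
  exact hy

theorem FU_exB {p : List Bool → (ℕ → Bool) → Prop} (n : ℕ) (hp : ∀ y, FU (p y)) :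
    FU (fun T => ∃ y : List Bool, y.length ≤ n ∧ p y T) := by
  obtain ⟨N, hN⟩ := fu_words n hp
  refine ⟨N, fun T T' hT => ?_⟩
  apply propext
  constructor
  · rintro ⟨y, h1, h2⟩
    exact ⟨y, h1, by rw [← hN T T' hT y h1]; exact h2⟩
  · rintro ⟨y, h1, h2⟩
    exact ⟨y, h1, by rw [hN T T' hT y h1]; exact h2⟩

theorem FU_allB {p : List Bool → (ℕ → Bool) → Prop} (n : ℕ) (hp : ∀ y, FU (p y)) :
    FU (fun T => ∀ y : List Bool, y.length ≤ n → p y T) := by
  obtain ⟨N, hN⟩ := fu_words n hp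
  refine ⟨N, fun T T' hT => ?_⟩
  apply propext
  constructor
  · intro h y h1
    rw [← hN T T' hT y h1]
    exact h y h1
  · intro h y h1
    rw [hN T T' hT y h1]
    exact h y h1

theorem FU_clopen {p : (ℕ → Bool) → Prop} (hp : FU p) : IsClopen {T | p T} := by
  obtain ⟨N, hN⟩ := hp
  exact loc_clopen ⟨N, fun T T' h hT => by rw [hN T T' h]; exact hT⟩

/-- all functions computable in polynomial time relative to `ZT A T` -/
theorem exists_cmp (A : List Bool → Bool) : ∃ f : ℕ → (ℕ → Bool) → List Bool → List Bool,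
    (∀ e T, PolyTimeRel (ZT A T) (f e T)) ∧
    (∀ T g, PolyTimeRel (ZT A T) g → ∃ e, g = f e T) ∧ ∀ e w, FU (fun T => f e T w) := by
  obtain ⟨Q, C, O, PD, hpt, hsur, -, hPD⟩ := exists_enum
  refine ⟨TD.cmp A Q C O, fun e T => ⟨Q e, C e, O e, (hpt e).1, (hpt e).2.1, (hpt e).2.2,
    fun w => rfl⟩, ?_, ?_⟩
  · rintro T g ⟨Q', C', O', h1, h2, h3, h4⟩
    obtain ⟨e, rfl, rfl, rfl⟩ := hsur Q' C' O' h1 h2 h3
    exact ⟨e, funext h4⟩
  · intro e w
    exact ⟨(PD e).eval w.length + 1, fun T T' h => cmp_local hPD e w.length h w le_rfl⟩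

/-- the general upper bound -/
theorem sig_scheme {S : ℕ → List Bool → (ℕ → Bool) → Prop}
    {R : ℕ → ℕ → ℕ → List Bool → (ℕ → Bool) → Prop} (hS : ∀ e x, FU (S e x))
    (hR : ∀ e e' j x, FU (R e e' j x)) :
    SigmaSet 3 {T | ∃ e, (∀ x, S e x T) ∧ ∀ e', (∀ x, S e' x T) → ∃ j, ∀ x, R e e' j x T} := by
  have hcl : ∀ {p : List Bool → (ℕ → Bool) → Prop}, (∀ x, FU (p x)) →
      IsClosed {T | ∀ x, p x T} := by
    intro p hp
    have e1 : {T | ∀ x, p x T} = ⋂ x, {T | p x T} := by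
      ext T
      simp
    rw [e1]
    exact isClosed_iInter fun x => (FU_clopen (hp x)).isClosed
  have h1 : ∀ e, SigmaSet 0 {T | ∀ x, S e x T}ᶜ := fun e => (hcl (hS e)).isOpen_compl
  have h2 : ∀ e e', SigmaSet 1 (⋃ j : ℕ, {T | ∀ x, R e e' j x T}) := fun e e' =>
    sig_iUnion fun j => sig_closed (hcl (hR e e' j))
  refine ⟨fun e => {T | (∀ x, S e x T) ∧ ∀ e', (∀ x, S e' x T) → ∃ j, ∀ x, R e e' j x T},
    fun e => ?_, ?_⟩
  · have e1 : {T | (∀ x, S e x T) ∧ ∀ e', (∀ x, S e' x T) → ∃ j, ∀ x, R e e' j x T}ᶜ =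
        {T | ∀ x, S e x T}ᶜ ∪
          ⋃ e', ({T | ∀ x, S e' x T} ∩ (⋃ j : ℕ, {T | ∀ x, R e e' j x T})ᶜ) := by
      ext T
      simp only [Set.mem_compl_iff, Set.mem_ofPred_eq, Set.mem_union, Set.mem_iUnion,
        Set.mem_inter_iff]
      rw [not_and_or]
      refine or_congr Iff.rfl ?_
      constructor
      · intro h
        by_contra hcon
        apply h
        intro e' he'
        by_contra hne
        exact hcon ⟨e', he', hne⟩
      · rintro ⟨e', h3, h4⟩ h
        exact h4 (h e' h3)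
    rw [e1]
    refine sig_union (sig_succ (sig_succ (h1 e))) (sig_iUnion fun e' => sig_inter
      (sig_succ (sig_pi (h1 e'))) (sig_pi ?_))
    rw [compl_compl]
    exact h2 e e'
  · ext T
    simp only [Set.mem_ofPred_eq, Set.mem_iUnion]

end Pool.Agent.Work.MP_0532f7_lc.TP
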