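import Mathlib
import Pool.Agent.Work.MP_0532f7_lc.TP.FUs
import Pool.Agent.Work.MP_0532f7_lc.TP.Clo

/-!
# TP.SigD (size M): the upper bound for disjoint coNP-pairs

`exists_cmp A` gives `f`.  A number `e = Nat.pair (Nat.pair e0 e1) k` codes two verifiers and the length bound `n ^ k + k`; the pair is
`C_e = {x | ∀ y, |y| ≤ |x| ^ k + k → f e0 T (pr x y) = [true]}` and `D_e` with `e1`.
`S e x T`: not (`x ∈ C_e` and `x ∈ D_e`).  `R e e' j x T`: (`x ∈ C_e'` implies `f j T x ∈ C_e`) and (`x ∈ D_e'` implies `f j T x ∈ D_e`).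
All are `FU` (`FU_allB`, `FU_map`, `FU_map2`, `FU_bind`).  The set is the one of `sig_scheme`: every pair of disjoint coNP sets relative to
`ZT A T` is `C_e`, `D_e` for some `e` with `∀ x, S e x T` (verifiers with the length test built in: for `|y|` above the old bound the new
verifier gives `[true]`; `poly_le_pow` in SlDec for `p0 + p1`), and conversely.
-/

set_option autoImplicit false

namespace Pool.Agent.Work.MP_0532f7_lc.TP

open Polynomial Pool.Agent.Work.MP_0532f7_lc.TD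

/-- the set with the verifier `f` and the bound `n ^ k + k` -/
private def Csd (f : List Bool → List Bool) (k : ℕ) : Set (List Bool) :=
  {x | ∀ y : List Bool, y.length ≤ x.length ^ k + k → f (pr x y) = [true]}

private theorem csd_co {X : List Bool → Bool} {f : List Bool → List Bool} (hf : PolyTimeRel X f)
    (k : ℕ) : CoNPRel X (Csd f k) := by
  refine ⟨f, hf, Polynomial.X ^ k + Polynomial.C k, fun z => ?_⟩
  simp only [eval_add, eval_pow, eval_X, eval_C]
  exact Iff.rfl

/-- the verifier with the length test built in -/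
private theorem lenv {X : List Bool → Bool} {V : List Bool → List Bool} (hV : PolyTimeRel X V)
    (p : Polynomial ℕ) : ∃ V' : List Bool → List Bool, PolyTimeRel X V' ∧ ∀ w,
      (V' w = [true] ↔ (p.eval (fs w).length < (sn w).length ∨ V w = [true])) := by
  obtain ⟨k, hk, hk'⟩ := FP.clock p
  refine ⟨fun w => [decide (p.eval (fs w).length < (sn w).length) || decide (V w = [true])],
    ?_, fun w => by simp⟩
  have h0 : PolyTimeRel X (fun w => w) := PolyTimeRel.of_fp FP.id X
  have h := (h0.pair hV).post (k := fun v => [decide ((k (fs (fs v))).length < (sn (fs v)).length) ||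
    decide (sn v = [true])])
    ((FPb.ltI (hk.comp FP.fsI.fst) FP.fsI.snd).or (FPb.eq FP.snI (FP.const _)))
  simpa only [fs_pr, sn_pr, hk'] using h

private theorem exists_csd {X : List Bool → Bool} {N N' : Set (List Bool)} (h : CoNPRel X N)
    (h' : CoNPRel X N') : ∃ (V V' : List Bool → List Bool) (k : ℕ), PolyTimeRel X V ∧
      PolyTimeRel X V' ∧ N = Csd V k ∧ N' = Csd V' k := by
  obtain ⟨V, hV, p, hN⟩ := h
  obtain ⟨V', hV', p', hN'⟩ := h'
  obtain ⟨K, hK⟩ := poly_le_pow (p + p')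
  obtain ⟨W, hW, hW1⟩ := lenv hV p
  obtain ⟨W', hW', hW1'⟩ := lenv hV' p'
  have key : ∀ (q : Polynomial ℕ) (U U1 : List Bool → List Bool) (M : Set (List Bool)),
      (∀ m : ℕ, q.eval m ≤ m ^ K + K) → (∀ z, z ∈ M ↔
        ∀ y : List Bool, y.length ≤ q.eval z.length → U (pr z y) = [true]) →
      (∀ w, (U1 w = [true] ↔ (q.eval (fs w).length < (sn w).length ∨ U w = [true]))) →
      M = Csd U1 K := by
    intro q U U1 M hq hM hU
    ext z
    rw [hM]
    constructor
    · intro h1 y hy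
      rw [hU, fs_pr, sn_pr]
      rcases Nat.lt_or_ge (q.eval z.length) y.length with h2 | h2
      · exact Or.inl h2
      · exact Or.inr (h1 y h2)
    · intro h1 y hy
      have h2 := h1 y (hy.trans (hq _))
      rw [hU, fs_pr, sn_pr] at h2
      rcases h2 with h2 | h2
      · omega
      · exact h2
  refine ⟨W, W', K, hW, hW', key p V W N (fun m => ?_) hN hW1, key p' V' W' N' (fun m => ?_) hN' hW1'⟩
  · refine le_trans ?_ (hK m)
    rw [eval_add]
    omega
  · refine le_trans ?_ (hK m)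
    rw [eval_add]
    omega

theorem sig_D (A : List Bool → Bool) : SigmaSet 3 {T | ∃ C D, CompleteDisjCoNP (ZT A T) C D} := by
  obtain ⟨f, hf1, hf2, hf3⟩ := exists_cmp A
  -- the pair with the number `e`
  let Ce : ℕ → (ℕ → Bool) → Set (List Bool) := fun e T =>
    Csd (f (Nat.unpair (Nat.unpair e).1).1 T) (Nat.unpair e).2
  let De : ℕ → (ℕ → Bool) → Set (List Bool) := fun e T =>
    Csd (f (Nat.unpair (Nat.unpair e).1).2 T) (Nat.unpair e).2
  have hFU : ∀ i k x, FU (fun T => x ∈ Csd (f i T) k) := fun i k x =>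
    FU_allB _ fun y => FU_map (hf3 i (pr x y)) (· = [true])
  have hC : ∀ e x, FU (fun T => x ∈ Ce e T) := fun e x => hFU _ _ x
  have hD : ∀ e x, FU (fun T => x ∈ De e T) := fun e x => hFU _ _ x
  have hS : ∀ e x, FU (fun T => ¬ (x ∈ Ce e T ∧ x ∈ De e T)) := fun e x =>
    FU_map2 (hC e x) (hD e x) (fun a b => ¬ (a ∧ b))
  have hR : ∀ e e' j x, FU (fun T => (x ∈ Ce e' T → f j T x ∈ Ce e T) ∧
      (x ∈ De e' T → f j T x ∈ De e T)) := by
    intro e e' j x
    have h1 : FU (fun T => f j T x ∈ Ce e T) :=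
      FU_bind (g := fun a T => a ∈ Ce e T) (hf3 j x) fun a => hC e a
    have h2 : FU (fun T => f j T x ∈ De e T) :=
      FU_bind (g := fun a T => a ∈ De e T) (hf3 j x) fun a => hD e a
    exact FU_map2 (FU_map2 (hC e' x) h1 (fun a b => a → b))
      (FU_map2 (hD e' x) h2 (fun a b => a → b)) (fun a b => a ∧ b)
  have key := sig_scheme hS hR
  convert key using 1
  ext T
  rw [Set.mem_ofPred_eq, Set.mem_ofPred_eq]
  have hCe : ∀ e, CoNPRel (ZT A T) (Ce e T) := fun e => csd_co (hf1 _ T) _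
  have hDe : ∀ e, CoNPRel (ZT A T) (De e T) := fun e => csd_co (hf1 _ T) _
  have hex : ∀ C D : Set (List Bool), CoNPRel (ZT A T) C → CoNPRel (ZT A T) D →
      ∃ e, C = Ce e T ∧ D = De e T := by
    intro C D hC hD
    obtain ⟨V, V', k, hV, hV', h1, h2⟩ := exists_csd hC hD
    obtain ⟨e0, rfl⟩ := hf2 T V hV
    obtain ⟨e1, rfl⟩ := hf2 T V' hV'
    refine ⟨Nat.pair (Nat.pair e0 e1) k, ?_, ?_⟩
    · simp only [Ce, Nat.unpair_pair]
      exact h1
    · simp only [De, Nat.unpair_pair]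
      exact h2
  constructor
  · rintro ⟨C, D, ⟨h1, h2, h3⟩, h4⟩
    obtain ⟨e, rfl, rfl⟩ := hex C D h1 h2
    refine ⟨e, fun x hx => Set.disjoint_left.1 h3 hx.1 hx.2, fun e' he' => ?_⟩
    obtain ⟨r, hr, hr1, hr2⟩ := h4 (Ce e' T) (De e' T) (hCe e') (hDe e')
      (Set.disjoint_left.2 fun x hx hx' => he' x ⟨hx, hx'⟩)
    obtain ⟨j, rfl⟩ := hf2 T r hr
    exact ⟨j, fun x => ⟨hr1 x, hr2 x⟩⟩
  · rintro ⟨e, he, h4⟩
    refine ⟨Ce e T, De e T, ⟨hCe e, hDe e, Set.disjoint_left.2 fun x hx hx' => he x ⟨hx, hx'⟩⟩, ?_⟩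
    intro C' D' hC' hD' hdis
    obtain ⟨e', rfl, rfl⟩ := hex C' D' hC' hD'
    obtain ⟨j, hj⟩ := h4 e' fun x hx => Set.disjoint_left.1 hdis hx.1 hx.2
    exact ⟨f j T, hf1 j T, fun x hx => (hj x).1 hx, fun x hx => (hj x).2 hx⟩

end Pool.Agent.Work.MP_0532f7_lc.TP
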