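import Mathlib
import Pool.Agent.Work.MP_0532f7_lc.TP.FUs
import Pool.Agent.Work.MP_0532f7_lc.TP.Clo

/-!
# TP.SigF (size M): the upper bound for TFNP

`exists_cmp A` gives `f`.  A number `e = Nat.pair e0 k` codes the verifier `f e0 T` and the length bound `n ^ k + k`:
`Rel e x y T` is `|y| ≤ |x| ^ k + k ∧ f e0 T (pr x y) = [true]`.
`S e x T`: `∃ y, |y| ≤ |x| ^ k + k ∧ f e0 T (pr x y) = [true]`.  For `j = Nat.pair j0 j1` and a word `w` (read as `w = pr x y`, `x = fs w`, `y = sn w`):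
`R e e' j w T`: `Rel e (f j0 T (fs w)) (sn w) T → Rel e' (fs w) (f j1 T w') T` with `w' = pr (fs w) (sn w)`.  All are `FU`
(`FU_exB`, `FU_map`, `FU_map2`, `FU_bind`).  The set is the one of `sig_scheme`:
* a TFNP problem relative to `ZT A T` is `R x = {y | Rel e x y T}` for some `e` with `∀ x, S e x T` (verifier with the length test
  built in, `poly_le_pow` in SlDec), and conversely.
-/

set_option autoImplicit false

namespace Pool.Agent.Work.MP_0532f7_lc.TP

open Polynomial Pool.Agent.Work.MP_0532f7_lc.TD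

/-- `y` is a solution of the instance `x` of the problem number `e` -/
private def Rl (f : ℕ → (ℕ → Bool) → List Bool → List Bool) (e : ℕ) (x y : List Bool)
    (T : ℕ → Bool) : Prop :=
  y.length ≤ x.length ^ (Nat.unpair e).2 + (Nat.unpair e).2 ∧
    f (Nat.unpair e).1 T (pr x y) = [true]

private theorem Rl_FU {f : ℕ → (ℕ → Bool) → List Bool → List Bool}
    (h3 : ∀ e w, FU (fun T => f e T w)) (e : ℕ) (x y : List Bool) :
    FU (fun T => Rl f e x y T) :=
  FU_map (h3 (Nat.unpair e).1 (pr x y))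
    (fun v => y.length ≤ x.length ^ (Nat.unpair e).2 + (Nat.unpair e).2 ∧ v = [true])

/-- every TFNP problem has a number -/
private theorem Rl_of {A : List Bool → Bool} {f : ℕ → (ℕ → Bool) → List Bool → List Bool}
    (h2 : ∀ T g, PolyTimeRel (ZT A T) g → ∃ e, g = f e T) {T : ℕ → Bool}
    {R : List Bool → Set (List Bool)} (hR : TFNPRel (ZT A T) R) :
    ∃ e, ∀ x y, y ∈ R x ↔ Rl f e x y T := by
  obtain ⟨⟨V, hV, p, hp⟩, -⟩ := hR
  obtain ⟨K, hK⟩ := poly_le_pow p
  obtain ⟨pk, hpk, hpk'⟩ := FP.clock p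
  have h4 := ((PolyTimeRel.of_fp FP.id (ZT A T)).pair hV).post
    (k := fun v => [!decide ((pk (fs (fs v))).length < (sn (fs v)).length) &&
      decide (sn v = [true])])
    ((FPb.ltI (hpk.comp FP.fsI.fst) FP.fsI.snd).not.and (FPb.eq FP.snI (FP.const _)))
  simp only [fs_pr, sn_pr] at h4
  obtain ⟨e0, he⟩ := h2 T _ h4
  refine ⟨Nat.pair e0 K, fun x y => ?_⟩
  unfold Rl
  rw [Nat.unpair_pair, hp]
  rw [← he]
  simp only [fs_pr, sn_pr, List.cons.injEq, and_true, Bool.and_eq_true, decide_eq_true_eq,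
    Bool.not_eq_true', decide_eq_false_iff_not, not_lt, hpk']
  constructor
  · intro h
    exact ⟨h.1.trans (hK _), h⟩
  · exact fun h => h.2

/-- a number of a total relation gives a TFNP problem -/
private theorem Rl_tf {A : List Bool → Bool} {f : ℕ → (ℕ → Bool) → List Bool → List Bool}
    (h1 : ∀ e T, PolyTimeRel (ZT A T) (f e T)) {T : ℕ → Bool} {e : ℕ}
    (he : ∀ x, ∃ y, Rl f e x y T) : TFNPRel (ZT A T) (fun x => {y | Rl f e x y T}) := by
  refine ⟨⟨f (Nat.unpair e).1 T, h1 _ _,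
    Polynomial.X ^ (Nat.unpair e).2 + Polynomial.C (Nat.unpair e).2, fun x y => ?_⟩, he⟩
  rw [eval_add, eval_pow, eval_X, eval_C]
  rfl

theorem sig_F (A : List Bool → Bool) : SigmaSet 3 {T | ∃ R, CompleteTFNP (ZT A T) R} := by
  obtain ⟨f, h1, h2, h3⟩ := exists_cmp A
  have hS : ∀ e x, FU (fun T => ∃ y : List Bool,
      y.length ≤ x.length ^ (Nat.unpair e).2 + (Nat.unpair e).2 ∧
        f (Nat.unpair e).1 T (pr x y) = [true]) := fun e x =>
    FU_exB (p := fun y T => f (Nat.unpair e).1 T (pr x y) = [true]) _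
      (fun y => FU_map (h3 _ _) (fun v => v = [true]))
  have hR : ∀ e e' j w, FU (fun T =>
      (Rl f e (f (Nat.unpair j).1 T (fs w)) (sn w) T →
        Rl f e' (fs w) (f (Nat.unpair j).2 T (pr (fs w) (sn w))) T)) := fun e e' j w =>
    FU_map2 (FU_bind (h3 (Nat.unpair j).1 (fs w)) (g := fun a T => Rl f e a (sn w) T)
        (fun a => Rl_FU h3 e a (sn w)))
      (FU_bind (h3 (Nat.unpair j).2 (pr (fs w) (sn w))) (g := fun a T => Rl f e' (fs w) a T)
        (fun a => Rl_FU h3 e' (fs w) a)) (fun a b => a → b)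
  have hmain := sig_scheme (S := fun e x T => ∃ y : List Bool,
      y.length ≤ x.length ^ (Nat.unpair e).2 + (Nat.unpair e).2 ∧
        f (Nat.unpair e).1 T (pr x y) = [true]) hS hR
  have heq : {T | ∃ R, CompleteTFNP (ZT A T) R} = {T | ∃ e, (∀ x, ∃ y : List Bool,
      y.length ≤ x.length ^ (Nat.unpair e).2 + (Nat.unpair e).2 ∧
        f (Nat.unpair e).1 T (pr x y) = [true]) ∧ ∀ e', (∀ x, ∃ y : List Bool,
      y.length ≤ x.length ^ (Nat.unpair e').2 + (Nat.unpair e').2 ∧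
        f (Nat.unpair e').1 T (pr x y) = [true]) → ∃ j, ∀ w,
      (Rl f e (f (Nat.unpair j).1 T (fs w)) (sn w) T →
        Rl f e' (fs w) (f (Nat.unpair j).2 T (pr (fs w) (sn w))) T)} := by
    ext T
    rw [Set.mem_ofPred_eq, Set.mem_ofPred_eq]
    constructor
    · rintro ⟨R, hR1, hR2⟩
      obtain ⟨e, he⟩ := Rl_of h2 hR1
      refine ⟨e, fun x => ?_, fun e' he' => ?_⟩
      · obtain ⟨y, hy⟩ := hR1.2 x
        exact ⟨y, (he x y).mp hy⟩
      · obtain ⟨r, s, hr, hs, hrs⟩ := hR2 _ (Rl_tf h1 he')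
        obtain ⟨j0, hj0⟩ := h2 T r hr
        obtain ⟨j1, hj1⟩ := h2 T s hs
        refine ⟨Nat.pair j0 j1, fun w hw => ?_⟩
        rw [Nat.unpair_pair] at hw ⊢
        dsimp only at hw ⊢
        rw [← hj0] at hw
        rw [← hj1]
        exact hrs (fs w) (sn w) ((he _ _).mpr hw)
    · rintro ⟨e, he, he2⟩
      refine ⟨_, Rl_tf h1 he, fun R' hR' => ?_⟩
      obtain ⟨e', he'⟩ := Rl_of h2 hR'
      obtain ⟨j, hj⟩ := he2 e' (fun x => by
        obtain ⟨y, hy⟩ := hR'.2 x
        exact ⟨y, (he' x y).mp hy⟩)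
      refine ⟨_, _, h1 (Nat.unpair j).1 T, h1 (Nat.unpair j).2 T, fun x y hy => ?_⟩
      have h4 := hj (pr x y)
      rw [fs_pr, sn_pr] at h4
      exact (he' _ _).mpr (h4 hy)
  rw [heq]
  exact hmain

end Pool.Agent.Work.MP_0532f7_lc.TP
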