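import Mathlib
import Pool.Agent.Work.MP_0532f7_lc.TP.FUs
import Pool.Agent.Work.MP_0532f7_lc.TP.Clo

/-!
# TP.SigN (size M): the upper bound for NP ∩ coNP

`exists_cmp A` gives `f`.  A number `e = Nat.pair (Nat.pair e0 e1) k` codes two verifiers `f e0 T`, `f e1 T` and the length bound
`n ^ k + k`.  Let `W0 e x T` be `∃ y, |y| ≤ |x| ^ k + k ∧ f e0 T (pr x y) = [true]` and `W1 e x T` the same with `e1`.
`S e x T`: `W0 e x T ↔ ¬ W1 e x T`.  `R e e' j x T`: `W0 e' x T ↔ W0 e (f j T x) T`.  Both are `FU` (`FU_exB`, `FU_map`, `FU_map2`, `FU_bind`).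

The set is `{T | ∃ e, (∀ x, S e x T) ∧ ∀ e', (∀ x, S e' x T) → ∃ j, ∀ x, R e e' j x T}`, then `sig_scheme`:
* a set `L` in NP and coNP relative to `ZT A T` is `{x | W0 e x T}` for some `e` with `∀ x, S e x T`: verifiers of `L` and `Lᶜ`
  (`CoNPRel.compl`) with the length tests built in (bounds `p`; `poly_le_pow` in SlDec gives `k` for `p0 + p1`; new verifier
  `if |y| ≤ p (|x|) then V else [false]`), and conversely such an `e` gives `L = {x | W0 e x T}` in NP and coNP.
-/

set_option autoImplicit false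

namespace Pool.Agent.Work.MP_0532f7_lc.TP

open Polynomial Pool.Agent.Work.MP_0532f7_lc.TD

/-- the set with the verifier `f` and the bound `n ^ k + k` -/
private def Csn (f : List Bool → List Bool) (k : ℕ) : Set (List Bool) :=
  {x | ∀ y : List Bool, y.length ≤ x.length ^ k + k → f (pr x y) = [true]}

private theorem csn_co {X : List Bool → Bool} {f : List Bool → List Bool} (hf : PolyTimeRel X f)
    (k : ℕ) : CoNPRel X (Csn f k) := by
  refine ⟨f, hf, Polynomial.X ^ k + Polynomial.C k, fun z => ?_⟩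
  simp only [eval_add, eval_pow, eval_X, eval_C]
  exact Iff.rfl

/-- the verifier with the length test built in -/
private theorem lenw {X : List Bool → Bool} {V : List Bool → List Bool} (hV : PolyTimeRel X V)
    (p : Polynomial ℕ) : ∃ V' : List Bool → List Bool, PolyTimeRel X V' ∧ ∀ w,
      (V' w = [true] ↔ (p.eval (fs w).length < (sn w).length ∨ V w = [true])) := by
  obtain ⟨k, hk, hk'⟩ := FP.clock p
  refine ⟨fun w => [decide (p.eval (fs w).length < (sn w).length) || decide (V w = [true])],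
    ?_, fun w => by simp⟩
  have h0 : PolyTimeRel X (fun w => w) := PolyTimeRel.of_fp FP.id X
  have h := (h0.pair hV).post (k := fun v => [decide ((k (fs (fs v))).length < (sn (fs v)).length) ||
    decide (sn v = [true])])
    ((FPb.ltI (hk.comp FP.fsI.fst) FP.fsI.snd).or (FPb.eq FP.snI (FP.const _)))
  simpa only [fs_pr, sn_pr, hk'] using h

private theorem exists_csn {X : List Bool → Bool} {N N' : Set (List Bool)} (h : CoNPRel X N)
    (h' : CoNPRel X N') : ∃ (V V' : List Bool → List Bool) (k : ℕ), PolyTimeRel X V ∧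
      PolyTimeRel X V' ∧ N = Csn V k ∧ N' = Csn V' k := by
  obtain ⟨V, hV, p, hN⟩ := h
  obtain ⟨V', hV', p', hN'⟩ := h'
  obtain ⟨K, hK⟩ := poly_le_pow (p + p')
  obtain ⟨W, hW, hW1⟩ := lenw hV p
  obtain ⟨W', hW', hW1'⟩ := lenw hV' p'
  have key : ∀ (q : Polynomial ℕ) (U U1 : List Bool → List Bool) (M : Set (List Bool)),
      (∀ m : ℕ, q.eval m ≤ m ^ K + K) → (∀ z, z ∈ M ↔
        ∀ y : List Bool, y.length ≤ q.eval z.length → U (pr z y) = [true]) →
      (∀ w, (U1 w = [true] ↔ (q.eval (fs w).length < (sn w).length ∨ U w = [true]))) →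
      M = Csn U1 K := by
    intro q U U1 M hq hM hU
    ext z
    rw [hM]
    constructor
    · intro h1 y hy
      rw [hU, fs_pr, sn_pr]
      rcases Nat.lt_or_ge (q.eval z.length) y.length with h2 | h2
      · exact Or.inl h2
      · exact Or.inr (h1 y h2)
    · intro h1 y hy
      have h2 := h1 y (hy.trans (hq _))
      rw [hU, fs_pr, sn_pr] at h2
      rcases h2 with h2 | h2
      · omega
      · exact h2
  refine ⟨W, W', K, hW, hW', key p V W N (fun m => ?_) hN hW1, key p' V' W' N' (fun m => ?_) hN' hW1'⟩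
  · refine le_trans ?_ (hK m)
    rw [eval_add]
    omega
  · refine le_trans ?_ (hK m)
    rw [eval_add]
    omega

theorem sig_N (A : List Bool → Bool) : SigmaSet 3 {T | ∃ L, CompleteNPcoNP (ZT A T) L} := by
  obtain ⟨f, hf1, hf2, hf3⟩ := exists_cmp A
  -- the pair with the number `e`
  let Ce : ℕ → (ℕ → Bool) → Set (List Bool) := fun e T =>
    Csn (f (Nat.unpair (Nat.unpair e).1).1 T) (Nat.unpair e).2
  let De : ℕ → (ℕ → Bool) → Set (List Bool) := fun e T =>
    Csn (f (Nat.unpair (Nat.unpair e).1).2 T) (Nat.unpair e).2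
  have hFU : ∀ i k x, FU (fun T => x ∈ Csn (f i T) k) := fun i k x =>
    FU_allB _ fun y => FU_map (hf3 i (pr x y)) (· = [true])
  have hC : ∀ e x, FU (fun T => x ∈ Ce e T) := fun e x => hFU _ _ x
  have hD : ∀ e x, FU (fun T => x ∈ De e T) := fun e x => hFU _ _ x
  have hS : ∀ e x, FU (fun T => (x ∈ De e T ↔ ¬ x ∈ Ce e T)) := fun e x =>
    FU_map2 (hC e x) (hD e x) (fun a b => (b ↔ ¬ a))
  have hR : ∀ e e' j x, FU (fun T => (x ∈ Ce e' T ↔ f j T x ∈ Ce e T)) := by
    intro e e' j x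
    have h1 : FU (fun T => f j T x ∈ Ce e T) :=
      FU_bind (g := fun a T => a ∈ Ce e T) (hf3 j x) fun a => hC e a
    exact FU_map2 (hC e' x) h1 (fun a b => (a ↔ b))
  have key := sig_scheme hS hR
  convert key using 1
  ext T
  rw [Set.mem_ofPred_eq, Set.mem_ofPred_eq]
  have hCe : ∀ e, CoNPRel (ZT A T) (Ce e T) := fun e => csn_co (hf1 _ T) _
  have hDe : ∀ e, CoNPRel (ZT A T) (De e T) := fun e => csn_co (hf1 _ T) _
  have hcm : ∀ e, (∀ x, (x ∈ De e T ↔ ¬ x ∈ Ce e T)) → NPRel (ZT A T) (Ce e T) := by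
    intro e he
    obtain ⟨V, hV, p, hp⟩ := CoNPRel.compl (hDe e)
    refine ⟨V, hV, p, fun z => ?_⟩
    rw [← hp z, Set.mem_compl_iff, he z, not_not]
  have hex : ∀ L : Set (List Bool), NPRel (ZT A T) L → CoNPRel (ZT A T) L →
      ∃ e, L = Ce e T ∧ Lᶜ = De e T := by
    intro L hN hL
    obtain ⟨V, V', k, hV, hV', h1, h2⟩ := exists_csn hL (NPRel.compl hN)
    obtain ⟨e0, rfl⟩ := hf2 T V hV
    obtain ⟨e1, rfl⟩ := hf2 T V' hV'
    refine ⟨Nat.pair (Nat.pair e0 e1) k, ?_, ?_⟩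
    · simp only [Ce, Nat.unpair_pair]
      exact h1
    · simp only [De, Nat.unpair_pair]
      exact h2
  constructor
  · rintro ⟨L, ⟨h1, h2⟩, h4⟩
    obtain ⟨e, rfl, he⟩ := hex L h1 h2
    refine ⟨e, fun x => ?_, fun e' he' => ?_⟩
    · rw [← he, Set.mem_compl_iff]
    · obtain ⟨r, hr, hr1⟩ := h4 (Ce e' T) (hcm e' he') (hCe e')
      obtain ⟨j, rfl⟩ := hf2 T r hr
      exact ⟨j, hr1⟩
  · rintro ⟨e, he, h4⟩
    refine ⟨Ce e T, ⟨hcm e he, hCe e⟩, ?_⟩
    intro L' hN' hC'
    obtain ⟨e', rfl, he'⟩ := hex L' hN' hC'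
    obtain ⟨j, hj⟩ := h4 e' fun x => by rw [← he', Set.mem_compl_iff]
    exact ⟨f j T, hf1 j T, hj⟩

end Pool.Agent.Work.MP_0532f7_lc.TP
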