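import Mathlib
import Pool.Agent.Work.MP_0532f7_lc.TD.FStar
import Pool.Agent.Work.MP_0532f7_lc.TP.CapF

/-!
# TP.Okb (size M): the permission test

* `okb_good`: the test gives `s` with `s0 + P.eval (LB v |x|) < s` and the permission bit `1`; by `Perm.snd` there is no
  violation decided below `s`, in particular none at `x`.
* `okb_len`: first clause of the test.
* `okb_ptr`: the table `(List.range |pad|).map (fun s => T (Nat.pair (rowP a v) s))` by `tab_ptr` (TD/Reader), as `htab` in
  `fstar_ptr` (TD/FStar).  The number `bb v |x|` is computed with the cap `|pad|` (`bbcap_fp`); the first clause is equivalent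
  to `min (bb v |x|) |pad| < |pad|`, and if it holds then the capped number is `bb v |x|`, so
  `thr = s0 + P.eval (2 v + 4 |x| + 3 (capped) + 6) + 1` is the right threshold (`FP.clock P`).  The test says that
  `(table).drop thr` is not constant `false`: `zer_drop_iff` (TD/FStar).
* `okb_big`: `v` is never wrong.  `Perm.pol` gives `q`; let `n = s0 + P.eval (LB v |x|) + 1` (a polynomial in `|x|`, `LB_poly`)
  and `Q = q.comp n + n + (bb v) + 1`.
* `clk_ptr`: the clock word `un (bb v |x|)`, capped.
-/

set_option autoImplicit false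

namespace Pool.Agent.Work.MP_0532f7_lc.TP

open Polynomial Pool.Agent.Work.MP_0532f7_lc.TD

variable {A : List Bool → Bool} {P : Polynomial ℕ} {T : ℕ → Bool} {a s0 : ℕ}

theorem okb_good (h : Perm A P T a s0) {w : List Bool} (hw : okb P T a s0 w = true) :
    ¬ Bad (ZT A T) (fs w).length (fs (sn w)) := by
  unfold okb at hw
  rw [Bool.and_eq_true, List.any_eq_true] at hw
  obtain ⟨-, s, -, hs⟩ := hw
  rw [Bool.and_eq_true, decide_eq_true_eq] at hs
  intro hb
  exact h.snd _ s (by omega) hs.2 ⟨fs (sn w), by omega, hb⟩

theorem okb_len {w : List Bool} (hw : okb P T a s0 w = true) :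
    bb (fs w).length (fs (sn w)).length < (sn (sn w)).length := by
  unfold okb at hw
  rw [Bool.and_eq_true, decide_eq_true_eq] at hw
  exact hw.1

/-- the capped threshold -/
private def thr (P : Polynomial ℕ) (s0 : ℕ) (w : List Bool) : ℕ :=
  s0 + (P.eval (2 * (fs w).length + 4 * (fs (sn w)).length +
    3 * min (bb (fs w).length (fs (sn w)).length) (sn (sn w)).length + 6) + 1)

private def tab (T : ℕ → Bool) (a : ℕ) (w : List Bool) : List Bool :=
  (List.range (sn (sn w)).length).map (fun s => T (Nat.pair (rowP a (fs w).length) s))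

private theorem okb_eq (P : Polynomial ℕ) (T : ℕ → Bool) (a s0 : ℕ) (w : List Bool) :
    okb P T a s0 w =
      (decide (min (bb (fs w).length (fs (sn w)).length) (sn (sn w)).length <
        (sn (sn w)).length) &&
        !decide ((tab T a w).drop (thr P s0 w) = zer ((tab T a w).drop (thr P s0 w)))) := by
  rw [Bool.eq_iff_iff]
  unfold okb
  rw [Bool.and_eq_true, Bool.and_eq_true, decide_eq_true_eq, decide_eq_true_eq,
    Bool.not_eq_true', decide_eq_false_iff_not, List.any_eq_true]
  unfold tab
  rw [zer_drop_iff]
  push Not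
  constructor
  · rintro ⟨h1, s, h2, h3⟩
    rw [Bool.and_eq_true, decide_eq_true_eq] at h3
    rw [List.mem_range] at h2
    refine ⟨by omega, s, ?_, h2, by rw [h3.2]; simp⟩
    unfold thr
    rw [min_eq_left (le_of_lt h1)]
    have := h3.1
    unfold LB at this
    omega
  · rintro ⟨h1, s, h2, h3, h4⟩
    have h5 : bb (fs w).length (fs (sn w)).length < (sn (sn w)).length := by omega
    refine ⟨h5, s, List.mem_range.2 h3, ?_⟩
    rw [Bool.and_eq_true, decide_eq_true_eq]
    unfold thr at h2
    rw [min_eq_left (le_of_lt h5)] at h2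
    refine ⟨?_, by simpa using h4⟩
    unfold LB
    omega

private theorem cap_fp : FP (fun w : List Bool =>
    un (min (bb (fs w).length (fs (sn w)).length) (sn (sn w)).length)) :=
  bbcap_fp FP.fsI FP.snI.fst FP.snI.snd

theorem okb_ptr (A : List Bool → Bool) (P : Polynomial ℕ) (T : ℕ → Bool) (a s0 : ℕ) :
    PolyTimeRel (ZT A T) (fun w => [okb P T a s0 w]) := by
  obtain ⟨pk, hpk, hpk'⟩ := FP.clock P
  have hthr : FP (fun w => un (thr P s0 w)) := by
    refine ((FP.const (un s0)).app ((FP.unL (hpk.comp ((((FP.mulU (FP.const [true, true]) FP.fsI).app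
      (FP.mulU (FP.const [true, true, true, true]) FP.snI.fst)).app
      (FP.mulU (FP.const [true, true, true]) cap_fp)).app
        (FP.const [true, true, true, true, true, true])))).app
        (FP.const (un 1)))).congr (fun w => ?_)
    rw [un_append, un_append, hpk']
    unfold thr
    simp only [List.length_append, List.length_cons, List.length_nil, un_length]
  have hq : FP (fun v => un (Nat.pair (rowP a (fs (fs v)).length) (sn v).length)) := by
    refine (FP.pairU (FP.mulU (FP.const [true, true, true, true]) (FP.pairU (FP.const (un a))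
      FP.fsI.fst)) FP.snI).congr (fun v => ?_)
    rw [un_length, un_length, un_length]
    rfl
  have htab := tab_ptr A T (q := fun w s => Nat.pair (rowP a (fs w).length) s) hq
    (c := fun w => sn (sn w)) FP.snI.snd
  have h2 := ((PolyTimeRel.of_fp FP.id (ZT A T)).pair htab).post
    (k := fun v => [decide ((un (min (bb (fs (fs v)).length (fs (sn (fs v))).length)
      (sn (sn (fs v))).length)).length < (sn (sn (fs v))).length) &&
      !decide ((sn v).drop (un (thr P s0 (fs v))).length =
        zer ((sn v).drop (un (thr P s0 (fs v))).length))])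
      ((FPb.ltI (cap_fp.comp FP.fsI) (FP.snI.snd.comp FP.fsI)).and
        ((FPb.eq (FP.drop (hthr.comp FP.fsI) FP.snI)
        (FP.zerI (FP.drop (hthr.comp FP.fsI) FP.snI))).not))
  simp only [fs_pr, sn_pr, un_length] at h2
  have e : (fun w => [okb P T a s0 w]) = fun w =>
      [decide (min (bb (fs w).length (fs (sn w)).length) (sn (sn w)).length <
        (sn (sn w)).length) &&
        !decide ((tab T a w).drop (thr P s0 w) = zer ((tab T a w).drop (thr P s0 w)))] :=
    funext fun w => by rw [okb_eq]
  rw [e]
  exact h2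

theorem okb_big (h : Perm A P T a s0) {v : ℕ} (hv : ∀ s, ¬ UT A P v s T) :
    ∃ Q : Polynomial ℕ, ∀ x : List Bool,
      okb P T a s0 (pr (un v) (pr x (un (Q.eval x.length)))) = true := by
  obtain ⟨q, hq⟩ := h.pol v hv
  obtain ⟨q1, hq1⟩ := LB_poly v
  refine ⟨q.comp (C s0 + P.comp q1 + 1) + ((X + 1) ^ v + C v) + 1, fun x => ?_⟩
  obtain ⟨s, h1, h2, h3⟩ := hq (s0 + P.eval (LB v x.length) + 1)
  unfold okb
  simp only [fs_pr, sn_pr, un_length]
  have e : (q.comp (C s0 + P.comp q1 + 1) + ((X + 1) ^ v + C v) + 1).eval x.length =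
      q.eval (s0 + P.eval (LB v x.length) + 1) + bb v x.length + 1 := by
    simp only [eval_add, eval_comp, eval_C, eval_one, eval_pow, eval_X, hq1]
    rfl
  rw [e, Bool.and_eq_true, decide_eq_true_eq, List.any_eq_true]
  refine ⟨by omega, s, List.mem_range.2 (by omega), ?_⟩
  rw [Bool.and_eq_true, decide_eq_true_eq]
  exact ⟨by omega, h3⟩

private theorem pe_fp {f : List Bool → List Bool} (hf : FP f) :
    FP (fun x => num (pe (f x).length)) := by
  refine (FP.numI (unpair_fp (unpair_fp hf).2).1).congr (fun x => ?_)
  rw [un_length, un_length]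
  rfl

/-- the context of a candidate of kind 0 at `w = pr (un v) (pr x pad)` -/
theorem ctx0_fp : ∃ c : List Bool → List Bool, FP c ∧ ∀ w : List Bool,
    bb (fs w).length (fs (sn w)).length < (sn (sn w)).length →
      c w = pr (num (pe (fs w).length)) (pr (fs (sn w)) (un (bb (fs w).length (fs (sn w)).length))) := by
  refine ⟨fun w => pr (num (pe (fs w).length)) (pr (fs (sn w))
    (un (min (bb (fs w).length (fs (sn w)).length) (sn (sn w)).length))),
    (pe_fp FP.fsI).pair (FP.snI.fst.pair cap_fp), fun w hw => ?_⟩
  show pr (num (pe (fs w).length)) (pr (fs (sn w))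
    (un (min (bb (fs w).length (fs (sn w)).length) (sn (sn w)).length))) = _
  rw [min_eq_left hw.le]

/-- the context of a candidate of kind 1 or 2 at `pr w y'` with `w = pr (un v) (pr x pad)` -/
theorem ctx1_fp : ∃ c : List Bool → List Bool, FP c ∧ ∀ w y' : List Bool,
    bb (fs w).length (fs (sn w)).length < (sn (sn w)).length →
      c (pr w y') = pr (num (pe (fs w).length)) (pr (pr (fs (sn w)) y')
        (un (bb (fs w).length (fs (sn w)).length))) := by
  refine ⟨fun z => pr (num (pe (fs (fs z)).length)) (pr (pr (fs (sn (fs z))) (sn z))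
    (un (min (bb (fs (fs z)).length (fs (sn (fs z))).length) (sn (sn (fs z))).length))),
    (pe_fp FP.fsI.fst).pair ((FP.fsI.snd.fst.pair FP.snI).pair (cap_fp.comp FP.fsI)),
    fun w y' hw => ?_⟩
  show pr (num (pe (fs (fs (pr w y'))).length)) (pr (pr (fs (sn (fs (pr w y')))) (sn (pr w y')))
    (un (min (bb (fs (fs (pr w y'))).length (fs (sn (fs (pr w y')))).length)
      (sn (sn (fs (pr w y')))).length))) = _
  rw [fs_pr, sn_pr, min_eq_left hw.le]

/-- tests of the kind -/
theorem kd_fp (c : ℕ) : FPb (fun w : List Bool => decide (kd (fs w).length = c)) := by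
  refine (FPb.eq (unpair_fp FP.fsI).1 (FP.const (un c))).congr (fun w => ?_)
  rw [Bool.eq_iff_iff, decide_eq_true_eq, decide_eq_true_eq]
  constructor
  · intro h
    have h1 := congrArg List.length h
    rwa [un_length, un_length] at h1
  · intro h
    unfold kd at h
    rw [h]

end Pool.Agent.Work.MP_0532f7_lc.TP
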