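import Mathlib
import Pool.Agent.Work.MP_0532f7_lc.TP.Okb
import Pool.Agent.Work.MP_0532f7_lc.TP.VCode

/-!
# TP.StarF (size S-M): permissions give a complete TFNP problem

`R w` for `w = pr (un v) (pr x pad)` (`X = ZT A T`): if `okb w` and `kd v = 2` then `{b :: y | witr X v b x y}`, else `{[]}`.

* Verifier on `pr w y'`: if `okb w` and `kd v = 2` then `y' ≠ []`, `|y'| ≤ bb v |x| + 1` and
  `run X (pr (num (pe v)) (pr (pr x y') (un (bb v |x|)))) = [true]` (`ctx1_fp`), else `y' = []`.  `|y'| ≤ bb v |x| + 1 ≤ |pad| ≤ |w|`.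
* Total: `okb_good` (kind 2: not bad means that some answer has a witness).
* Complete: for `R'` with verifier `V'` and bound `p'` apply `vcode` to `V'' (pr x (b :: y)) = V' (pr x y)` for `b = false` and `[false]` for
  `b = true`, `c = 2`: `witr X v b x y ↔ |y| ≤ p' (|x|) ∧ b = false ∧ V' (pr x y) = [true]`, so `v` is never bad, never wrong; `okb_big` gives
  `Q`; `r x = pr (un v) (pr x (un (Q |x|)))`, `s (pr x y') = y'.tail`.
-/

set_option autoImplicit false

namespace Pool.Agent.Work.MP_0532f7_lc.TP

open Polynomial Pool.Agent.Work.MP_0532f7_lc.TD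

section

variable {A : List Bool → Bool} {P : Polynomial ℕ} {T : ℕ → Bool} {a s0 : ℕ}

private def sf_R (A : List Bool → Bool) (P : Polynomial ℕ) (T : ℕ → Bool) (a s0 : ℕ)
    (w : List Bool) : Set (List Bool) :=
  {y' | (okb P T a s0 w = true ∧ kd (fs w).length = 2 ∧ ∃ b y, y' = b :: y ∧
      witr (ZT A T) (fs w).length b (fs (sn w)) y) ∨
    (¬ (okb P T a s0 w = true ∧ kd (fs w).length = 2) ∧ y' = [])}

private theorem sf_tfnp (h : Perm A P T a s0) : TFNPRel (ZT A T) (sf_R A P T a s0) := by
  obtain ⟨c, hc, hc'⟩ := ctx1_fp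
  have h1 : PolyTimeRel (ZT A T) (fun u => [okb P T a s0 (fs u)]) :=
    (okb_ptr A P T a s0).pre (k := fs) FP.fsI
  have h2 : PolyTimeRel (ZT A T) (fun u : List Bool => [decide (kd (fs (fs u)).length = 2)]) :=
    PolyTimeRel.of_fp ((kd_fp 2).comp FP.fsI) _
  have hcu : FP (fun u => c (pr (fs u) (sn u))) := hc.comp (FP.fsI.pair FP.snI)
  have h3 : PolyTimeRel (ZT A T) (fun u : List Bool => [(!(sn u).isEmpty) &&
      decide ((sn u).length < (true :: true :: sn (sn (c (pr (fs u) (sn u))))).length)]) :=
    PolyTimeRel.of_fp ((FPb.isNil.comp FP.snI).not.and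
      (FPb.ltI FP.snI ((FP.cons true).comp ((FP.cons true).comp hcu.snd.snd)))) _
  have h4 := (PolyTimeRel.run (ZT A T)).pre (k := fun u => c (pr (fs u) (sn u))) hcu
  have h6 : PolyTimeRel (ZT A T) (fun u : List Bool => [(sn u).isEmpty]) :=
    PolyTimeRel.of_fp (FPb.isNil.comp FP.snI) _
  have h5 := h1.iteb (h2.iteb (h3.iteb h4 (PolyTimeRel.of_fp FP.nil _)) h6) h6
  refine ⟨⟨_, h5, X, fun z y' => ?_⟩, fun z => ?_⟩
  · simp only [fs_pr, sn_pr, eval_X, decide_eq_true_eq, sf_R, Set.mem_setOf_eq]
    by_cases hz1 : okb P T a s0 z = true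
    · have hl := okb_len hz1
      have e := hc' z y' hl
      by_cases hz2 : kd (fs z).length = 2
      · simp only [hz1, hz2, true_and, if_true, and_self, not_true_eq_false, false_and, or_false]
        rw [e]
        simp only [sn_pr, List.length_cons, un_length]
        constructor
        · rintro ⟨b, y, rfl, hy1, hy2⟩
          have h7 := (sn_length (sn z)).trans (sn_length z)
          refine ⟨by rw [List.length_cons]; omega, ?_⟩
          rw [if_pos (by
            rw [Bool.and_eq_true, decide_eq_true_eq, List.length_cons]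
            exact ⟨rfl, by omega⟩)]
          exact hy2
        · rintro ⟨h7, h8⟩
          cases y' with
          | nil => simp at h8
          | cons b y =>
            refine ⟨b, y, rfl, ?_⟩
            by_cases h9 : y.length < bb (fs z).length (fs (sn z)).length + 1
            · rw [if_pos (by
                rw [Bool.and_eq_true, decide_eq_true_eq, List.length_cons]
                exact ⟨rfl, by omega⟩)] at h8
              exact ⟨by omega, h8⟩
            · rw [if_neg (by
                rw [Bool.and_eq_true, decide_eq_true_eq, List.length_cons]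
                rintro ⟨-, h10⟩
                omega)] at h8
              exact absurd h8 (by simp)
      · simp only [hz1, hz2, and_false, false_and, if_true, if_false, not_false_eq_true, true_and,
          false_or]
        constructor
        · rintro rfl
          exact ⟨Nat.zero_le _, by simp⟩
        · rintro ⟨-, h8⟩
          simpa using h8
    · have hz1' : okb P T a s0 z = false := by simpa using hz1
      simp only [hz1', Bool.false_eq_true, if_false, false_and, not_false_eq_true, true_and,
        false_or]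
      constructor
      · rintro rfl
        exact ⟨Nat.zero_le _, by simp⟩
      · rintro ⟨-, h8⟩
        simpa using h8
  · by_cases hz : okb P T a s0 z = true ∧ kd (fs z).length = 2
    · have h7 := okb_good h hz.1
      have h8 : wit (ZT A T) (fs z).length false (fs (sn z)) ∨
          wit (ZT A T) (fs z).length true (fs (sn z)) := by
        by_contra hcon
        push Not at hcon
        exact h7 (Or.inr (Or.inr ⟨hz.2, hcon.1, hcon.2⟩))
      rcases h8 with ⟨y, hy⟩ | ⟨y, hy⟩
      · exact ⟨false :: y, Or.inl ⟨hz.1, hz.2, false, y, rfl, hy⟩⟩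
      · exact ⟨true :: y, Or.inl ⟨hz.1, hz.2, true, y, rfl, hy⟩⟩
    · exact ⟨[], Or.inr ⟨hz, rfl⟩⟩

theorem star_F (h : Perm A P T a s0) : ∃ R, CompleteTFNP (ZT A T) R := by
  refine ⟨sf_R A P T a s0, sf_tfnp h, fun R' hR' => ?_⟩
  obtain ⟨⟨V', hV', p', hp'⟩, hne⟩ := hR'
  have hV2 : PolyTimeRel (ZT A T) (fun u => if (sn u).head?.getD false = true then [false]
      else V' (pr (fs u) (sn u).tail)) := by
    have h1 : PolyTimeRel (ZT A T) (fun u : List Bool => [(sn u).head?.getD false]) :=
      PolyTimeRel.of_fp (FPb.hd.comp FP.snI) _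
    exact h1.iteb (PolyTimeRel.of_fp (FP.const [false]) _)
      (hV'.pre (k := fun u => pr (fs u) (sn u).tail) (FP.fsI.pair (FP.tail.comp FP.snI)))
  obtain ⟨v, hv2, hv⟩ := vcode hV2 p' 2
  have hv' : ∀ (b : Bool) (x y : List Bool), witr (ZT A T) v b x y ↔ b = false ∧ y ∈ R' x := by
    intro b x y
    rw [hv b x y, hp' x y]
    simp only [fs_pr, sn_pr, List.head?_cons, Option.getD_some, List.tail_cons]
    cases b
    · simp
    · simp
  have hnb : ∀ s, ¬ UT A P v s T := by
    rintro s ⟨x, -, hx⟩
    rcases hx with hx | hx | hx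
    · rw [hv2] at hx
      exact absurd hx.1 (by norm_num)
    · rw [hv2] at hx
      exact absurd hx.1 (by norm_num)
    · obtain ⟨y, hy⟩ := hne x
      exact hx.2.1 ⟨y, (hv' false x y).2 ⟨rfl, hy⟩⟩
  obtain ⟨Q, hQ⟩ := okb_big h hnb
  obtain ⟨tk, htk, htk'⟩ := FP.clock Q
  refine ⟨fun w => pr (un v) (pr w (un (tk w).length)), fun u => (sn u).tail,
    PolyTimeRel.of_fp ((FP.const _).pair (FP.id.pair (FP.unL htk))) _,
    PolyTimeRel.of_fp (FP.tail.comp FP.snI) _, fun x y' hy' => ?_⟩
  have h1 : okb P T a s0 (pr (un v) (pr x (un (tk x).length))) = true := by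
    rw [htk']
    exact hQ x
  simp only [sf_R, Set.mem_setOf_eq, fs_pr, sn_pr, un_length] at hy'
  rcases hy' with ⟨-, -, b, y, rfl, hy⟩ | ⟨h2, -⟩
  · show (sn (pr x (b :: y))).tail ∈ R' x
    rw [sn_pr, List.tail_cons]
    exact ((hv' b x y).1 hy).2
  · exact absurd ⟨h1, hv2⟩ h2

end

end Pool.Agent.Work.MP_0532f7_lc.TP
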