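import Mathlib
import Pool.Agent.Work.MP_0532f7_lc.TP.Okb
import Pool.Agent.Work.MP_0532f7_lc.TP.VCode
import Pool.Agent.Work.MP_0532f7_lc.TP.Clo

/-!
# TP.StarN (size S-M): permissions give a complete set for NP ∩ coNP

For `b : Bool` let `S_b` be the set of all `w = pr (un v) (pr x pad)` (`v = (fs w).length`, `x = fs (sn w)`) with `okb w`, `kd v = 1` and
`wit X v b x` (`X = ZT A T`).  Both are in NP relative to `X`: verifier on `pr w y`: `okb w`, `kd_fp 1`, `|y| ≤ bb v |x|` (capped clock:
`ctx1_fp`, or `bbcap_fp`), `run X (pr (num (pe v)) (pr (pr x (b :: y)) (un (bb v |x|)))) = [true]`; `|y| ≤ bb v |x| < |pad| ≤ |w|` (`okb_len`).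

`L = S_false`.  By `okb_good`, if `okb w` and `kd v = 1` then exactly one of `wit X v false x`, `wit X v true x` holds, so
`Lᶜ = {w | ¬ (okb w ∧ kd v = 1)} ∪ S_true` is in NP (`np_orB`), and `L` is in coNP (`NPRel.compl`).

Complete: for `L'` in NP and coNP, `vcode2` with `N0 = L'`, `N1 = L'ᶜ`, `c = 1` gives `v`, never bad, so never wrong; `okb_big` gives
`Q`; the reduction is `x ↦ pr (un v) (pr x (un (Q |x|)))`.
-/

set_option autoImplicit false

namespace Pool.Agent.Work.MP_0532f7_lc.TP

open Polynomial Pool.Agent.Work.MP_0532f7_lc.TD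

section

variable {A : List Bool → Bool} {P : Polynomial ℕ} {T : ℕ → Bool} {a s0 : ℕ}

private def sn_S (A : List Bool → Bool) (P : Polynomial ℕ) (T : ℕ → Bool) (a s0 : ℕ) (b : Bool) :
    Set (List Bool) :=
  {w | okb P T a s0 w = true ∧ kd (fs w).length = 1 ∧ wit (ZT A T) (fs w).length b (fs (sn w))}

private theorem sn_S_np (b : Bool) : NPRel (ZT A T) (sn_S A P T a s0 b) := by
  obtain ⟨c, hc, hc'⟩ := ctx1_fp
  have h1 : PolyTimeRel (ZT A T) (fun u => [okb P T a s0 (fs u)]) :=
    (okb_ptr A P T a s0).pre (k := fs) FP.fsI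
  have h2 : PolyTimeRel (ZT A T) (fun u : List Bool => [decide (kd (fs (fs u)).length = 1)]) :=
    PolyTimeRel.of_fp ((kd_fp 1).comp FP.fsI) _
  have hcu : FP (fun u => c (pr (fs u) (b :: sn u))) :=
    hc.comp (FP.fsI.pair ((FP.cons b).comp FP.snI))
  have h3 : PolyTimeRel (ZT A T) (fun u : List Bool => [decide ((sn u).length <
      (true :: sn (sn (c (pr (fs u) (b :: sn u))))).length)]) :=
    PolyTimeRel.of_fp (FPb.ltI FP.snI ((FP.cons true).comp hcu.snd.snd)) _
  have h4 := (PolyTimeRel.run (ZT A T)).pre (k := fun u => c (pr (fs u) (b :: sn u))) hcu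
  have h5 := h1.iteb (h2.iteb (h3.iteb h4 (PolyTimeRel.of_fp FP.nil _))
    (PolyTimeRel.of_fp FP.nil _)) (PolyTimeRel.of_fp FP.nil _)
  refine ⟨_, h5, X, fun z => ?_⟩
  simp only [fs_pr, sn_pr, eval_X, decide_eq_true_eq]
  constructor
  · rintro ⟨hz1, hz2, y, hy1, hy2⟩
    have hl := okb_len hz1
    have e := hc' z (b :: y) hl
    refine ⟨y, ?_, ?_⟩
    · have := (sn_length (sn z)).trans (sn_length z)
      omega
    · rw [if_pos hz1, if_pos hz2, e]
      simp only [sn_pr, List.length_cons, un_length]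
      rw [if_pos (by omega)]
      exact hy2
  · rintro ⟨y, hy1, hy2⟩
    by_cases hz1 : okb P T a s0 z = true
    · rw [if_pos hz1] at hy2
      have e := hc' z (b :: y) (okb_len hz1)
      by_cases hz2 : kd (fs z).length = 1
      · rw [if_pos hz2, e] at hy2
        simp only [sn_pr, List.length_cons, un_length] at hy2
        by_cases hz3 : y.length < bb (fs z).length (fs (sn z)).length + 1
        · rw [if_pos hz3] at hy2
          exact ⟨hz1, hz2, y, by omega, hy2⟩
        · rw [if_neg hz3] at hy2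
          exact absurd hy2 (by simp)
      · rw [if_neg hz2] at hy2
        exact absurd hy2 (by simp)
    · rw [if_neg hz1] at hy2
      exact absurd hy2 (by simp)

theorem star_N (h : Perm A P T a s0) : ∃ L, CompleteNPcoNP (ZT A T) L := by
  have hex : ∀ w, okb P T a s0 w = true → kd (fs w).length = 1 →
      ¬ (wit (ZT A T) (fs w).length false (fs (sn w)) ↔
        wit (ZT A T) (fs w).length true (fs (sn w))) := by
    intro w h1 h2 h3
    exact okb_good h h1 (Or.inr (Or.inl ⟨h2, h3⟩))
  refine ⟨sn_S A P T a s0 false, ⟨sn_S_np false, ?_⟩, fun L' hL1 hL2 => ?_⟩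
  · -- coNP
    have h2 : PolyTimeRel (ZT A T) (fun w : List Bool => [!decide (kd (fs w).length = 1)]) :=
      PolyTimeRel.of_fp (kd_fp 1).not _
    have h3 := (okb_ptr A P T a s0).iteb h2 (PolyTimeRel.of_fp (FP.const [true]) (ZT A T))
    have h4 : PolyTimeRel (ZT A T)
        (fun w => [!(okb P T a s0 w && decide (kd (fs w).length = 1))]) := by
      have e : (fun w => [!(okb P T a s0 w && decide (kd (fs w).length = 1))]) =
          (fun z => if okb P T a s0 z = true then [!decide (kd (fs z).length = 1)] else [true]) := by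
        funext w
        by_cases h5 : okb P T a s0 w = true
        · rw [if_pos h5, h5, Bool.true_and]
        · rw [if_neg h5, Bool.eq_false_iff.2 h5, Bool.false_and]
          rfl
      rw [e]
      exact h3
    have h5 := TD.NPRel.compl (np_orB (sn_S_np (A := A) (P := P) (T := T) (a := a) (s0 := s0) true) h4)
    have e : {w | (!(okb P T a s0 w && decide (kd (fs w).length = 1))) = true ∨
        w ∈ sn_S A P T a s0 true}ᶜ = sn_S A P T a s0 false := by
      ext w
      simp only [Set.mem_compl_iff, Set.mem_setOf_eq, Bool.not_eq_true', Bool.and_eq_false_iff,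
        decide_eq_false_iff_not, sn_S]
      constructor
      · intro h6
        push Not at h6
        obtain ⟨⟨h7, h8⟩, h9⟩ := h6
        have h7' : okb P T a s0 w = true := by simpa using h7
        refine ⟨h7', h8, ?_⟩
        have h10 := h9 h7' h8
        by_contra h12
        exact hex w h7' h8 ⟨fun h => absurd h h12, fun h => absurd h h10⟩
      · rintro ⟨h6, h7, h8⟩
        rintro ((h9 | h9) | ⟨-, -, h9⟩)
        · rw [h6] at h9
          exact absurd h9 (by simp)
        · exact h9 h7
        · exact hex w h6 h7 ⟨fun _ => h9, fun _ => h8⟩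
    rw [e] at h5
    exact h5
  · obtain ⟨v, hv1, hv⟩ := vcode2 hL1 (TD.CoNPRel.compl hL2) 1
    have hnb : ∀ s, ¬ UT A P v s T := by
      rintro s ⟨x, -, hx⟩
      rcases hx with hx | hx | hx
      · rw [hv1] at hx
        exact absurd hx.1 (by norm_num)
      · have h1 := hx.2
        rw [(hv x).1, (hv x).2, Set.mem_compl_iff] at h1
        by_cases hxL : x ∈ L'
        · exact h1.1 hxL hxL
        · exact hxL (h1.2 hxL)
      · rw [hv1] at hx
        exact absurd hx.1 (by norm_num)
    obtain ⟨Q, hQ⟩ := okb_big h hnb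
    obtain ⟨tk, htk, htk'⟩ := FP.clock Q
    refine ⟨fun w => pr (un v) (pr w (un (tk w).length)),
      PolyTimeRel.of_fp ((FP.const _).pair (FP.id.pair (FP.unL htk))) _, fun x => ?_⟩
    have h1 : okb P T a s0 (pr (un v) (pr x (un (tk x).length))) = true := by
      rw [htk']
      exact hQ x
    simp only [sn_S, Set.mem_setOf_eq, fs_pr, sn_pr, un_length]
    rw [(hv x).1]
    exact ⟨fun h2 => ⟨h1, hv1, h2⟩, fun h2 => h2.2.2⟩

end

end Pool.Agent.Work.MP_0532f7_lc.TP
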