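import Mathlib
import Pool.Agent.Work.MP_0532f7_lc.TP.Okb
import Pool.Agent.Work.MP_0532f7_lc.TP.VCode

/-!
# TP.StarO (size S-M): permissions give a p-optimal system

`f w` = `cr X v x` for `w = pr (un v) (pr x pad)` if `okb w` and `kd v = 0`, else `oTop.code` (`X = ZT A T`).
* PolyTimeRel: `okb_ptr`, `kd_fp`, `ctx0_fp` with `PolyTimeRel.run` (SlClo), `PolyTimeRel.iteb` (SlUp).
* range in OTAUT: `okb_good` (kind 0: not bad means `cr X v x ∈ OTAUT X`), `oTop_mem`.
* p-optimal: for a system `g` (PolyTimeRel, all values in OTAUT) `vcode0` gives `v` of kind 0 with `cr X v x = g x`, so `v`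
  is never bad, never wrong (`UT`), and `okb_big` gives `Q`; the translation is `x ↦ pr (un v) (pr x (un (Q |x|)))`
  (`FP.clock`, `FP.pair`, `.polyTime`).  Onto: apply this to constant maps, as in `fstar_popt` (TD/FStar).
-/

set_option autoImplicit false

namespace Pool.Agent.Work.MP_0532f7_lc.TP

open Polynomial Pool.Agent.Work.MP_0532f7_lc.TD

section

variable {A : List Bool → Bool} {P : Polynomial ℕ} {T : ℕ → Bool} {a s0 : ℕ}

/-- the system -/
private def so_f (A : List Bool → Bool) (P : Polynomial ℕ) (T : ℕ → Bool) (a s0 : ℕ)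
    (c : List Bool → List Bool) (w : List Bool) : List Bool :=
  if okb P T a s0 w = true then
    (if decide (kd (fs w).length = 0) = true then run (ZT A T) (c w) else oTop.code)
  else oTop.code

private theorem so_ptr {c : List Bool → List Bool} (hc : FP c) :
    PolyTimeRel (ZT A T) (so_f A P T a s0 c) := by
  have h1 := okb_ptr A P T a s0
  have h2 : PolyTimeRel (ZT A T) (fun w : List Bool => [decide (kd (fs w).length = 0)]) :=
    PolyTimeRel.of_fp (kd_fp 0) _
  have h3 := (PolyTimeRel.run (ZT A T)).pre (k := c) hc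
  exact h1.iteb (h2.iteb h3 (PolyTimeRel.of_fp (FP.const _) _)) (PolyTimeRel.of_fp (FP.const _) _)

private theorem so_mem (h : Perm A P T a s0) {c : List Bool → List Bool}
    (hc : ∀ w : List Bool, bb (fs w).length (fs (sn w)).length < (sn (sn w)).length →
      c w = pr (num (pe (fs w).length)) (pr (fs (sn w)) (un (bb (fs w).length (fs (sn w)).length))))
    (w : List Bool) : so_f A P T a s0 c w ∈ OTAUT (ZT A T) := by
  unfold so_f
  split_ifs with h1 h2
  · rw [hc w (okb_len h1)]
    by_contra hcon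
    exact okb_good h h1 (Or.inl ⟨of_decide_eq_true h2, hcon⟩)
  · exact oTop_mem _
  · exact oTop_mem _

private theorem so_sim (h : Perm A P T a s0) {c : List Bool → List Bool}
    (hc : ∀ w : List Bool, bb (fs w).length (fs (sn w)).length < (sn (sn w)).length →
      c w = pr (num (pe (fs w).length)) (pr (fs (sn w)) (un (bb (fs w).length (fs (sn w)).length))))
    {g : List Bool → List Bool} (hg : PolyTimeRel (ZT A T) g)
    (hgs : ∀ w, g w ∈ OTAUT (ZT A T)) :
    ∃ k, PolyTime k ∧ ∀ w, so_f A P T a s0 c (k w) = g w := by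
  obtain ⟨v, hv0, hv⟩ := vcode0 hg
  have hnb : ∀ s, ¬ UT A P v s T := by
    rintro s ⟨x, -, hx⟩
    rcases hx with hx | hx | hx
    · apply hx.2
      rw [hv x]
      exact hgs x
    · rw [hv0] at hx
      exact absurd hx.1 (by norm_num)
    · rw [hv0] at hx
      exact absurd hx.1 (by norm_num)
  obtain ⟨Q, hQ⟩ := okb_big h hnb
  obtain ⟨tk, htk, htk'⟩ := FP.clock Q
  refine ⟨fun w => pr (un v) (pr w (un (tk w).length)),
    ((FP.const _).pair (FP.id.pair (FP.unL htk))).polyTime, fun w => ?_⟩
  have h1 : okb P T a s0 (pr (un v) (pr w (un (tk w).length))) = true := by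
    rw [htk']
    exact hQ w
  unfold so_f
  rw [if_pos h1, if_pos (by simp only [fs_pr, un_length, hv0, decide_true]), hc _ (okb_len h1)]
  simp only [fs_pr, sn_pr, un_length]
  exact hv w

theorem star_O (h : Perm A P T a s0) : ∃ f, POptimalRel (ZT A T) f := by
  obtain ⟨c, hc, hc'⟩ := ctx0_fp
  refine ⟨so_f A P T a s0 c, ⟨so_ptr hc, ?_⟩, fun g hg =>
    so_sim h hc' hg.1 (fun w => by rw [← hg.2]; exact ⟨w, rfl⟩)⟩
  apply Set.Subset.antisymm
  · rintro _ ⟨w, rfl⟩
    exact so_mem h hc' w
  · intro t ht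
    obtain ⟨k, -, hk⟩ := so_sim h hc' (PolyTimeRel.of_fp (FP.const t) (ZT A T)) (fun _ => ht)
    exact ⟨k [], hk []⟩

end

end Pool.Agent.Work.MP_0532f7_lc.TP
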