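import Mathlib
import Pool.Agent.Work.MP_0532f7_lc.TP.Clo
import Pool.Agent.Work.MP_0532f7_lc.TD.Fal

/-!
# TP.Up (size M): NP = coNP relative to A gives NP = coNP relative to A ⊕ 1^T

It suffices that every set `L` in coNP relative to `X = ZT A T` is in NP relative to `X` (then for `L` in NP use `Lᶜ`,
`NPRel.compl`, `CoNPRel.compl`).  Let `Q`, `C`, `O` compute the verifier of `L` with the bound `p`.  Let

`L' = {w = pr z d | ∀ y, |y| ≤ p (|z|) → O (pr (pr z y) (answers Q (ojoin A (tally (fun i => d.getD i false))) (pr z y) |C (pr z y)|)) = [true]}`.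

`L'` is in coNP relative to `A`: `hybrid` (TD/Hybrid) with `B = fun z i => z.getD i false` (`getD_fp`, TD/ExFP), as in `LN_coNP` (TD/Fal);
the test `|y| ≤ p (|z|)` must be part of the verifier (bound `p (|w|)`, `pmono`).  By `hA` it is in NP relative to `A`, so relative to `X`
(`np_join`).  Let `q` be a polynomial such that for `|y| ≤ p (|z|)` all queries of the run on `pr z y` have length `≤ q (|z|)` for all
oracles (`FP.length` for `Q`, `C`, `answers_length`).  Then with the table `d = (List.range (q (|z|) + 1)).map T` the runs with `ZT A T` and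
with `ojoin A (tally (d.getD · false))` agree (`answers_congr`; compare `NF_tab` in TD/Fal), so `z ∈ L ↔ pr z d ∈ L'`, and
`z ↦ pr z d` is computable in polynomial time relative to `X` (`tab_ptr`, TD/Reader, `FP.clock`); conclude with `np_pre`.
-/

set_option autoImplicit false

namespace Pool.Agent.Work.MP_0532f7_lc.TP

open Polynomial Pool.Agent.Work.MP_0532f7_lc.TD

/-- the words `pr z d` such that all certificates of `z` are accepted with the table `d` -/
private def up_L (A : List Bool → Bool) (Q C O : List Bool → List Bool) (p : Polynomial ℕ) :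
    Set (List Bool) :=
  {w | ∀ y : List Bool, y.length ≤ p.eval (fs w).length →
    O (pr (pr (fs w) y) (answers Q (ojoin A (tally (fun i => (sn w).getD i false)))
      (pr (fs w) y) (C (pr (fs w) y)).length)) = [true]}

private theorem up_co (A : List Bool → Bool) {Q C O : List Bool → List Bool} (hQ : FP Q)
    (hC : FP C) (hO : FP O) (p : Polynomial ℕ) : CoNPRel A (up_L A Q C O p) := by
  have h3 := hybrid (A := A) (B := fun z i => z.getD i false) (getD_fp FP.snI FP.fsI) hQ hC hO
  have h4 := h3.pre (k := fun v => pr (sn (fs v)) (pr (fs (fs v)) (sn v)))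
    (FP.fsI.snd.pair (FP.fsI.fst.pair FP.snI))
  obtain ⟨kp, hkp, hkp'⟩ := FP.clock p
  have ht : FPb (fun v => decide ((sn v).length + ([] : List Bool).length ≤
      (kp (fs (fs v))).length)) := FPb.leI FP.snI FP.nil (hkp.comp FP.fsI.fst)
  have h5 := (PolyTimeRel.of_fp ht A).iteb h4 (PolyTimeRel.of_fp (FP.const [true]) A)
  refine ⟨_, h5, p, fun w => ?_⟩
  simp only [fs_pr, sn_pr, List.length_nil, Nat.add_zero, hkp', decide_eq_true_eq]
  constructor
  · intro hw y _
    split_ifs with h6
    · exact hw y h6
    · rfl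
  · intro h y hy
    have h7 := h y (hy.trans (pmono p (fs_length w)))
    rw [if_pos hy] at h7
    exact h7

private theorem up_tab (A : List Bool → Bool) (T : ℕ → Bool) (N : ℕ) (y : List Bool)
    (hy : y.length ≤ N) : ZT A T y =
      ojoin A (tally (fun i => ((List.range (N + 1)).map T).getD i false)) y := by
  match y, hy with
  | [], _ => rfl
  | false :: y, _ => rfl
  | true :: y, hx =>
    show tally T y = tally (fun i => ((List.range (N + 1)).map T).getD i false) y
    unfold tally
    congr 1
    rw [List.length_cons] at hx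
    show T y.length = (List.map T (List.range (N + 1))).getD y.length false
    rw [List.getD_eq_getElem?_getD, List.getElem?_map, List.getElem?_range (by omega)]
    rfl

private theorem up_half {A : List Bool → Bool} (hA : NPeqCoNP A) (T : ℕ → Bool)
    {L : Set (List Bool)} (h : CoNPRel (ZT A T) L) : NPRel (ZT A T) L := by
  obtain ⟨V, ⟨Q, C, O, hQ, hC, hO, hV⟩, p, hL⟩ := h
  have h1 : NPRel A (up_L A Q C O p) := (hA _).2 (up_co A hQ.fp hC.fp hO.fp p)
  have h2 : NPRel (ZT A T) (up_L A Q C O p) := np_join h1 (tally T)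
  obtain ⟨PQ, hPQ⟩ := hQ.fp.length
  obtain ⟨PC, hPC⟩ := hC.fp.length
  obtain ⟨Np, hNp⟩ : ∃ Np : Polynomial ℕ, Np = 2 * X + 1 + p := ⟨_, rfl⟩
  obtain ⟨q, hq⟩ : ∃ q : Polynomial ℕ, q = PQ.comp (2 * Np + 1 + PC.comp Np) := ⟨_, rfl⟩
  obtain ⟨kq, hkq, hkq'⟩ := FP.clock q
  have h3 := tab_ptr A T (q := fun _ j => j) (FP.unL FP.snI) (c := fun z => true :: kq z)
    ((FP.cons true).comp hkq)
  have h4 : PolyTimeRel (ZT A T)
      (fun z => pr z ((List.range (q.eval z.length + 1)).map T)) := by
    have h5 := (PolyTimeRel.of_fp FP.id (ZT A T)).pair h3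
    simp only [List.length_cons, hkq'] at h5
    exact h5
  have h6 := np_pre h2 h4
  have key : {w : List Bool | pr w ((List.range (q.eval w.length + 1)).map T) ∈
      up_L A Q C O p} = L := by
    ext z
    rw [hL z]
    unfold up_L
    simp only [Set.mem_ofPred_eq, fs_pr, sn_pr]
    refine forall_congr' fun y => ?_
    refine imp_congr_right fun hy => ?_
    rw [hV]
    have hlen : (pr z y).length ≤ Np.eval z.length := by
      rw [pr_length, hNp]
      simp only [eval_add, eval_mul, eval_X, eval_one, eval_ofNat]
      omega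
    rw [answers_congr Q (ZT A T) _ (pr z y) (C (pr z y)).length (fun k hk => ?_)]
    refine up_tab A T _ _ ((hPQ _).trans ?_)
    rw [hq, eval_comp]
    refine pmono PQ ?_
    rw [pr_length, answers_length]
    simp only [eval_add, eval_mul, eval_comp, eval_one, eval_ofNat]
    have h7 := hPC (pr z y)
    have h8 := pmono PC hlen
    omega
  rw [key] at h6
  exact h6

theorem npco_up {A : List Bool → Bool} (hA : NPeqCoNP A) (T : ℕ → Bool) : NPeqCoNP (ZT A T) := by
  intro L
  constructor
  · intro h
    have h1 := up_half hA T (TD.NPRel.compl h)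
    have h2 := TD.NPRel.compl h1
    rwa [compl_compl] at h2
  · exact fun h => up_half hA T h

end Pool.Agent.Work.MP_0532f7_lc.TP
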