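import Mathlib
import Pool.Agent.Work.MP_0532f7_lc.TD.Final
import Pool.Agent.Work.MP_0532f7_lc.TP.ParA
import Pool.Agent.Work.MP_0532f7_lc.TP.RedT
import Pool.Agent.Work.MP_0532f7_lc.TP.StarO
import Pool.Agent.Work.MP_0532f7_lc.TP.StarN
import Pool.Agent.Work.MP_0532f7_lc.TP.StarF
import Pool.Agent.Work.MP_0532f7_lc.TP.Impl
import Pool.Agent.Work.MP_0532f7_lc.TP.NegO
import Pool.Agent.Work.MP_0532f7_lc.TP.NegN
import Pool.Agent.Work.MP_0532f7_lc.TP.NegD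
import Pool.Agent.Work.MP_0532f7_lc.TP.Up
import Pool.Agent.Work.MP_0532f7_lc.TP.PosN
import Pool.Agent.Work.MP_0532f7_lc.TP.SigN
import Pool.Agent.Work.MP_0532f7_lc.TP.SigF
import Pool.Agent.Work.MP_0532f7_lc.TP.SigD

/-!
# The tally dichotomy for four conjectures of Pudlák's programme
-/

set_option autoImplicit false

namespace Pool.Agent.Work.MP_0532f7_lc.TP

open Polynomial Pool.Agent.Work.MP_0532f7_lc.TD

theorem hard_all {A : List Bool → Bool} (h : ¬ NPeqCoNP A) {S' : Set (ℕ → Bool)}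
    (hS : SigmaSet 3 S') : ∃ F : (ℕ → Bool) → ℕ → Bool, Continuous F ∧
      (∀ y ∈ S', (∃ f, POptimalRel (ZT A (F y)) f) ∧ (∃ L, CompleteNPcoNP (ZT A (F y)) L) ∧
        (∃ R, CompleteTFNP (ZT A (F y)) R) ∧ ∃ C D, CompleteDisjCoNP (ZT A (F y)) C D) ∧
      ∀ y ∉ S', (¬ ∃ f, OptimalRel (ZT A (F y)) f) ∧ (¬ ∃ L, CompleteNPcoNP (ZT A (F y)) L) ∧
        (¬ ∃ R, CompleteTFNP (ZT A (F y)) R) ∧ ¬ ∃ C D, CompleteDisjCoNP (ZT A (F y)) C D := by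
  obtain ⟨𝓛, h1, h2⟩ := exists_hard_np h
  obtain ⟨V, hV, p, hp⟩ := CoNPRel.compl h1
  have e : (dom V p)ᶜ = 𝓛 := by
    rw [← compl_compl 𝓛]
    congr 1
    ext z
    exact (hp z).symm
  have hn : ¬ NPRel A (dom V p)ᶜ := by rw [e]; exact h2
  have hext := (dom_np hV p).2
  have h3 : CoNPRel A {z | ¬ (fs z ∈ ext V p ∧ sn z ∈ ext V p)} := by
    have h4 := NPRel.compl (np_and (np_pre hext (PolyTimeRel.of_fp FP.fsI A))
      (np_pre hext (PolyTimeRel.of_fp FP.snI A)))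
    exact h4
  obtain ⟨tf, htf, ht⟩ := tf_of_coNP h3
  obtain ⟨P, hP⟩ := run_local
  obtain ⟨F, hF, hin, hout⟩ := red_T (par_T (A := A) hP hV p hn htf ht) hS
  refine ⟨F, hF, fun y hy => ?_, fun y hy => ?_⟩
  · obtain ⟨a, s0, hPm⟩ := hin y hy
    obtain ⟨R, hR⟩ := star_F hPm
    exact ⟨star_O hPm, star_N hPm, ⟨R, hR⟩, disj_of_tfnp hR⟩
  · obtain ⟨h5, h6⟩ := hout y hy
    have h7 := neg_D hext h5 h6
    refine ⟨neg_O htf ht h5 h6, neg_N hext h5 h6, ?_, h7⟩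
    rintro ⟨R, hR⟩
    exact h7 (disj_of_tfnp hR)

private theorem preim {F : (ℕ → Bool) → ℕ → Bool} {S S' : Set (ℕ → Bool)}
    (h1 : ∀ y ∈ S', F y ∈ S) (h2 : ∀ y ∉ S', F y ∉ S) : F ⁻¹' S = S' := by
  ext y
  constructor
  · intro hy
    by_contra h
    exact h2 y h hy
  · intro hy
    exact h1 y hy

theorem tally_all (A : List Bool → Bool) :
    ((NPeqCoNP A ↔ ∀ T, ∃ f, OptimalRel (ojoin A (tally T)) f) ∧
      (NPeqCoNP A ↔ ∀ T, ∃ L, CompleteNPcoNP (ojoin A (tally T)) L) ∧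
      (NPeqCoNP A ↔ ∀ T, ∃ R, CompleteTFNP (ojoin A (tally T)) R) ∧
      (NPeqCoNP A ↔ ∀ T, ∃ C D, CompleteDisjCoNP (ojoin A (tally T)) C D)) ∧
    (¬ NPeqCoNP A →
      SigmaFourComplete {T | ∃ f, OptimalRel (ojoin A (tally T)) f} ∧
      SigmaFourComplete {T | ∃ L, CompleteNPcoNP (ojoin A (tally T)) L} ∧
      SigmaFourComplete {T | ∃ R, CompleteTFNP (ojoin A (tally T)) R} ∧
      SigmaFourComplete {T | ∃ C D, CompleteDisjCoNP (ojoin A (tally T)) C D}) ∧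
    (¬ NPeqCoNP A → ∀ S, SigmaSet 3 S → ∃ F : (ℕ → Bool) → ℕ → Bool, Continuous F ∧
      (∀ y ∈ S, (∃ f, POptimalRel (ojoin A (tally (F y))) f) ∧
        (∃ L, CompleteNPcoNP (ojoin A (tally (F y))) L) ∧
        (∃ R, CompleteTFNP (ojoin A (tally (F y))) R) ∧
        ∃ C D, CompleteDisjCoNP (ojoin A (tally (F y))) C D) ∧
      ∀ y ∉ S, (¬ ∃ f, OptimalRel (ojoin A (tally (F y))) f) ∧
        (¬ ∃ L, CompleteNPcoNP (ojoin A (tally (F y))) L) ∧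
        (¬ ∃ R, CompleteTFNP (ojoin A (tally (F y))) R) ∧
        ¬ ∃ C D, CompleteDisjCoNP (ojoin A (tally (F y))) C D) ∧
    (PeqNP A ↔ ∀ T, ∃ f, POptimalRel (ojoin A (tally T)) f) := by
  have hneg : ¬ NPeqCoNP A → ∃ T : ℕ → Bool, (¬ ∃ f, OptimalRel (ZT A T) f) ∧
      (¬ ∃ L, CompleteNPcoNP (ZT A T) L) ∧ (¬ ∃ R, CompleteTFNP (ZT A T) R) ∧
      ¬ ∃ C D, CompleteDisjCoNP (ZT A T) C D := by
    intro hc
    obtain ⟨F, -, -, h3⟩ := hard_all hc (S' := ∅) (sig_clopen isClopen_empty)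
    exact ⟨F (fun _ => false), h3 _ (Set.notMem_empty _)⟩
  refine ⟨⟨⟨fun h T => pos_O h T, fun h => ?_⟩, ⟨fun h T => pos_N (npco_up h T), fun h => ?_⟩,
    ⟨fun h T => pos_F (npco_up h T), fun h => ?_⟩, ⟨fun h T => ?_, fun h => ?_⟩⟩,
    fun h => ⟨⟨optimal_sig A, fun S' hS => ?_⟩, ⟨sig_N A, fun S' hS => ?_⟩,
      ⟨sig_F A, fun S' hS => ?_⟩, ⟨sig_D A, fun S' hS => ?_⟩⟩,
    fun h S hS => hard_all h hS, (dichotomy A).2.1⟩
  · by_contra hc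
    obtain ⟨T, h1, -⟩ := hneg hc
    exact h1 (h T)
  · by_contra hc
    obtain ⟨T, -, h1, -⟩ := hneg hc
    exact h1 (h T)
  · by_contra hc
    obtain ⟨T, -, -, h1, -⟩ := hneg hc
    exact h1 (h T)
  · obtain ⟨R, hR⟩ := pos_F (npco_up h T)
    exact disj_of_tfnp hR
  · by_contra hc
    obtain ⟨T, -, -, -, h1⟩ := hneg hc
    exact h1 (h T)
  · obtain ⟨F, h1, h2, h3⟩ := hard_all h hS
    refine ⟨F, h1, preim (fun y hy => ?_) (fun y hy => (h3 y hy).1)⟩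
    obtain ⟨f, hf⟩ := (h2 y hy).1
    exact ⟨f, hf.optimal⟩
  · obtain ⟨F, h1, h2, h3⟩ := hard_all h hS
    exact ⟨F, h1, preim (fun y hy => (h2 y hy).2.1) (fun y hy => (h3 y hy).2.1)⟩
  · obtain ⟨F, h1, h2, h3⟩ := hard_all h hS
    exact ⟨F, h1, preim (fun y hy => (h2 y hy).2.2.1) (fun y hy => (h3 y hy).2.2.1)⟩
  · obtain ⟨F, h1, h2, h3⟩ := hard_all h hS
    exact ⟨F, h1, preim (fun y hy => (h2 y hy).2.2.2) (fun y hy => (h3 y hy).2.2.2)⟩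

end Pool.Agent.Work.MP_0532f7_lc.TP
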