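import Mathlib
import Pool.Agent.Work.MP_0532f7_lc.TD.RCFin

/-!
# Cook-Levin relative to an oracle (gates of the oracle itself)

As `TD/RCGate.lean` and `TD/RCFin.lean`, with the gates `X y` instead of `X (false :: y)`.
-/

set_option autoImplicit false

namespace Pool.Agent.Work.MP_0532f7_lc.TP

open Polynomial TD

/-- the clause for the block at `b` and the length `e` -/
def gclA (l b e : ℕ) : OForm :=
  .imp (vO (b + 1 + e)) (iffO (vO b)
    (.orc (argsO ((List.range e).map (fun j => vO (b + l + 2 + j))))))

theorem gclA_eval (X v : List Bool → Bool) (l b e : ℕ) : (gclA l b e).eval X v = true ↔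
    (v (encN [b + 1 + e]) = true →
      v (encN [b]) = X ((List.range e).map (fun j => v (encN [b + l + 2 + j])))) := by
  unfold gclA
  rw [imp_eval, iffO_eval]
  have e1 : (OForm.orc (argsO ((List.range e).map (fun j => vO (b + l + 2 + j))))).eval X v
      = X ((List.range e).map (fun j => v (encN [b + l + 2 + j]))) := by
    show X ((argsO _).evals X v) = _
    rw [argsO_evals, List.map_map]
    rfl
  rw [e1]
  rfl

/-- the formula with the gates -/
def GGA (κ l o : ℕ) (ψ : OForm) : OForm :=
  chainO ((List.range κ).flatMap (fun i => (List.range (l + 1)).map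
    (fun e => gclA l (o + i * (2 * l + 2)) e))) ψ

theorem GGA_eval (X v : List Bool → Bool) (κ l o : ℕ) (ψ : OForm) :
    (GGA κ l o ψ).eval X v = true ↔ ((∀ i < κ, ∀ e ≤ l,
      v (encN [o + i * (2 * l + 2) + 1 + e]) = true →
        v (encN [o + i * (2 * l + 2)]) = X ((List.range e).map
          (fun j => v (encN [o + i * (2 * l + 2) + l + 2 + j])))) → ψ.eval X v = true) := by
  unfold GGA
  rw [chainO_eval]
  have h : (∀ C ∈ (List.range κ).flatMap (fun i => (List.range (l + 1)).map
      (fun e => gclA l (o + i * (2 * l + 2)) e)), C.eval X v = true) ↔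
      ∀ i < κ, ∀ e ≤ l, (gclA l (o + i * (2 * l + 2)) e).eval X v = true := by
    simp only [List.mem_flatMap, List.mem_map, List.mem_range]
    constructor
    · intro h i hi e he
      exact h _ ⟨i, hi, e, by omega, rfl⟩
    · rintro h C ⟨i, hi, e, he, rfl⟩
      exact h i hi e (by omega)
  rw [h]
  simp only [gclA_eval]

/-! ### the codes -/

theorem gclA_fp {fl fb fe : List Bool → List Bool} (hl : FP fl) (hb : FP fb) (he : FP fe) :
    FP (fun x => (gclA (fl x).length (fb x).length (fe x).length).code) := by
  have h1 : FP (fun x => (vO ((fb x).length + 1 + (fe x).length)).code) := by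
    refine (vC_fp ((hb.app (FP.const [true])).app he)).congr (fun x => ?_)
    rw [List.length_append, List.length_append]; rfl
  have h2 : FP (fun x => (vO (fb x).length).code) := vC_fp hb
  have hbase : FP (fun x => un ((fb x).length + (fl x).length + 2)) := by
    refine (((FP.unL hb).app (FP.unL hl)).app (FP.const (un 2))).congr (fun x => ?_)
    rw [un_append, un_append]
  have h3 := FP.flat (F := fun p w => true :: bS (p ++ w))
    ((FP.cons true).comp (FP.bSI (FP.fsI.app FP.snI))) he hbase
  have h4 : FP (fun x => (OForm.orc (argsO ((List.range (fe x).length).map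
      (fun j => vO ((fb x).length + (fl x).length + 2 + j))))).code) := by
    refine ((FP.cons true).comp ((FP.cons true).comp
      (h3.app (FP.const [false])))).congr (fun x => ?_)
    show _ = true :: true :: (argsO _).codes
    rw [argsO_codes, List.flatMap_map]
    simp only [un_append]
    rfl
  exact impC_fp h1 (iffC_fp h2 h4)

theorem GGA_fp {fk fl fo : List Bool → List Bool} {Ψ : List Bool → OForm} (hk : FP fk) (hl : FP fl)
    (ho : FP fo) (hΨ : FP (fun x => (Ψ x).code)) :
    FP (fun x => (GGA (fk x).length (fl x).length (fo x).length (Ψ x)).code) := by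
  have h1 : FP (fun z => true :: false :: (gclA (fs (fs z)).length (sn (fs z)).length
      (sn z).length).code) :=
    (FP.cons true).comp ((FP.cons false).comp (gclA_fp FP.fsI.fst FP.fsI.snd FP.snI))
  have hb : FP (fun z => un ((sn (fs z)).length + (sn z).length * (2 * (fs (fs z)).length + 2))) := by
    refine ((FP.unL FP.fsI.snd).app (FP.mulU FP.snI ((FP.mulU (FP.const [true, true])
      FP.fsI.fst).app (FP.const [true, true])))).congr (fun z => ?_)
    rw [un_append, List.length_append, un_length]
    rfl
  have h2 := FP.flat (F := fun q w => true :: false :: (gclA (fs q).length (sn q).length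
    w.length).code) h1 (c := fun z => true :: fs (fs z))
    (h := fun z => pr (fs (fs z)) (un ((sn (fs z)).length + (sn z).length *
      (2 * (fs (fs z)).length + 2)))) ((FP.cons true).comp FP.fsI.fst) (FP.fsI.fst.pair hb)
  have h3 := FP.flat (F := fun p w => (List.range (true :: fs p).length).flatMap
    (fun e => true :: false :: (gclA (fs p).length ((sn p).length + w.length *
      (2 * (fs p).length + 2)) e).code)) (by
      refine h2.congr (fun z => ?_)
      simp only [fs_pr, sn_pr, un_length]) hk (hl.pair ho)
  refine (h3.app hΨ).congr (fun x => ?_)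
  unfold GGA
  rw [chainO_code, List.flatMap_assoc]
  simp only [fs_pr, sn_pr, un_length, List.length_cons, List.flatMap_map]

/-! ### the reduction -/

theorem tfA_exists {Q C O : List Bool → List Bool} (hQ : FP Q) (hC : FP C) (hO : FP O)
    (p : Polynomial ℕ) : ∃ tf : List Bool → List Bool, FP tf ∧
      ∀ (A : List Bool → Bool) (z : List Bool), tf z ∈ OTAUT A ↔
        ∀ y : List Bool, y.length ≤ p.eval z.length →
          O (pr (pr z y) (answers Q A (pr z y) (C (pr z y)).length)) = [true] := by
  obtain ⟨R, κ, l, hR, hsim⟩ := sim_pred hQ hC hO p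
  obtain ⟨Φ, hΦ, hcl⟩ := cl_val hR (2 * p + 1 + κ * (2 * l + 2))
  obtain ⟨e, he, he'⟩ := exists_embCode
  obtain ⟨kf, hkf, hkf'⟩ := FP.clock κ
  obtain ⟨lf, hlf, hlf'⟩ := FP.clock l
  obtain ⟨of, hof, hof'⟩ := FP.clock (2 * p + 1)
  have hemb : FP (fun z => (emb (Φ z)).code) := (he.comp hΦ).congr (fun z => he' _)
  refine ⟨_, GGA_fp hkf hlf hof hemb, fun A z => ?_⟩
  rw [code_mem_OTAUT, ← hsim A z]
  have hm : (2 * p + 1 + κ * (2 * l + 2)).eval z.length = 2 * p.eval z.length + 1 +
      κ.eval z.length * (2 * l.eval z.length + 2) := by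
    simp only [eval_add, eval_mul, eval_ofNat, eval_one]
  have ho : (of z).length = 2 * p.eval z.length + 1 := by
    rw [hof']; simp only [eval_add, eval_mul, eval_ofNat, eval_one]
  rw [← hm, ← hcl z (KW A (2 * p.eval z.length + 1) (κ.eval z.length) (l.eval z.length)), hkf',
    hlf', ho, hm]
  apply forall_congr'
  intro v
  rw [GGA_eval, emb_eval]
  have hget : ∀ n, n < 2 * p.eval z.length + 1 + κ.eval z.length * (2 * l.eval z.length + 2) →
      (vwd (2 * p.eval z.length + 1 + κ.eval z.length * (2 * l.eval z.length + 2)) v).getD n false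
        = v (encN [n]) := by
    intro n hn
    unfold vwd
    rw [List.getD_eq_getElem?_getD, List.getElem?_map, List.getElem?_range hn]
    rfl
  have hpos : ∀ i < κ.eval z.length, ∀ r < 2 * l.eval z.length + 2,
      2 * p.eval z.length + 1 + i * (2 * l.eval z.length + 2) + r <
        2 * p.eval z.length + 1 + κ.eval z.length * (2 * l.eval z.length + 2) := by
    intro i hi r hr
    have : (i + 1) * (2 * l.eval z.length + 2) ≤ κ.eval z.length * (2 * l.eval z.length + 2) :=
      Nat.mul_le_mul_right _ hi
    rw [Nat.succ_mul] at this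
    omega
  have key : KW A (2 * p.eval z.length + 1) (κ.eval z.length) (l.eval z.length)
      (vwd (2 * p.eval z.length + 1 + κ.eval z.length * (2 * l.eval z.length + 2)) v) ↔
      (∀ i < κ.eval z.length, ∀ e ≤ l.eval z.length,
        v (encN [2 * p.eval z.length + 1 + i * (2 * l.eval z.length + 2) + 1 + e]) = true →
        v (encN [2 * p.eval z.length + 1 + i * (2 * l.eval z.length + 2)]) =
          A ((List.range e).map (fun j => v (encN [2 * p.eval z.length + 1 +
            i * (2 * l.eval z.length + 2) + l.eval z.length + 2 + j])))) := by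
    unfold KW bpos
    refine forall_congr' fun i => forall_congr' fun hi => forall_congr' fun e =>
      forall_congr' fun he => ?_
    have h1 := hpos i hi (1 + e) (by omega)
    have h2 := hpos i hi 0 (by omega)
    rw [← Nat.add_assoc] at h1
    rw [Nat.add_zero] at h2
    rw [hget _ h1, hget _ h2]
    have h3 : (List.range e).map (fun j => (vwd (2 * p.eval z.length + 1 + κ.eval z.length *
        (2 * l.eval z.length + 2)) v).getD (2 * p.eval z.length + 1 + i *
          (2 * l.eval z.length + 2) + l.eval z.length + 2 + j) false) =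
        (List.range e).map (fun j => v (encN [2 * p.eval z.length + 1 +
            i * (2 * l.eval z.length + 2) + l.eval z.length + 2 + j])) := by
      apply List.map_congr_left
      intro j hj
      rw [List.mem_range] at hj
      have h4 := hpos i hi (l.eval z.length + 2 + j) (by omega)
      rw [← Nat.add_assoc, ← Nat.add_assoc] at h4
      exact hget _ h4
    rw [h3]
  rw [key]

theorem tfA_of_coNP {A : List Bool → Bool} {𝓛 : Set (List Bool)} (h : CoNPRel A 𝓛) :
    ∃ tf : List Bool → List Bool, FP tf ∧ ∀ z : List Bool, tf z ∈ OTAUT A ↔ z ∈ 𝓛 := by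
  obtain ⟨V, ⟨Q, C, O, hQ, hC, hO, hV⟩, p, hp⟩ := h
  obtain ⟨tf, h1, h2⟩ := tfA_exists hQ.fp hC.fp hO.fp p
  refine ⟨tf, h1, fun z => ?_⟩
  rw [h2, hp]
  simp only [hV]

end Pool.Agent.Work.MP_0532f7_lc.TP
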