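import Mathlib
import Pool.Agent.Work.MP_0532f7_lc.GTop
import Pool.Agent.Work.MP_0532f7_lc.TD.InDefs
import Pool.Agent.Work.MP_0532f7_lc.TD.CDefs

/-!
# For generic tally oracles soundness is forced by a finite part
-/

set_option autoImplicit false

namespace Pool.Agent.Work.MP_0532f7_lc.TP

open TD

/-- soundness of every system that is sound relative to `A ⊕ 1^T` is forced by a finite part of
`T` -/
def GenT (A : List Bool → Bool) (T : ℕ → Bool) : Prop := ∀ Q C O : List Bool → List Bool,
    PolyTime Q → PolyTime C → PolyTime O → (∀ v, ora Q C O (ZT A T) v ∈ OTAUT (ZT A T)) →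
      ∃ n, ∀ T' : ℕ → Bool, (∀ i < n, T' i = T i) →
        ∀ v, ora Q C O (ZT A T') v ∈ OTAUT (ZT A T')

theorem continuous_ZT (A : List Bool → Bool) : Continuous (ZT A) := by
  refine continuous_pi fun y => ?_
  match y with
  | [] => exact continuous_const
  | false :: x => exact continuous_const
  | true :: x =>
    show Continuous (fun T : ℕ → Bool => tally T x)
    unfold tally
    exact (continuous_of_discreteTopology (f := fun b : Bool =>
      decide (x = List.replicate x.length true) && b)).comp (continuous_apply x.length)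

theorem nhd_nat {U : Set (ℕ → Bool)} (hU : IsOpen U) {T : ℕ → Bool} (hT : T ∈ U) :
    ∃ n, ∀ T' : ℕ → Bool, (∀ i < n, T' i = T i) → T' ∈ U := by
  obtain ⟨I, u, h1, h2⟩ := isOpen_pi_iff.1 hU T hT
  refine ⟨I.sup (fun i => i + 1), fun T' h => h2 ?_⟩
  intro i hi
  have h3 : i + 1 ≤ I.sup (fun i => i + 1) := Finset.le_sup (f := fun i : ℕ => i + 1) hi
  rw [h i (by omega)]
  exact (h1 i hi).2

/-- tally oracles for which the system is not sound -/
def badT (A : List Bool → Bool) (Q C O : List Bool → List Bool) : Set (ℕ → Bool) :=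
  ZT A ⁻¹' gtop_bad Q C O

theorem badT_residual (A : List Bool → Bool) (Q C O : List Bool → List Bool) :
    badT A Q C O ∪ interior (badT A Q C O)ᶜ ∈ residual (ℕ → Bool) := by
  have ho : IsOpen (badT A Q C O) := (gtop_bad_open Q C O).preimage (continuous_ZT A)
  apply residual_of_dense_open (ho.union isOpen_interior)
  rw [interior_compl]
  intro R
  by_cases h : R ∈ closure (badT A Q C O)
  · exact closure_mono Set.subset_union_left h
  · exact subset_closure (Or.inr h)

theorem generic_tally (A : List Bool → Bool) : ∀ᶠ T in residual (ℕ → Bool), GenT A T := by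
  have hc := countable_polyTime
  have h1 := (eventually_countable_ball (l := residual (ℕ → Bool))
    (S := {t : (List Bool → List Bool) × (List Bool → List Bool) × (List Bool → List Bool) |
      PolyTime t.1 ∧ PolyTime t.2.1 ∧ PolyTime t.2.2})
    (p := fun T t _ => T ∈ badT A t.1 t.2.1 t.2.2 ∪ interior (badT A t.1 t.2.1 t.2.2)ᶜ) (by
      refine ((hc.prod (hc.prod hc)).mono ?_)
      rintro ⟨a, b, c⟩ ⟨h1, h2, h3⟩
      exact ⟨h1, h2, h3⟩)).mpr (fun t _ => badT_residual A t.1 t.2.1 t.2.2)
  filter_upwards [h1] with T hT Q C O hQ hC hO hs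
  rcases hT (Q, C, O) ⟨hQ, hC, hO⟩ with h | h
  · obtain ⟨v, hv⟩ := h
    exact absurd (hs v) hv
  · obtain ⟨n, hn⟩ := nhd_nat isOpen_interior h
    refine ⟨n, fun T' h' v => ?_⟩
    by_contra hcon
    exact interior_subset (hn T' h') ⟨v, hcon⟩

end Pool.Agent.Work.MP_0532f7_lc.TP
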