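import Mathlib
import Pool.Agent.Work.MP_0532f7_lc.TP.GeA
import Pool.Agent.Work.MP_0532f7_lc.TP.GeB
import Pool.Agent.Work.MP_0532f7_lc.TD.Fal

/-!
# Generic tally oracles: optimal systems relative to `A` give optimal systems relative to `A ⊕ 1^T`
-/

set_option autoImplicit false

namespace Pool.Agent.Work.MP_0532f7_lc.TP

open Polynomial TD

/-- a long table of `T` gives the same values as `T` -/
theorem ora_tab {Q C : List Bool → List Bool} (O : List Bool → List Bool) (hQ : FP Q)
    (hC : FP C) : ∃ q : Polynomial ℕ, ∀ (A : List Bool → Bool) (T : ℕ → Bool) (w : List Bool)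
      (N : ℕ), q.eval w.length ≤ N →
        ora Q C O (tbo A ((List.range N).map T)) w = ora Q C O (ZT A T) w := by
  obtain ⟨PQ, hPQ⟩ := hQ.length
  obtain ⟨PC, hPC⟩ := hC.length
  refine ⟨PQ.comp (2 * X + 1 + PC), fun A T w N hN => ?_⟩
  simp only [eval_add, eval_comp, eval_mul, eval_ofNat, eval_X, eval_one] at hN
  unfold ora
  congr 2
  apply answers_congr
  intro k hk
  have h1 := hPQ (pr w (answers Q (ZT A T) w k))
  rw [pr_length, answers_length] at h1
  have h2 := hPC w
  have h3 := pmono PQ (show 2 * w.length + 1 + k ≤ 2 * w.length + 1 + PC.eval w.length by omega)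
  have h4 : (Q (pr w (answers Q (ZT A T) w k))).length ≤ N := by omega
  generalize Q (pr w (answers Q (ZT A T) w k)) = y at h4
  match y, h4 with
  | [], _ => rfl
  | false :: x, _ => rfl
  | true :: x, h4 =>
    show tally T x = tally (fun i => ((List.range N).map T).getD i false) x
    unfold tally
    congr 1
    rw [List.length_cons] at h4
    beta_reduce
    rw [List.getD_eq_getElem?_getD, List.getElem?_map, List.getElem?_range (by omega)]
    rfl

theorem ora_tbo_ptr (A : List Bool → Bool) {Q C O : List Bool → List Bool} (hQ : FP Q)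
    (hC : FP C) (hO : FP O) :
    PolyTimeRel A (fun v => ora Q C O (tbo A (fs v)) (sn v)) :=
  hybrid (A := A) (B := fun z i => z.getD i false) (getD_fp FP.snI FP.fsI) hQ hC hO

/-- the constant part of the tables -/
theorem take_eq {T : ℕ → Bool} {n : ℕ} {d : List Bool} (h : d.take n = (List.range n).map T) :
    ∀ i < n, d.getD i false = T i := by
  intro i hi
  have h1 : (d.take n)[i]? = ((List.range n).map T)[i]? := by rw [h]
  rw [List.getElem?_take, if_pos hi, List.getElem?_map, List.getElem?_range hi] at h1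
  rw [List.getD_eq_getElem?_getD, h1]
  rfl

theorem take_tab (T : ℕ → Bool) {n N : ℕ} (h : n ≤ N) :
    ((List.range N).map T).take n = (List.range n).map T := by
  rw [← List.map_take, List.take_range, min_eq_left h]

theorem take_fp (n : ℕ) {f : List Bool → List Bool} (hf : FP f) (d : List Bool) :
    FPb (fun x => decide ((f x).take n = d)) := by
  refine (FPb.eq (FP.take (FP.const (un n)) hf) (FP.const d)).congr (fun x => ?_)
  rw [un_length]

theorem NF_take {A : List Bool → Bool} {c d : List Bool} (h : NF (tbo A d) c) :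
    NF (tbo A (d.take (c.length + 1))) c := by
  intro φ hφ u
  rw [← h φ hφ u]
  apply eval_len
  intro x hx
  rw [hφ] at hx
  match x, hx with
  | [], _ => rfl
  | false :: y, _ => rfl
  | true :: y, hx =>
    show tally (fun i => (d.take (c.length + 1)).getD i false) y =
      tally (fun i => d.getD i false) y
    unfold tally
    congr 1
    rw [List.length_cons] at hx
    beta_reduce
    rw [List.getD_eq_getElem?_getD, List.getElem?_take, if_pos (by omega),
      List.getD_eq_getElem?_getD]

/-- the sum with a sound system is a proof system -/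
theorem sum_sys {X : List Bool → Bool} {f g : List Bool → List Bool} (hf : ProofSystemRel X f)
    (hg : PolyTimeRel X g) (hs : ∀ w, g w ∈ OTAUT X) :
    ProofSystemRel X (fun w => if w.head?.getD false then g w.tail else f w.tail) := by
  refine ⟨hf.1.sum hg, ?_⟩
  apply Set.Subset.antisymm
  · rintro _ ⟨w, rfl⟩
    show (if w.head?.getD false then g w.tail else f w.tail) ∈ OTAUT X
    split_ifs with h1
    · exact hs _
    · rw [← hf.2]; exact ⟨_, rfl⟩
  · intro x hx
    rw [← hf.2] at hx
    obtain ⟨w, rfl⟩ := hx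
    exact ⟨false :: w, rfl⟩

section

variable (T : ℕ → Bool) (f tf : List Bool → List Bool) (b : List Bool → Bool)

/-- the system relative to `A ⊕ 1^T`: the input `(c, v, e)` is a proof of `c` if `v` is a proof of
the formula that says that `c` is true for the table of `T` -/
def sysF (u : List Bool) : List Bool :=
  if (b (pr (fs u) (sn (sn u))) &&
    decide (f (fs (sn u)) = tf (pr (fs u) (tbT T (fs u))))) = true then fs u else oTop.code

variable {T f tf b}

theorem sysF_ptr {A : List Bool → Bool} (hf : PolyTimeRel A f) (htf : FP tf) (hb : FPb b) :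
    PolyTimeRel (ZT A T) (sysF T f tf b) := by
  have h1 : PolyTimeRel (ZT A T) (fun u => f (fs (sn u))) := (hf.join _).pre FP.snI.fst
  have h2 : PolyTimeRel (ZT A T) (fun u => tf (pr (fs u) (tbT T (fs u)))) :=
    (tbT_ptr A T (PolyTimeRel.of_fp FP.fsI _)).post htf
  have h3 : PolyTimeRel (ZT A T) (fun u => [b (pr (fs u) (sn (sn u))) &&
      decide (f (fs (sn u)) = tf (pr (fs u) (tbT T (fs u))))]) := by
    have h4 := (((PolyTimeRel.of_fp FP.id (ZT A T)).pair h1).pair h2).post
      (k := fun z => [b (pr (fs (fs (fs z))) (sn (sn (fs (fs z))))) && decide (sn (fs z) = sn z)])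
      ((hb.comp (FP.fsI.fst.fst.pair FP.fsI.fst.snd.snd)).and (FPb.eq FP.fsI.snd FP.snI))
    simpa only [fs_pr, sn_pr] using h4
  exact h3.iteb (PolyTimeRel.of_fp FP.fsI _) (PolyTimeRel.of_fp (FP.const _) _)

theorem sysF_sound {A : List Bool → Bool} (hf : Set.range f = OTAUT A)
    (ht : ∀ z, tf z ∈ OTAUT A ↔ z ∈ LN A)
    (hb : ∀ c d, b (pr c d) = true → ∃ φ : OForm, φ.code = c) (u : List Bool) :
    sysF T f tf b u ∈ OTAUT (ZT A T) := by
  unfold sysF
  split_ifs with h
  · rw [Bool.and_eq_true, decide_eq_true_eq] at h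
    rw [mem_OTAUT_iff]
    refine ⟨hb _ _ h.1, ?_⟩
    rw [← NF_tab, ← ht, ← h.2, ← hf]
    exact ⟨_, rfl⟩
  · exact oTop_mem _

theorem sysF_eq {c v e : List Bool} (hb : b (pr c e) = true)
    (h : f v = tf (pr c (tbT T c))) : sysF T f tf b (pr c (pr v e)) = c := by
  unfold sysF
  simp only [fs_pr, sn_pr]
  rw [if_pos]
  rw [Bool.and_eq_true, decide_eq_true_eq]
  exact ⟨hb, h⟩

end

theorem dirA {A : List Bool → Bool} {T : ℕ → Bool} (hG : GenT A T) {f : List Bool → List Bool}
    (hf : OptimalRel A f) : ∃ F, OptimalRel (ZT A T) F := by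
  obtain ⟨tf, htf, ht⟩ := tfA_of_coNP (LN_coNP A)
  obtain ⟨b, P, hb, hb1, hb2⟩ := exists_cod
  refine ⟨sysF T f tf b, ⟨sysF_ptr hf.1.1 htf hb, ?_⟩, ?_⟩
  · apply Set.Subset.antisymm
    · rintro _ ⟨u, rfl⟩
      exact sysF_sound hf.1.2 ht hb1 u
    · intro c hc
      rw [mem_OTAUT_iff] at hc
      obtain ⟨⟨φ, hφ⟩, hc⟩ := hc
      obtain ⟨e, -, he⟩ := hb2 φ
      rw [hφ] at he
      rw [← NF_tab, ← ht, ← hf.1.2] at hc
      obtain ⟨v, hv⟩ := hc
      exact ⟨_, sysF_eq he hv⟩
  · rintro g ⟨hg, hgr⟩
    obtain ⟨Q, C, O, hQ, hC, hO, hgo⟩ := id hg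
    have hgo' : ∀ w, g w = ora Q C O (ZT A T) w := hgo
    obtain ⟨n0, hn0⟩ := hG Q C O hQ hC hO (fun v => by
      rw [← hgo', ← hgr]; exact ⟨v, rfl⟩)
    obtain ⟨q, hq⟩ := ora_tab O hQ.fp hC.fp
    obtain ⟨PG, hPG⟩ := hg.length
    -- the system relative to `A`
    obtain ⟨cc, hcc⟩ : ∃ cc : List Bool → List Bool, ∀ v, cc v = ora Q C O (tbo A (fs v)) (sn v) :=
      ⟨_, fun _ => rfl⟩
    have hccp : PolyTimeRel A cc := by
      rw [show cc = fun v => ora Q C O (tbo A (fs v)) (sn v) from funext hcc]
      exact ora_tbo_ptr A hQ.fp hC.fp hO.fp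
    obtain ⟨g', hg'⟩ : ∃ g' : List Bool → List Bool, ∀ v, g' v =
        if decide ((fs v).take n0 = (List.range n0).map T) = true then
          tf (pr (cc v) ((fs v).take ((cc v).length + 1))) else oTop.code := ⟨_, fun _ => rfl⟩
    have hg'p : PolyTimeRel A g' := by
      rw [show g' = _ from funext hg']
      have h1 : PolyTimeRel A (fun v => tf (pr (cc v) ((fs v).take ((cc v).length + 1)))) := by
        have h2 := ((PolyTimeRel.of_fp FP.id A).pair hccp).post
          (k := fun z => tf (pr (sn z) ((fs (fs z)).take (true :: sn z).length)))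
          (htf.comp (FP.snI.pair (FP.take ((FP.cons true).comp FP.snI) FP.fsI.fst)))
        simpa only [fs_pr, sn_pr, List.length_cons] using h2
      exact (PolyTimeRel.of_fp (take_fp n0 FP.fsI _) A).iteb h1
        (PolyTimeRel.of_fp (FP.const _) _)
    have hg's : ∀ v, g' v ∈ OTAUT A := by
      intro v
      rw [hg']
      split_ifs with h
      · rw [decide_eq_true_eq] at h
        rw [ht]
        have h1 : cc v ∈ OTAUT (tbo A (fs v)) := by
          rw [hcc]
          exact hn0 (fun i => (fs v).getD i false) (take_eq h) (sn v)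
        unfold LN
        rw [Set.mem_ofPred_eq, fs_pr, sn_pr]
        exact NF_take (NF_of_mem h1)
      · exact oTop_mem _
    obtain ⟨h, p, hh⟩ := hf.2 _ (sum_sys hf.1 hg'p hg's)
    have hcode : ∀ w, ∃ e : List Bool, e.length ≤ P.eval (g w).length ∧
        b (pr (g w) e) = true := by
      intro w
      have h1 : g w ∈ OTAUT (ZT A T) := by rw [← hgr]; exact ⟨w, rfl⟩
      obtain ⟨φ, hφ, -⟩ := h1
      obtain ⟨e, h1, h2⟩ := hb2 φ
      rw [hφ] at h1 h2
      exact ⟨e, h1, h2⟩
    choose e he1 he2 using hcode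
    obtain ⟨N, hN⟩ : ∃ N : Polynomial ℕ, N = Polynomial.C n0 + q + PG + 1 := ⟨_, rfl⟩
    have hNe : ∀ n, N.eval n = n0 + q.eval n + PG.eval n + 1 := by
      intro n
      rw [hN]
      simp only [eval_add, eval_C, eval_one]
    refine ⟨fun w => pr (g w) (pr (h (true :: pr ((List.range (N.eval w.length)).map T) w)) (e w)),
      2 * PG + 1 + (2 * p.comp (1 + (2 * N + 1 + X)) + 1 + P.comp PG), fun w => ⟨?_, ?_⟩⟩
    · apply sysF_eq (he2 w)
      rw [(hh _).1]
      have e1 : cc (pr ((List.range (N.eval w.length)).map T) w) = g w := by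
        rw [hcc, fs_pr, sn_pr, hgo', hq A T w _ (by rw [hNe]; omega)]
      show g' (pr ((List.range (N.eval w.length)).map T) w) = _
      rw [hg', e1, fs_pr, if_pos]
      · congr 2
        rw [take_tab]
        · rfl
        · rw [hNe]
          have := hPG w
          omega
      · rw [decide_eq_true_eq]
        exact take_tab T (by rw [hNe]; omega)
    · have a1 := (hh (true :: pr ((List.range (N.eval w.length)).map T) w)).2
      rw [List.length_cons, pr_length, List.length_map, List.length_range] at a1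
      have a2 := hPG w
      have a3 := he1 w
      have a4 := pmono P a2
      have a5 := pmono p (show 2 * N.eval w.length + 1 + w.length + 1 ≤
        1 + (2 * N.eval w.length + 1 + w.length) by omega)
      rw [pr_length, pr_length]
      simp only [eval_add, eval_mul, eval_comp, eval_X, eval_one, eval_ofNat]
      omega

end Pool.Agent.Work.MP_0532f7_lc.TP
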