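import Mathlib
import Pool.Agent.Work.MP_0532f7_lc.TP.GeC

/-!
# Generic tally oracles: optimal systems relative to `A ⊕ 1^T` give optimal systems relative to `A`
-/

set_option autoImplicit false

namespace Pool.Agent.Work.MP_0532f7_lc.TP

open Polynomial TD

theorem NF_coNP (A : List Bool → Bool) : CoNPRel A {c | NF A c} := by
  obtain ⟨Q, C, O, hQ, hC, hO, h1, P, h2⟩ := fal_unif
  have h3 : PolyTimeRel A (ora Q C O A) :=
    ⟨Q, C, O, hQ.polyTime, hC.polyTime, hO.polyTime, fun w => rfl⟩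
  have h4 := h3.post (k := fun a => if decide (a = [true]) then [false] else [true])
    (FP.ite (FPb.eq FP.id (FP.const _)) (FP.const _) (FP.const _))
  refine ⟨_, h4, P, fun z => ?_⟩
  simp only [decide_eq_true_eq]
  constructor
  · intro hz y _
    rw [if_neg]
    intro h5
    obtain ⟨φ, h6, u, h7⟩ := h1 A _ _ h5
    rw [hz φ h6 u] at h7
    exact absurd h7 (by simp)
  · intro h φ hφ u
    by_contra h5
    rw [Bool.not_eq_true] at h5
    obtain ⟨y, h6, h7⟩ := h2 A φ u h5
    rw [hφ] at h6 h7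
    have h8 := h y h6
    unfold ora at h8
    rw [if_pos h7] at h8
    exact absurd h8 (by simp)

section

variable (A : List Bool → Bool) (Q C O tf : List Bool → List Bool) (b : List Bool → Bool)
  (n0 : ℕ) (t0 : List Bool)

/-- the system relative to `A`: the input `(c, w, d, e)` is a proof of `c` if `w` is a proof in the
system relative to `A ⊕ 1^T` of the formula that says that `c` is true relative to `A`, where the
table `d` is used instead of `T` -/
def sysG (u : List Bool) : List Bool :=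
  if ((b (pr (fs u) (sn (sn (sn u)))) && decide ((fs (sn (sn u))).take n0 = t0)) &&
    decide (ora Q C O (tbo A (fs (sn (sn u)))) (fs (sn u)) = tf (fs u))) = true then fs u
  else oTop.code

variable {A Q C O tf b n0 t0}

theorem sysG_ptr (hQ : FP Q) (hC : FP C) (hO : FP O) (htf : FP tf) (hb : FPb b) :
    PolyTimeRel A (sysG A Q C O tf b n0 t0) := by
  have h1 := (ora_tbo_ptr A hQ hC hO).pre (k := fun u => pr (fs (sn (sn u))) (fs (sn u)))
    (FP.snI.snd.fst.pair FP.snI.fst)
  simp only [fs_pr, sn_pr] at h1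
  have h3 : PolyTimeRel A (fun u => [(b (pr (fs u) (sn (sn (sn u)))) &&
      decide ((fs (sn (sn u))).take n0 = t0)) &&
      decide (ora Q C O (tbo A (fs (sn (sn u)))) (fs (sn u)) = tf (fs u))]) := by
    have h4 := ((PolyTimeRel.of_fp FP.id A).pair h1).post
      (k := fun z => [(b (pr (fs (fs z)) (sn (sn (sn (fs z))))) &&
        decide ((fs (sn (sn (fs z)))).take n0 = t0)) && decide (sn z = tf (fs (fs z)))])
      (((hb.comp (FP.fsI.fst.pair FP.fsI.snd.snd.snd)).and
        (take_fp n0 FP.fsI.snd.snd.fst t0)).and (FPb.eq FP.snI (htf.comp FP.fsI.fst)))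
    simpa only [fs_pr, sn_pr] using h4
  exact h3.iteb (PolyTimeRel.of_fp FP.fsI _) (PolyTimeRel.of_fp (FP.const _) _)

theorem sysG_sound {T : ℕ → Bool} (hn : ∀ T' : ℕ → Bool, (∀ i < n0, T' i = T i) →
      ∀ v, ora Q C O (ZT A T') v ∈ OTAUT (ZT A T'))
    (ht : ∀ (B : List Bool → Bool) (z : List Bool), tf z ∈ OTAUT (ojoin A B) ↔ z ∈ {c | NF A c})
    (hb : ∀ c d, b (pr c d) = true → ∃ φ : OForm, φ.code = c) (u : List Bool) :
    sysG A Q C O tf b n0 ((List.range n0).map T) u ∈ OTAUT A := by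
  unfold sysG
  split_ifs with h
  · rw [Bool.and_eq_true, Bool.and_eq_true, decide_eq_true_eq, decide_eq_true_eq] at h
    rw [mem_OTAUT_iff]
    refine ⟨hb _ _ h.1.1, ?_⟩
    have h1 := hn (fun i => (fs (sn (sn u))).getD i false) (take_eq h.1.2) (fs (sn u))
    have h2 : ora Q C O (tbo A (fs (sn (sn u)))) (fs (sn u)) ∈
      OTAUT (ojoin A (tally (fun i => (fs (sn (sn u))).getD i false))) := h1
    rw [h.2, ht] at h2
    exact h2
  · exact oTop_mem _

theorem sysG_eq {c w d e : List Bool} (hb : b (pr c e) = true) (hd : d.take n0 = t0)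
    (h : ora Q C O (tbo A d) w = tf c) :
    sysG A Q C O tf b n0 t0 (pr c (pr w (pr d e))) = c := by
  unfold sysG
  simp only [fs_pr, sn_pr]
  rw [if_pos]
  rw [Bool.and_eq_true, Bool.and_eq_true, decide_eq_true_eq, decide_eq_true_eq]
  exact ⟨⟨hb, hd⟩, h⟩

end

theorem dirB {A : List Bool → Bool} {T : ℕ → Bool} (hG : GenT A T) {F : List Bool → List Bool}
    (hF : OptimalRel (ZT A T) F) : ∃ f, OptimalRel A f := by
  obtain ⟨Q, C, O, hQ, hC, hO, hFo⟩ := id hF.1.1
  have hFo' : ∀ w, F w = ora Q C O (ZT A T) w := hFo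
  obtain ⟨n0, hn0⟩ := hG Q C O hQ hC hO (fun v => by
    rw [← hFo', ← hF.1.2]; exact ⟨v, rfl⟩)
  obtain ⟨q, hq⟩ := ora_tab O hQ.fp hC.fp
  obtain ⟨tf, htf, ht⟩ := tf_of_coNP (NF_coNP A)
  obtain ⟨b, P, hb, hb1, hb2⟩ := exists_cod
  obtain ⟨N, hN⟩ : ∃ N : Polynomial ℕ, N = Polynomial.C n0 + q := ⟨_, rfl⟩
  have hNe : ∀ n, N.eval n = n0 + q.eval n := by
    intro n
    rw [hN]
    simp only [eval_add, eval_C]
  have key : ∀ c w e, b (pr c e) = true → F w = tf c →
      sysG A Q C O tf b n0 ((List.range n0).map T)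
        (pr c (pr w (pr ((List.range (N.eval w.length)).map T) e))) = c := by
    intro c w e he hw
    apply sysG_eq he (take_tab T (by rw [hNe]; omega))
    rw [hq A T w _ (by rw [hNe]; omega), ← hFo', hw]
  refine ⟨sysG A Q C O tf b n0 ((List.range n0).map T),
    ⟨sysG_ptr hQ.fp hC.fp hO.fp htf hb, ?_⟩, ?_⟩
  · apply Set.Subset.antisymm
    · rintro _ ⟨u, rfl⟩
      exact sysG_sound hn0 ht hb1 u
    · intro c hc
      rw [mem_OTAUT_iff] at hc
      obtain ⟨⟨φ, hφ⟩, hc⟩ := hc
      obtain ⟨e, -, he⟩ := hb2 φ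
      rw [hφ] at he
      have h1 : tf c ∈ OTAUT (ZT A T) := (ht (tally T) c).mpr hc
      rw [← hF.1.2] at h1
      obtain ⟨w, hw⟩ := h1
      exact ⟨_, key c w e he hw⟩
  · rintro g ⟨hg, hgr⟩
    obtain ⟨PG, hPG⟩ := hg.length
    have hgm : ∀ w, g w ∈ OTAUT A := fun w => by rw [← hgr]; exact ⟨w, rfl⟩
    obtain ⟨h, p, hh⟩ := hF.2 _ (sum_sys hF.1 ((hg.post htf).join (tally T)) (fun w =>
      (ht (tally T) (g w)).mpr (NF_of_mem (hgm w))))
    have hcode : ∀ w, ∃ e : List Bool, e.length ≤ P.eval (g w).length ∧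
        b (pr (g w) e) = true := by
      intro w
      obtain ⟨φ, hφ, -⟩ := hgm w
      obtain ⟨e, h1, h2⟩ := hb2 φ
      rw [hφ] at h1 h2
      exact ⟨e, h1, h2⟩
    choose e he1 he2 using hcode
    refine ⟨fun w => pr (g w) (pr (h (true :: w)) (pr ((List.range
      (N.eval (h (true :: w)).length)).map T) (e w))),
      2 * PG + 1 + (2 * p.comp (X + 1) + 1 + (2 * N.comp (p.comp (X + 1)) + 1 + P.comp PG)),
      fun w => ⟨?_, ?_⟩⟩
    · apply key _ _ _ (he2 w)
      rw [(hh _).1]
      rfl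
    · have a1 := (hh (true :: w)).2
      rw [List.length_cons] at a1
      have a2 := hPG w
      have a3 := he1 w
      have a4 := pmono P a2
      have a5 := pmono N a1
      rw [pr_length, pr_length, pr_length, List.length_map, List.length_range]
      simp only [eval_add, eval_mul, eval_comp, eval_X, eval_one, eval_ofNat]
      omega

end Pool.Agent.Work.MP_0532f7_lc.TP
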