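import Mathlib
import Pool.Agent.Work.MP_0532f7_lc.TP.GeD

/-!
# Generic tally oracles
-/

set_option autoImplicit false

namespace Pool.Agent.Work.MP_0532f7_lc.TP

open TD

/-- for a generic tally oracle `T` there is an optimal proof system relative to `A ⊕ 1^T` if and only
if there is one relative to `A` -/
theorem tally_generic (A : List Bool → Bool) : ∀ᶠ T in residual (ℕ → Bool),
    ((∃ f, OptimalRel (ojoin A (tally T)) f) ↔ ∃ f, OptimalRel A f) := by
  filter_upwards [generic_tally A] with T hT
  exact ⟨fun ⟨_, hF⟩ => dirB hT hF, fun ⟨_, hf⟩ => dirA hT hf⟩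

/-- the two clauses: the set of the tally oracles with an optimal system is comeager or meager -/
theorem tally_generic_two (A : List Bool → Bool) :
    ((∃ f, OptimalRel A f) →
      {T : ℕ → Bool | ∃ f, OptimalRel (ojoin A (tally T)) f} ∈ residual (ℕ → Bool)) ∧
    ((¬ ∃ f, OptimalRel A f) →
      {T : ℕ → Bool | ∃ f, OptimalRel (ojoin A (tally T)) f}ᶜ ∈ residual (ℕ → Bool)) := by
  constructor
  · intro h
    filter_upwards [tally_generic A] with T hT
    exact hT.mpr h
  · intro h
    filter_upwards [tally_generic A] with T hT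
    exact fun h' => h (hT.mp h')

end Pool.Agent.Work.MP_0532f7_lc.TP
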