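import Mathlib
import Pool.Agent.Work.MP_0532f7_lc.SlMain

/-!
# Optimal systems relative to the empty oracle and without oracle
-/

set_option autoImplicit false

namespace Pool.Agent.Work.MP_0532f7_lc.TP

/-- there is an optimal proof system relative to the empty oracle if and only if there is an
optimal Cook-Reckhow proof system -/
theorem empty_plain : (∃ f, OptimalRel (fun _ => false) f) ↔ ∃ f, Optimal f := by
  constructor
  · rintro ⟨f, ⟨h1, h2⟩, h3⟩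
    have h4 : OptimalForRel (fun _ => false) (OTAUT fun _ => false) f :=
      ⟨⟨h1, h2⟩, fun g hg hgr => h3 g ⟨hg, hgr⟩⟩
    obtain ⟨F, ⟨h5, h6⟩, h7⟩ := plain_of_empty h4
    exact ⟨F, ⟨h5, h6⟩, fun g hg => h7 g hg.1 hg.2⟩
  · rintro ⟨f, ⟨h1, h2⟩, h3⟩
    have h4 : ∃ f, OptimalFor TAUT f := ⟨f, ⟨h1, h2⟩, fun g hg hgr => h3 g ⟨hg, hgr⟩⟩
    obtain ⟨F, ⟨h5, h6⟩, h7⟩ := dense_optimal dd_tallyP dd_dense (fun _ => false)
      (fun L hL hne hLc => by
        obtain ⟨V, hV, p, hp⟩ := hLc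
        obtain ⟨h, ⟨h1, h2⟩, h3⟩ := (plain_iff dd_tallyP dd_dense).mp h4 L hL hne
          ⟨V, PolyTimeRel.empty_iff.mp hV, p, hp⟩
        exact ⟨h, ⟨PolyTimeRel.empty_iff.mpr h1, h2⟩,
          fun g hg hgr => h3 g (PolyTimeRel.empty_iff.mp hg) hgr⟩)
    exact ⟨F, ⟨h5, h6⟩, fun g hg => h7 g hg.1 hg.2⟩

end Pool.Agent.Work.MP_0532f7_lc.TP
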