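import Mathlib
import Pool.Agent.Work.MP_0532f7_lc.TP.Ge

/-!
# Generic tally oracles: the statement used in `FinalT`
-/

set_option autoImplicit false

namespace Pool.Agent.Work.MP_0532f7_lc.TP

open TD

theorem generic_T (A : List Bool → Bool) :
    ((∃ f, OptimalRel A f) →
      {T : ℕ → Bool | ∃ f, OptimalRel (ojoin A (tally T)) f} ∈ residual (ℕ → Bool)) ∧
    ((¬ ∃ f, OptimalRel A f) →
      {T : ℕ → Bool | ¬ ∃ f, OptimalRel (ojoin A (tally T)) f} ∈ residual (ℕ → Bool)) :=
  tally_generic_two A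

end Pool.Agent.Work.MP_0532f7_lc.TP
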