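import Mathlib
import Pool.Agent.Work.MP_0532f7_lc.TP.NegR
import Pool.Agent.Work.MP_0532f7_lc.TP.Clo

/-!
# TP.NegD (size S-M): hard records: no complete disjoint coNP-pair

Let `C`, `D` be complete, `X = ZT A T`.  `vcode2` with `N0 = Cᶜ`, `N1 = Dᶜ`, `c = 2`: `v`; `C`, `D` are disjoint, so some answer always
exists and `v` is never bad.  `neg_R` gives `m`, `VRec` gives `s0`.
`E = {w | rok T m s0 w = true ∧ fs (wd T m w) ∉ L1}`, `F = {w | rok T m s0 w = true ∧ sn (wd T m w) ∉ L1}` are in coNP relative to `X`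
(`NPRel.compl`, `co_join`, `co_pre`, `co_andB`), and disjoint because records from `s0` on are in `XL L1`.  Let `r` map `E` into `C` and `F` into
`D`; `neg_R` with `B = s0`: `n`, `z`, `b`, `w = inpR n z`.  `b = false`: `fs z ∉ L1`, so `w ∈ E`, `r w ∈ C`, so not `wit X v false (r w)`,
contradiction.  `b = true`: `sn z ∉ L1`, `w ∈ F`, `r w ∈ D`, not `wit X v true (r w)`, contradiction.
-/

set_option autoImplicit false

namespace Pool.Agent.Work.MP_0532f7_lc.TP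

open Polynomial Pool.Agent.Work.MP_0532f7_lc.TD

theorem neg_D {A : List Bool → Bool} {P : Polynomial ℕ} {T : ℕ → Bool} {L1 : Set (List Bool)}
    (h1 : NPRel A L1) {tf : List Bool → List Bool} (hrec : VRec L1 T)
    (hard : HRec A P tf L1 T) : ¬ ∃ C D, CompleteDisjCoNP (ZT A T) C D := by
  rintro ⟨C, D, ⟨hC, hD, hCD⟩, hL⟩
  obtain ⟨v, hk, hv⟩ := vcode2 (CoNPRel.compl hC) (CoNPRel.compl hD) 2
  have hns : ∀ s, ¬ UT A P v s T := by
    rintro s ⟨x, -, hB⟩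
    rcases hB with ⟨h, -⟩ | ⟨h, -⟩ | ⟨-, h3, h4⟩
    · omega
    · omega
    · rw [(hv x).1, Set.mem_compl_iff, not_not] at h3
      rw [(hv x).2, Set.mem_compl_iff, not_not] at h4
      exact Set.disjoint_left.1 hCD h3 h4
  obtain ⟨m, hm⟩ := neg_R hard hns (Or.inr hk)
  obtain ⟨s0, hs0⟩ := hrec m
  have hfs : PolyTimeRel (ZT A T) (fun w => fs (wd T m w)) := (wd_ptr A T m).post FP.fsI
  have hsn : PolyTimeRel (ZT A T) (fun w => sn (wd T m w)) := (wd_ptr A T m).post FP.snI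
  have hrok := rok_ptr A T m s0
  have hc1 : CoNPRel A L1ᶜ := NPRel.compl h1
  have hE : CoNPRel (ZT A T) {w | rok T m s0 w = true ∧ fs (wd T m w) ∈ L1ᶜ} :=
    co_andB (co_pre (co_join hc1 _) hfs) hrok
  have hF : CoNPRel (ZT A T) {w | rok T m s0 w = true ∧ sn (wd T m w) ∈ L1ᶜ} :=
    co_andB (co_pre (co_join hc1 _) hsn) hrok
  have hEF : Disjoint {w | rok T m s0 w = true ∧ fs (wd T m w) ∈ L1ᶜ}
      {w | rok T m s0 w = true ∧ sn (wd T m w) ∈ L1ᶜ} := by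
    rw [Set.disjoint_left]
    rintro w ⟨a, b⟩ ⟨-, c⟩
    have h2 := (rok_iff T m s0 w).mp a
    have h3 : ¬ (fs (wd T m w) ∈ L1 ↔ sn (wd T m w) ∈ L1) := hs0 _ h2.1 _ h2.2
    exact h3 (iff_of_false b c)
  obtain ⟨r, hr, hrC, hrD⟩ := hL _ _ hE hF hEF
  obtain ⟨n, hn, z, hz, hR, hw, b, hb1, hb2⟩ := hm r hr s0
  cases b with
  | false =>
    have h4 : r (inpR n z) ∈ C := hrC _ ⟨rok_inpR hn hR, by rw [wd_inpR hw]; exact hb2⟩
    rw [(hv _).1] at hb1
    exact hb1 h4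
  | true =>
    have h4 : r (inpR n z) ∈ D := hrD _ ⟨rok_inpR hn hR, by rw [wd_inpR hw]; exact hb2⟩
    rw [(hv _).2] at hb1
    exact hb1 h4

end Pool.Agent.Work.MP_0532f7_lc.TP
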